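import Pool.Agent.Lib.MP_c41b7c_co.PF.SpecW

/-!
# Module B2: a good position with a bad extension (adapted from BLK of helper82)
-/

set_option autoImplicit false

namespace Pool.Agent.Lib.MPc41b7c.PF

namespace B2aux

theorem xx (a b : Bool) : xor a (xor a b) = b := by cases a <;> cases b <;> rfl

theorem xinj {a b c : Bool} (h : xor a b = xor a c) : b = c := by
  revert h; cases a <;> cases b <;> cases c <;> decide

theorem ext_lt (w : ℕ → Bool) {m k : ℕ} (h : k < m) : ext w m k = w k := by
  unfold ext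
  rw [if_pos h]

theorem ext_add (w : ℕ → Bool) (m k : ℕ) : ext w m (m + k) = xor (w m) (tm (sg w m + k)) := by
  unfold ext
  rw [if_neg (by omega)]
  congr 3
  omega

theorem sg_cases (w : ℕ → Bool) (m : ℕ) : sg w m = 1 ∨ sg w m = 2 := by
  unfold sg
  split
  · exact Or.inl rfl
  · exact Or.inr rfl

theorem sg_one {w : ℕ → Bool} {m : ℕ} (h : sg w m = 1) : w (m - 1) = w m := by
  unfold sg at h
  by_contra h1
  rw [if_neg h1] at h
  omega

theorem sg_two {w : ℕ → Bool} {m : ℕ} (h : sg w m = 2) : w (m - 1) ≠ w m := by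
  intro h1
  unfold sg at h
  rw [if_pos h1] at h
  omega

theorem tm_pow (k : ℕ) : tm (2 ^ k) = true := by
  induction k with
  | zero => exact tm_1
  | succ n ih => rw [pow_succ, mul_comm, tm_even, ih]

theorem lyn_back (w : ℕ → Bool) (m a p : ℕ) (h1 : a + p ≤ m)
    (h : Lyn (fun k => xor (w m) (ext w m k)) false a p) : Lyn w (w m) a p := by
  have hzw : ∀ l, l < m → xor (w m) (ext w m l) = xor (w m) (w l) := by
    intro l hl
    rw [ext_lt w hl]
  intro j hj1 hj2
  obtain ⟨k, hk1, hk2, hk3, hk4⟩ := h j hj1 hj2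
  refine ⟨k, hk1, ?_, ?_, ?_⟩
  · intro l hl
    have h1 := hk2 l hl
    change xor (w m) (ext w m (a + l)) = xor (w m) (ext w m (a + j + l)) at h1
    rw [hzw _ (by omega), hzw _ (by omega)] at h1
    exact xinj h1
  · change xor (w m) (ext w m (a + k)) = false at hk3
    rw [hzw _ (by omega)] at hk3
    revert hk3
    cases w m <;> cases w (a + k) <;> decide
  · change xor (w m) (ext w m (a + j + k)) = !false at hk4
    rw [hzw _ (by omega)] at hk4
    revert hk4
    cases w m <;> cases w (a + j + k) <;> decide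

/-- no cubes of letters -/
theorem nocube (α : ℝ) (w : ℕ → Bool) (hα3 : α ≤ 3) (hw : PowFree α w) (k : ℕ) :
    ¬ (w k = w (k + 1) ∧ w (k + 1) = w (k + 2)) := by
  rintro ⟨h1, h2⟩
  have h3 := hw 1 k 3 le_rfl (by
    intro l hl1 hl2
    rcases (show l = k ∨ l = k + 1 by omega) with h | h
    · rw [h]; exact h1
    · rw [h]; exact h2)
  push_cast at h3
  linarith

end B2aux

open B2aux in
theorem specB2 (hOVL : SpecOVL) (hRB : SpecRB) (hRTA : SpecRTA) (hRTX : SpecRTX)
    (hRTB : SpecRTB) : SpecB2 := by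
  classical
  intro α w m hα hα3 hw hm hok hbad
  have hex : ∃ q : ℕ, 1 ≤ q ∧ ∃ i L : ℕ, Per (ext w m) q i (i + L) ∧ α * q ≤ L := by
    unfold PowFree at hbad
    push Not at hbad
    obtain ⟨p, i, L, h1, h2, h3⟩ := hbad
    exact ⟨p, h1, i, L, h2, h3⟩
  obtain ⟨p, ⟨hp1, i₀, L, hper₀, hL⟩, hmin⟩ : ∃ p : ℕ,
      (1 ≤ p ∧ ∃ i L : ℕ, Per (ext w m) p i (i + L) ∧ α * p ≤ L) ∧
      ∀ q < p, ¬ (1 ≤ q ∧ ∃ i L : ℕ, Per (ext w m) q i (i + L) ∧ α * q ≤ L) :=
    ⟨Nat.find hex, Nat.find_spec hex, fun q hq => Nat.find_min hex hq⟩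
  have hpr : (1 : ℝ) ≤ p := by exact_mod_cast hp1
  have h8 : ∀ K : ℕ, α * p ≤ K → 8 * p < 3 * K := by
    intro K hK
    have h1 : (8 : ℝ) * p < 3 * K := by
      have h2 : (8 / 3 : ℝ) * p < α * p := mul_lt_mul_of_pos_right hα (by linarith)
      linarith
    exact_mod_cast h1
  have h8L := h8 L hL
  -- the repetition ends after `m`
  have hend : m < i₀ + L := by
    by_contra h
    have h1 : Per w p i₀ (i₀ + L) := by
      intro k hk1 hk2
      have h2 := hper₀ k hk1 hk2
      rwa [ext_lt w (by omega), ext_lt w (by omega)] at h2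
    have h2 := hw p i₀ L hp1 h1
    linarith
  -- the repetition starts before `m`
  have hstart₀ : i₀ < m := by
    by_contra h
    refine hOVL p (sg w m + (i₀ - m)) hp1 ?_
    intro k hk1 hk2
    obtain ⟨j, rfl⟩ : ∃ j, k = sg w m + j := ⟨k - sg w m, by omega⟩
    have h2 := hper₀ (m + j) (by omega) (by omega)
    rw [ext_add, show m + j + p = m + (j + p) by omega, ext_add] at h2
    have h3 := xinj h2
    rw [h3]
    congr 1
    omega
  obtain ⟨c, hc⟩ : ∃ c, i₀ + L = m + c := ⟨i₀ + L - m, by omega⟩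
  have hc1 : 1 ≤ c := by omega
  -- the smallest start
  have hex2 : ∃ i : ℕ, Per (ext w m) p i (m + c) ∧ i < m ∧ α * p ≤ ((m - i + c : ℕ) : ℝ) := by
    refine ⟨i₀, ?_, hstart₀, ?_⟩
    · rw [← hc]
      exact hper₀
    · rw [show m - i₀ + c = L by omega]
      exact hL
  obtain ⟨i, ⟨hperc, hstart, hLi⟩, hmini⟩ : ∃ i : ℕ,
      (Per (ext w m) p i (m + c) ∧ i < m ∧ α * p ≤ ((m - i + c : ℕ) : ℝ)) ∧
      ∀ j < i, ¬ (Per (ext w m) p j (m + c) ∧ j < m ∧ α * p ≤ ((m - j + c : ℕ) : ℝ)) :=
    ⟨Nat.find hex2, Nat.find_spec hex2, fun q hq => Nat.find_min hex2 hq⟩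
  have h8i : 8 * p < 3 * ((m - i) + c) := h8 _ hLi
  have hleft : 1 ≤ i → ext w m (i - 1) ≠ ext w m (i - 1 + p) := by
    intro hi heq
    refine hmini (i - 1) (by omega) ⟨?_, by omega, ?_⟩
    · intro k hk1 hk2
      by_cases hk : k = i - 1
      · rw [hk]
        exact heq
      · exact hperc k (by omega) hk2
    · refine le_trans hLi ?_
      exact_mod_cast (show m - i + c ≤ m - (i - 1) + c by omega)
  have hxm : ext w m m = !(w m) := by
    have h1 := ext_add w m 0
    rw [Nat.add_zero, Nat.add_zero] at h1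
    rw [h1]
    rcases sg_cases w m with h | h
    · rw [h, tm_1]; cases w m <;> rfl
    · rw [h, tm_2]; cases w m <;> rfl
  have hp2 : 2 ≤ p := by
    by_contra h
    have hp : p = 1 := by omega
    subst hp
    rcases sg_cases w m with h1 | h1
    · have h2 := hperc (m - 1) (by omega) (by omega)
      rw [show m - 1 + 1 = m by omega, ext_lt w (by omega), hxm, sg_one h1] at h2
      revert h2
      cases w m <;> decide
    · have hc' : c = 1 := by
        by_contra hc3
        have h2 := hperc m (by omega) (by omega)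
        have h4 := ext_add w m 0
        rw [Nat.add_zero, Nat.add_zero] at h4
        rw [h4, ext_add, h1] at h2
        have h3 := xinj h2
        rw [tm_2, tm_3] at h3
        exact absurd h3 (by decide)
      rcases hok with h2 | h2
      · exact sg_two h1 h2
      · have h3 := h2 (m - i) (by omega) (by
          intro k hk1 hk2
          have h4 := hperc k (by omega) (by omega)
          rwa [ext_lt w (by omega), ext_lt w (by omega)] at h4)
        rw [hc'] at hLi
        push_cast at hLi h3
        linarith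
  have hz : ∀ k, xor (w m) (ext w m (m + k)) = tm (sg w m + k) := by
    intro k
    rw [ext_add, xx]
  have hzw : ∀ l, l < m → xor (w m) (ext w m l) = xor (w m) (w l) := by
    intro l hl
    rw [ext_lt w hl]
  have hperz : Per (fun k => xor (w m) (ext w m k)) p i (m + c) := by
    intro k hk1 hk2
    show xor (w m) (ext w m k) = xor (w m) (ext w m (k + p))
    rw [hperc k hk1 hk2]
  have h000 : ∀ k, k + 2 < m → ¬ (xor (w m) (ext w m k) = false ∧
      xor (w m) (ext w m (k + 1)) = false ∧ xor (w m) (ext w m (k + 2)) = false) := by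
    intro k hk
    rw [hzw _ (by omega), hzw _ (by omega), hzw _ hk]
    rintro ⟨h1, h2, h3⟩
    apply nocube α w hα3 hw k
    exact ⟨xinj (h1.trans h2.symm), xinj (h2.trans h3.symm)⟩
  have hs1 : sg w m = 1 → xor (w m) (ext w m (m - 1)) = false ∧
      xor (w m) (ext w m (m - 2)) = true := by
    intro h
    have h1 := sg_one h
    rw [hzw _ (by omega), hzw _ (by omega)]
    have h2 := nocube α w hα3 hw (m - 2)
    rw [show m - 2 + 1 = m - 1 by omega, show m - 2 + 2 = m by omega] at h2
    revert h1 h2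
    cases w m <;> cases w (m - 1) <;> cases w (m - 2) <;> decide
  have hs2 : sg w m = 2 → xor (w m) (ext w m (m - 1)) = true ∧
      xor (w m) (ext w m (m - 2)) = false := by
    intro h
    have h1 := sg_two h
    rw [hzw _ (by omega), hzw _ (by omega)]
    have h2 : w (m - 2) ≠ w (m - 1) := by
      intro h3
      rcases hok with h4 | h4
      · exact h1 h4
      · have h5 := h4 2 (by omega) (by
          intro k hk1 hk2
          have hk : k = m - 2 := by omega
          rw [hk, show m - 2 + 1 = m - 1 by omega]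
          exact h3)
        push_cast at h5
        linarith
    revert h1 h2
    cases w m <;> cases w (m - 1) <;> cases w (m - 2) <;> decide
  have hminz : ∀ q, 1 ≤ q → q < p → ¬ Per (fun k => xor (w m) (ext w m k)) q i (m + c) := by
    intro q hq1 hq2 hq3
    refine hmin q hq2 ⟨hq1, i, m - i + c, ?_, ?_⟩
    · intro k hk1 hk2
      exact xinj (hq3 k hk1 (by omega))
    · refine le_trans ?_ hLi
      refine mul_le_mul_of_nonneg_left ?_ (by linarith)
      exact_mod_cast hq2.le
  have hleftz : 1 ≤ i → xor (w m) (ext w m (i - 1)) ≠ xor (w m) (ext w m (i - 1 + p)) := by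
    intro hi h
    exact hleft hi (xinj h)
  -- `i + p ≤ m`
  have hip : i + p ≤ m := by
    by_cases hcp : c ≤ p
    · omega
    · have h22 : ¬ (sg w m = 2 ∧ p = 2) := by
        rintro ⟨h1, h2⟩
        have h3 := hperz (m - 1) (by omega) (by omega)
        change xor (w m) (ext w m (m - 1)) = xor (w m) (ext w m (m - 1 + p)) at h3
        rw [(hs2 h1).1, show m - 1 + p = m + 1 by omega, hz, h1, tm_3] at h3
        exact absurd h3 (by decide)
      have h1 := hRB (sg w m) p (c - p) (sg_cases w m) hp2 h22 (by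
        intro l hl
        have h3 := hperz (m + l) (by omega) (by omega)
        change xor (w m) (ext w m (m + l)) = xor (w m) (ext w m (m + l + p)) at h3
        rw [hz, show m + l + p = m + (p + l) by omega, hz] at h3
        rw [h3]
        congr 1
        omega)
      omega
  by_cases hcp : p < c
  · rcases hRTB (fun k => xor (w m) (ext w m k)) (sg w m) m p i c (sg_cases w m) hz hm hs1 hs2
      h000 hp2 hip hcp hperz hleftz h8i hminz with ⟨a, ha1, ha2, ha3⟩ | ⟨x, hx1, hx2, hx3⟩
    · left
      exact ⟨a, p, hp2, ha2, lyn_back w m a p ha2 ha3, i, c, ha1, hc1, hperc, h8i⟩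
    · right
      left
      refine ⟨x, hx1, ?_, hx3⟩
      intro k hk
      have h1 := hx2 k hk
      change xor (w m) (ext w m (x + k)) = tm (1 + k) at h1
      rw [hzw _ (by omega)] at h1
      rw [← h1, xx]
  · have hcp' : c ≤ p := by omega
    by_cases hx : sg w m = 2 ∧ ∃ k, 2 ≤ k ∧ 2 * p - (m - i) + 1 = 2 ^ k ∧
        (c + 2 = 3 * 2 ^ k ∨ c + 1 = 3 * 2 ^ k)
    · obtain ⟨hsg, k, hk2, hk3, hk4⟩ := hx
      have hz2 : ∀ l, xor (w m) (ext w m (m + l)) = tm (2 + l) := by
        intro l
        rw [hz, hsg]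
      obtain ⟨g1, g2, g3, g4⟩ := hRTX (fun k => xor (w m) (ext w m k)) m p i c k hz2 hm
        (hs2 hsg).1 h000 hp2 hip hc1 hcp' hperz hleftz h8i hk2 hk3 hk4
      have h2k : 4 ≤ 2 ^ k := by
        calc 4 = 2 ^ 2 := by norm_num
          _ ≤ 2 ^ k := Nat.pow_le_pow_right (by norm_num) hk2
      right
      right
      refine ⟨k, hk2, g2, !(w m), ?_, ?_⟩
      · intro j hj
        have h1 := g3 j hj
        change xor (w m) (ext w m j) = !(tm (1 + j)) at h1
        rw [hzw _ (by omega)] at h1
        revert h1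
        cases w m <;> cases w j <;> cases tm (1 + j) <;> decide
      · change xor (w m) (ext w m (2 ^ k - 1)) = true at g4
        rw [hzw _ (by omega)] at g4
        rw [tm_pow]
        revert g4
        cases w m <;> cases w (2 ^ k - 1) <;> decide
    · obtain ⟨a, ha1, ha2, ha3⟩ := hRTA (fun k => xor (w m) (ext w m k)) (sg w m) m p i c
        (sg_cases w m) hz (by omega) (fun h => (hs2 h).1) hp2 hip hc1 hcp' hperz h8i hminz hx
      left
      exact ⟨a, p, hp2, ha2, lyn_back w m a p ha2 ha3, i, c, ha1, hc1, hperc, h8i⟩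

end Pool.Agent.Lib.MPc41b7c.PF
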