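import Pool.Agent.Lib.MP_c41b7c_co.PF.Spec

/-!
# Module BLK (helper82)
-/

set_option autoImplicit false

namespace Pool.Agent.Lib.MPc41b7c.PF

namespace BLKaux

theorem xx (a b : Bool) : xor a (xor a b) = b := by cases a <;> cases b <;> rfl

theorem xinj {a b c : Bool} (h : xor a b = xor a c) : b = c := by
  revert h; cases a <;> cases b <;> cases c <;> decide

theorem ext_lt (w : ℕ → Bool) {m k : ℕ} (h : k < m) : ext w m k = w k := by
  unfold ext
  rw [if_pos h]

theorem ext_add (w : ℕ → Bool) (m k : ℕ) : ext w m (m + k) = xor (w m) (tm (sg w m + k)) := by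
  unfold ext
  rw [if_neg (by omega)]
  congr 3
  omega

theorem sg_cases (w : ℕ → Bool) (m : ℕ) : sg w m = 1 ∨ sg w m = 2 := by
  unfold sg
  split
  · exact Or.inl rfl
  · exact Or.inr rfl

theorem sg_one {w : ℕ → Bool} {m : ℕ} (h : sg w m = 1) : w (m - 1) = w m := by
  unfold sg at h
  by_contra h1
  rw [if_neg h1] at h
  omega

theorem sg_two {w : ℕ → Bool} {m : ℕ} (h : sg w m = 2) : w (m - 1) ≠ w m := by
  intro h1
  unfold sg at h
  rw [if_pos h1] at h
  omega

end BLKaux

open BLKaux in
theorem specBLK (hOVL : SpecOVL) (hROOT : SpecROOT) : SpecBLK := by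
  classical
  intro α w m hα hw hm hok hbad
  have hex : ∃ q : ℕ, 1 ≤ q ∧ ∃ i L : ℕ, Per (ext w m) q i (i + L) ∧ α * q ≤ L := by
    unfold PowFree at hbad
    push Not at hbad
    obtain ⟨p, i, L, h1, h2, h3⟩ := hbad
    exact ⟨p, h1, i, L, h2, h3⟩
  obtain ⟨p, ⟨hp1, i, L, hper, hL⟩, hmin⟩ : ∃ p : ℕ,
      (1 ≤ p ∧ ∃ i L : ℕ, Per (ext w m) p i (i + L) ∧ α * p ≤ L) ∧
      ∀ q < p, ¬ (1 ≤ q ∧ ∃ i L : ℕ, Per (ext w m) q i (i + L) ∧ α * q ≤ L) :=
    ⟨Nat.find hex, Nat.find_spec hex, fun q hq => Nat.find_min hex hq⟩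
  have h3p : 3 * p ≤ L := by
    have h1 : (3 : ℝ) * p ≤ L :=
      le_trans (mul_le_mul_of_nonneg_right hα (Nat.cast_nonneg p)) hL
    exact_mod_cast h1
  -- the repetition ends after `m`
  have hend : m < i + L := by
    by_contra h
    have h1 : Per w p i (i + L) := by
      intro k hk1 hk2
      have h2 := hper k hk1 hk2
      rwa [ext_lt w (by omega), ext_lt w (by omega)] at h2
    have h2 := hw p i L hp1 h1
    linarith
  -- the repetition starts before `m`
  have hstart : i < m := by
    by_contra h
    refine hOVL p (sg w m + (i - m)) hp1 ?_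
    intro k hk1 hk2
    obtain ⟨j, rfl⟩ : ∃ j, k = sg w m + j := ⟨k - sg w m, by omega⟩
    have h2 := hper (m + j) (by omega) (by omega)
    rw [ext_add, show m + j + p = m + (j + p) by omega, ext_add] at h2
    have h3 := xinj h2
    rw [h3]
    congr 1
    omega
  obtain ⟨c, hc⟩ : ∃ c, i + L = m + c := ⟨i + L - m, by omega⟩
  have hc1 : 1 ≤ c := by omega
  have hc2 : c ≤ 2 * p := by
    by_contra h
    refine hOVL p (sg w m) hp1 ?_
    intro k hk1 hk2
    obtain ⟨j, rfl⟩ : ∃ j, k = sg w m + j := ⟨k - sg w m, by omega⟩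
    have h2 := hper (m + j) (by omega) (by omega)
    rw [ext_add, show m + j + p = m + (j + p) by omega, ext_add] at h2
    have h3 := xinj h2
    rw [h3]
    congr 1
    omega
  have hip : i + p ≤ m := by omega
  have hxm : ext w m m = !(w m) := by
    have h1 := ext_add w m 0
    rw [Nat.add_zero, Nat.add_zero] at h1
    rw [h1]
    rcases sg_cases w m with h | h
    · rw [h, tm_1]; cases w m <;> rfl
    · rw [h, tm_2]; cases w m <;> rfl
  have hp2 : 2 ≤ p := by
    by_contra h
    have hp : p = 1 := by omega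
    subst hp
    rcases sg_cases w m with h1 | h1
    · have h2 := hper (m - 1) (by omega) (by omega)
      rw [show m - 1 + 1 = m by omega, ext_lt w (by omega), hxm, sg_one h1] at h2
      revert h2
      cases w m <;> decide
    · have hc' : c = 1 := by
        by_contra hc3
        have h2 := hper m (by omega) (by omega)
        have h4 := ext_add w m 0
        rw [Nat.add_zero, Nat.add_zero] at h4
        rw [h4, ext_add, h1] at h2
        have h3 := xinj h2
        rw [tm_2, tm_3] at h3
        exact absurd h3 (by decide)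
      rcases hok with h2 | h2
      · exact sg_two h1 h2
      · have h3 := h2 (m - i) (by omega) (by
          intro k hk1 hk2
          have h4 := hper k (by omega) (by omega)
          rwa [ext_lt w (by omega), ext_lt w (by omega)] at h4)
        have h4 : L = (m - i) + 1 := by omega
        rw [h4] at hL
        push_cast at hL h3
        rw [mul_one] at hL
        linarith
  have hz : ∀ k, xor (w m) (ext w m (m + k)) = tm (sg w m + k) := by
    intro k
    rw [ext_add, xx]
  have hperc : Per (ext w m) p i (m + c) := by rw [← hc]; exact hper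
  obtain ⟨a, ha1, ha2, ha3⟩ := hROOT (fun k => xor (w m) (ext w m k)) (sg w m) m p i c
    (sg_cases w m) hz hm (by
      intro h
      show xor (w m) (ext w m (m - 1)) = true
      rw [ext_lt w (by omega)]
      have h1 := sg_two h
      revert h1
      cases w m <;> cases w (m - 1) <;> decide) hp2 hip hc1 (by
      intro k hk1 hk2
      show xor (w m) (ext w m k) = xor (w m) (ext w m (k + p))
      rw [hperc k hk1 hk2]) (by omega) (by
      intro q hq1 hq2 hq3
      refine hmin q hq2 ⟨hq1, i, L, ?_, ?_⟩
      · intro k hk1 hk2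
        exact xinj (hq3 k hk1 (by omega))
      · refine le_trans ?_ hL
        refine mul_le_mul_of_nonneg_left ?_ (by linarith)
        exact_mod_cast hq2.le)
  refine ⟨a, p, hp2, ha2, ?_, i, c, ha1, hc1, hperc, by omega⟩
  intro j hj1 hj2
  obtain ⟨k, hk1, hk2, hk3, hk4⟩ := ha3 j hj1 hj2
  have hzw : ∀ l, l < m → xor (w m) (ext w m l) = xor (w m) (w l) := by
    intro l hl
    rw [ext_lt w hl]
  refine ⟨k, hk1, ?_, ?_, ?_⟩
  · intro l hl
    have h1 := hk2 l hl
    change xor (w m) (ext w m (a + l)) = xor (w m) (ext w m (a + j + l)) at h1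
    rw [hzw _ (by omega), hzw _ (by omega)] at h1
    exact xinj h1
  · change xor (w m) (ext w m (a + k)) = false at hk3
    rw [hzw _ (by omega)] at hk3
    revert hk3
    cases w m <;> cases w (a + k) <;> decide
  · change xor (w m) (ext w m (a + j + k)) = !false at hk4
    rw [hzw _ (by omega)] at hk4
    revert hk4
    cases w m <;> cases w (a + j + k) <;> decide

end Pool.Agent.Lib.MPc41b7c.PF
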