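import Pool.Agent.Lib.MP_c41b7c_co.PF.Spec

/-!
# Module CNT: the contradiction for `α > 3`
-/

set_option autoImplicit false

namespace Pool.Agent.Lib.MPc41b7c.PF

open Finset

namespace CNTaux

/-- the end of a block of length at least two is at `m` -/
def En (w : ℕ → Bool) (m : ℕ) : Prop := w (m - 1) = w m ∧ w (m + 1) ≠ w m

/-- the three letters before `m` are equal -/
def Tr (w : ℕ → Bool) (m : ℕ) : Prop := w (m - 3) = w (m - 2) ∧ w (m - 2) = w (m - 1)

theorem ok_of_not_tr {α : ℝ} (hα : 3 < α) (w : ℕ → Bool) (m : ℕ) (h : ¬ Tr w m) : Ok α w m := by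
  right
  intro L hL hper
  have hL2 : L ≤ 2 := by
    by_contra hcon
    push Not at hcon
    apply h
    constructor
    · have h1 := hper (m - 3) (by omega) (by omega)
      rw [show m - 3 + 1 = m - 2 by omega] at h1
      exact h1
    · have h1 := hper (m - 2) (by omega) (by omega)
      rw [show m - 2 + 1 = m - 1 by omega] at h1
      exact h1
  have h3 : (L : ℝ) ≤ 2 := by exact_mod_cast hL2
  linarith

open Classical in
theorem card_le {α : ℝ} (hα : 3 < α) (w : ℕ → Bool) (n N : ℕ) (hn : 1 ≤ n) :
    ((Ico (n + 2) N).filter (fun m => St w m)).card + ((Ico n N).filter (fun m => En w m)).card ≤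
      ((Ico n N).filter (fun m => Ok α w m)).card := by
  let f : ℕ → ℕ := fun m => if Tr w m then m - 2 else m
  have hf1 : ∀ m, Tr w m → f m = m - 2 := fun m h => if_pos h
  have hf2 : ∀ m, ¬ Tr w m → f m = m := fun m h => if_neg h
  have hinj : Set.InjOn f ((Ico (n + 2) N).filter (fun m => St w m) : Finset ℕ) := by
    intro m hm m' hm' hmm
    rw [mem_coe, mem_filter, mem_Ico] at hm hm'
    by_cases h : Tr w m <;> by_cases h' : Tr w m'
    · rw [hf1 m h, hf1 m' h'] at hmm
      omega
    · rw [hf1 m h, hf2 m' h'] at hmm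
      exfalso
      have h2 := hm'.2.2
      rw [← hmm, show m - 2 - 1 = m - 3 by omega] at h2
      exact h2 h.1
    · rw [hf2 m h, hf1 m' h'] at hmm
      exfalso
      have h2 := hm.2.2
      rw [hmm, show m' - 2 - 1 = m' - 3 by omega] at h2
      exact h2 h'.1
    · rw [hf2 m h, hf2 m' h'] at hmm
      exact hmm
  have hdis : Disjoint (((Ico (n + 2) N).filter (fun m => St w m)).image f)
      ((Ico n N).filter (fun m => En w m)) := by
    rw [disjoint_left]
    intro a ha ha'
    rw [mem_image] at ha
    obtain ⟨m, hm, rfl⟩ := ha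
    rw [mem_filter, mem_Ico] at hm ha'
    by_cases h : Tr w m
    · rw [hf1 m h] at ha'
      have h2 := ha'.2.2
      rw [show m - 2 + 1 = m - 1 by omega] at h2
      exact h2 h.2.symm
    · rw [hf2 m h] at ha'
      exact hm.2.2 ha'.2.1
  have hsub : ((Ico (n + 2) N).filter (fun m => St w m)).image f ∪
      ((Ico n N).filter (fun m => En w m)) ⊆ (Ico n N).filter (fun m => Ok α w m) := by
    intro a ha
    rw [mem_union] at ha
    rw [mem_filter, mem_Ico]
    rcases ha with ha | ha
    · rw [mem_image] at ha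
      obtain ⟨m, hm, rfl⟩ := ha
      rw [mem_filter, mem_Ico] at hm
      by_cases h : Tr w m
      · rw [hf1 m h]
        refine ⟨⟨by omega, by omega⟩, Or.inl ?_⟩
        rw [show m - 2 - 1 = m - 3 by omega]
        exact h.1
      · rw [hf2 m h]
        exact ⟨⟨by omega, by omega⟩, ok_of_not_tr hα w m h⟩
    · rw [mem_filter, mem_Ico] at ha
      exact ⟨ha.1, Or.inl ha.2.1⟩
  calc ((Ico (n + 2) N).filter (fun m => St w m)).card + ((Ico n N).filter (fun m => En w m)).card
      = (((Ico (n + 2) N).filter (fun m => St w m)).image f).card +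
          ((Ico n N).filter (fun m => En w m)).card := by rw [card_image_of_injOn hinj]
    _ = (((Ico (n + 2) N).filter (fun m => St w m)).image f ∪
          ((Ico n N).filter (fun m => En w m))).card := (card_union_of_disjoint hdis).symm
    _ ≤ _ := card_le_card hsub

open Classical in
theorem many {α : ℝ} (hNAP : SpecNAP) (w : ℕ → Bool) (hw : PowFree α w) (n : ℕ) :
    ∀ k : ℕ, ∃ N, k ≤ ((Ico n N).filter (fun m => En w m)).card := by
  intro k
  induction k with
  | zero => exact ⟨0, Nat.zero_le _⟩
  | succ k ih =>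
    obtain ⟨N, hN⟩ := ih
    obtain ⟨m, hm, -, hm2, hm3⟩ := hNAP α w hw (N + n)
    refine ⟨m + 1, ?_⟩
    have hnot : m ∉ (Ico n N).filter (fun m => En w m) := by
      intro h
      rw [mem_filter, mem_Ico] at h
      omega
    have hsub : insert m ((Ico n N).filter (fun m => En w m)) ⊆
        (Ico n (m + 1)).filter (fun m => En w m) := by
      intro a ha
      rw [mem_insert] at ha
      rw [mem_filter, mem_Ico]
      rcases ha with rfl | ha
      · exact ⟨by omega, hm2, hm3⟩
      · rw [mem_filter, mem_Ico] at ha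
        exact ⟨by omega, ha.2⟩
    have h1 := card_le_card hsub
    rw [card_insert_of_notMem hnot] at h1
    omega

end CNTaux

open CNTaux

theorem specCNT (hHF : SpecHF) (hINJ : SpecINJ) (hNAP : SpecNAP) : SpecCNT := by
  classical
  intro α w hα hw n hn hhit
  obtain ⟨N, hN⟩ := many hNAP w hw n (n + 2)
  have h1 := hINJ w ((Ico n N).filter (fun m => Ok α w m)) ((Ico 1 N).filter (fun m => St w m))
    (by
      intro m hm a p hap
      rw [mem_filter, mem_Ico] at hm
      obtain ⟨ha1, ham, -, ha2, -, -⟩ := hHF w m a p hap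
      rw [mem_filter, mem_Ico]
      exact ⟨⟨ha1, by omega⟩, ha1, ha2⟩)
    (by
      intro m hm
      rw [mem_filter, mem_Ico] at hm
      exact hhit m hm.1.1 hm.2)
  have h2 := card_le hα w n N hn
  have h3 : ((Ico 1 N).filter (fun m => St w m)).card ≤
      ((Ico (n + 2) N).filter (fun m => St w m)).card + (n + 1) := by
    have hsub : (Ico 1 N).filter (fun m => St w m) ⊆
        (Ico (n + 2) N).filter (fun m => St w m) ∪ Ico 1 (n + 2) := by
      intro a ha
      rw [mem_filter, mem_Ico] at ha
      rw [mem_union, mem_filter, mem_Ico, mem_Ico]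
      by_cases h : n + 2 ≤ a
      · exact Or.inl ⟨⟨h, ha.1.2⟩, ha.2⟩
      · exact Or.inr ⟨ha.1.1, by omega⟩
    calc ((Ico 1 N).filter (fun m => St w m)).card
        ≤ ((Ico (n + 2) N).filter (fun m => St w m) ∪ Ico 1 (n + 2)).card := card_le_card hsub
      _ ≤ ((Ico (n + 2) N).filter (fun m => St w m)).card + (Ico 1 (n + 2)).card := card_union_le _ _
      _ = _ := by rw [Nat.card_Ico]; omega
  omega

end Pool.Agent.Lib.MPc41b7c.PF
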