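import Pool.Agent.Lib.MP_c41b7c_co.PF.SpecD
import Pool.Agent.Lib.MP_c41b7c_co.PF.CNT

/-!
# Module CDA: counting the free positions for `α > 3`
-/

set_option autoImplicit false

namespace Pool.Agent.Lib.MPc41b7c.PF

open Finset

namespace CDAaux

open Classical in
/-- elements before `n` are at most `n` -/
theorem card_below (P : ℕ → Prop) (n k N : ℕ) (hk : n ≤ k) (hn : 1 ≤ n) :
    ((Ico 1 N).filter P).card ≤ ((Ico n N).filter P).card + k := by
  have hsub : (Ico 1 N).filter P ⊆ (Ico n N).filter P ∪ Ico 1 n := by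
    intro a ha
    rw [mem_filter, mem_Ico] at ha
    rw [mem_union, mem_filter, mem_Ico, mem_Ico]
    by_cases h : n ≤ a
    · exact Or.inl ⟨⟨h, ha.1.2⟩, ha.2⟩
    · exact Or.inr ⟨ha.1.1, by omega⟩
  have h1 : ((Ico 1 N).filter P).card ≤ ((Ico n N).filter P).card + (Ico 1 n).card :=
    (card_le_card hsub).trans (card_union_le _ _)
  rw [Nat.card_Ico] at h1
  omega

end CDAaux

open CDAaux in
theorem specCDA (hHF : SpecHF) (hINJ : SpecINJ) (hBLK : SpecBLK) : SpecCDA := by
  classical
  intro α w hα hw n N hn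
  have h1 := hINJ w ((Ico n N).filter (fun m => Ok α w m ∧ ¬ PowFree α (ext w m)))
    ((Ico 1 N).filter (fun m => St w m))
    (by
      intro m hm a p hap
      rw [mem_filter, mem_Ico] at hm
      obtain ⟨ha1, ham, -, ha2, -, -⟩ := hHF w m a p hap
      rw [mem_filter, mem_Ico]
      exact ⟨⟨ha1, by omega⟩, ha1, ha2⟩)
    (by
      intro m hm
      rw [mem_filter, mem_Ico] at hm
      exact hBLK α w m hα.le hw (by omega) hm.2.1 hm.2.2)
  have h2 := CNTaux.card_le hα w n N hn
  have h3 := card_below (fun m => St w m) (n + 2) (n + 2) N le_rfl (by omega)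
  have h3' : ((Ico 1 N).filter (fun m => St w m)).card ≤
      ((Ico (n + 2) N).filter (fun m => St w m)).card + (n + 2) := h3
  have h4 : ((Ico 1 N).filter (fun m => CNTaux.En w m)).card ≤
      ((Ico n N).filter (fun m => CNTaux.En w m)).card + n :=
    card_below (fun m => CNTaux.En w m) n n N le_rfl hn
  have h5 : ((Ico n N).filter (fun m => Ok α w m)).card ≤
      ((Ico n N).filter (fun m => Ok α w m ∧ ¬ PowFree α (ext w m))).card +
        (Fc α w n N).card := by
    have hsub : (Ico n N).filter (fun m => Ok α w m) ⊆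
        (Ico n N).filter (fun m => Ok α w m ∧ ¬ PowFree α (ext w m)) ∪ Fc α w n N := by
      intro m hm
      rw [mem_filter] at hm
      rw [mem_union]
      by_cases h : PowFree α (ext w m)
      · right
        unfold Fc
        rw [mem_filter]
        exact ⟨hm.1, h⟩
      · left
        rw [mem_filter]
        exact ⟨hm.1, hm.2, h⟩
    exact (card_le_card hsub).trans (card_union_le _ _)
  have h7 : ((Ico 1 N).filter (fun m => CNTaux.En w m)).card ≤ (Fc α w n N).card + 2 * n + 2 := by
    omega
  refine le_trans (card_le_card ?_) h7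
  intro a ha
  rw [mem_filter] at ha ⊢
  exact ha

end Pool.Agent.Lib.MPc41b7c.PF
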