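import Pool.Agent.Lib.MP_c41b7c_co.PF.Spec

/-!
# MP_c41b7c_co: module CN3 (counting, cube free words)
-/

set_option autoImplicit false

namespace Pool.Agent.Lib.MPc41b7c.PF

namespace CN3aux

/-- The map from the block starts to the good positions. -/
def phi (w : ℕ → Bool) (m : ℕ) : ℕ := if w (m - 2) = w (m - 1) then m - 1 else m

theorem phi_ok (w : ℕ → Bool) (n m : ℕ) (hn : 1 ≤ n) (hm : n + 1 ≤ m) :
    n ≤ phi w m ∧ phi w m ≤ m ∧ Ok 3 w (phi w m) := by
  unfold phi
  split_ifs with h
  · refine ⟨by omega, by omega, Or.inl ?_⟩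
    rw [show m - 1 - 1 = m - 2 by omega]
    exact h
  · refine ⟨by omega, le_rfl, Or.inr ?_⟩
    intro L hL hP
    have h1 : L < 2 := by
      by_contra hL2
      apply h
      have h2 := hP (m - 2) (by omega) (by omega)
      rwa [show m - 2 + 1 = m - 1 by omega] at h2
    have h3 : (L : ℝ) ≤ 1 := by exact_mod_cast (by omega : L ≤ 1)
    linarith

theorem phi_inj (w : ℕ → Bool) (m m' : ℕ) (hm : 2 ≤ m) (hm' : 2 ≤ m') (h1 : w (m - 1) ≠ w m)
    (h2 : w (m' - 1) ≠ w m') (h : phi w m = phi w m') : m = m' := by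
  unfold phi at h
  split_ifs at h with h3 h4 h4
  · omega
  · -- `m' = m - 1`
    exfalso
    apply h2
    rw [← h, show m - 1 - 1 = m - 2 by omega]
    exact h3
  · exfalso
    apply h1
    rw [h, show m' - 1 - 1 = m' - 2 by omega]
    exact h4
  · exact h

end CN3aux

open CN3aux in
theorem specCN3 (hHF : SpecHF) (hINJ : SpecINJ) (hDFS : SpecDFS) : SpecCN3 := by
  intro w hw n hn hhit
  classical
  let U : ℕ → Prop := fun a => St w a ∧ ∀ m p, ¬ Hit w m a p
  have hinf : {a | U a}.Infinite := by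
    refine Set.infinite_of_forall_exists_gt fun M => ?_
    obtain ⟨a, ha, h1, h2⟩ := hDFS w hw (M + 1)
    exact ⟨a, ⟨h1, h2⟩, by omega⟩
  obtain ⟨t, ht, htc⟩ := hinf.exists_subset_card_eq (n + 1)
  let N : ℕ := t.sup id + 1
  have htN : ∀ a ∈ t, a < N := fun a ha => Nat.lt_succ_of_le (Finset.le_sup (f := id) ha)
  let S : Finset ℕ := (Finset.Ico n N).filter fun m => Ok 3 w m
  let T : Finset ℕ := (Finset.Ico 1 N).filter fun a => St w a ∧ ¬ U a
  let E : Finset ℕ := (Finset.Ico 1 N).filter fun a => St w a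
  let D : Finset ℕ := (Finset.Ico (n + 1) N).filter fun a => St w a
  have hST : S.card ≤ T.card := by
    refine hINJ w S T ?_ ?_
    · intro m hm a p hap
      rw [Finset.mem_filter, Finset.mem_Ico] at hm ⊢
      obtain ⟨e1, e2, e3, e4, e5, e6⟩ := hHF w m a p hap
      refine ⟨⟨e1, by omega⟩, ⟨e1, e4⟩, fun hU => hU.2 m p hap⟩
    · intro m hm
      rw [Finset.mem_filter, Finset.mem_Ico] at hm
      exact hhit m hm.1.1 hm.2
  have hDS : D.card ≤ S.card := by
    refine Finset.card_le_card_of_injOn (phi w) ?_ ?_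
    · intro m hm
      have hm' := Finset.mem_coe.1 hm
      rw [Finset.mem_filter, Finset.mem_Ico] at hm'
      obtain ⟨e1, e2, e3⟩ := phi_ok w n m hn hm'.1.1
      refine Finset.mem_coe.2 ?_
      rw [Finset.mem_filter, Finset.mem_Ico]
      exact ⟨⟨e1, by omega⟩, e3⟩
    · intro m hm m' hm' h
      have h1 := Finset.mem_coe.1 hm
      have h2 := Finset.mem_coe.1 hm'
      rw [Finset.mem_filter, Finset.mem_Ico] at h1 h2
      exact phi_inj w m m' (by omega) (by omega) h1.2.2 h2.2.2 h
  have hTE : T.card + t.card ≤ E.card := by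
    have hd : Disjoint T t := by
      rw [Finset.disjoint_left]
      intro a haT hat
      rw [Finset.mem_filter] at haT
      exact haT.2.2 (ht hat)
    rw [← Finset.card_union_of_disjoint hd]
    refine Finset.card_le_card ?_
    intro a ha
    rw [Finset.mem_union] at ha
    rw [Finset.mem_filter]
    rcases ha with ha | ha
    · rw [Finset.mem_filter] at ha
      exact ⟨ha.1, ha.2.1⟩
    · have hU : U a := ht ha
      exact ⟨Finset.mem_Ico.2 ⟨hU.1.1, htN a ha⟩, hU.1⟩
  have hED : E.card ≤ D.card + n := by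
    have h1 : E ⊆ D ∪ Finset.Ico 1 (n + 1) := by
      intro a ha
      rw [Finset.mem_filter, Finset.mem_Ico] at ha
      rw [Finset.mem_union, Finset.mem_filter, Finset.mem_Ico, Finset.mem_Ico]
      by_cases h : n + 1 ≤ a
      · exact Or.inl ⟨⟨h, ha.1.2⟩, ha.2⟩
      · exact Or.inr ⟨ha.1.1, by omega⟩
    have h2 := (Finset.card_le_card h1).trans (Finset.card_union_le _ _)
    rw [Nat.card_Ico] at h2
    omega
  omega

end Pool.Agent.Lib.MPc41b7c.PF
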