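import Pool.Agent.Lib.MP_c41b7c_co.PF.SpecD
import Pool.Agent.Lib.MP_c41b7c_co.PF.CN3

/-!
# MP_c41b7c_co: module CDB (counting with the free positions, cube free words)
-/

set_option autoImplicit false

namespace Pool.Agent.Lib.MPc41b7c.PF

open Classical CN3aux in
theorem specCDB (hHF : SpecHF) (hINJ : SpecINJ) (hBLK : SpecBLK) : SpecCDB := by
  intro w hw n N hn
  let U : ℕ → Prop := fun a => St w a ∧ ∀ m p, ¬ Hit w m a p
  let G : Finset ℕ := (Finset.Ico n N).filter fun m => Ok 3 w m
  let S : Finset ℕ := (Finset.Ico n N).filter fun m => Ok 3 w m ∧ ¬ PowFree 3 (ext w m)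
  let T : Finset ℕ := (Finset.Ico 1 N).filter fun a => St w a ∧ ¬ U a
  let E : Finset ℕ := (Finset.Ico 1 N).filter fun a => St w a
  let D : Finset ℕ := (Finset.Ico (n + 1) N).filter fun a => St w a
  let V : Finset ℕ := (Finset.Ico 1 N).filter fun a => U a
  have hG : G.card ≤ (Fc 3 w n N).card + S.card := by
    have h1 : G ⊆ Fc 3 w n N ∪ S := by
      intro m hm
      rw [Finset.mem_filter] at hm
      rw [Finset.mem_union]
      by_cases h : PowFree 3 (ext w m)
      · left
        unfold Fc
        rw [Finset.mem_filter]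
        exact ⟨hm.1, h⟩
      · right
        rw [Finset.mem_filter]
        exact ⟨hm.1, hm.2, h⟩
    exact (Finset.card_le_card h1).trans (Finset.card_union_le _ _)
  have hST : S.card ≤ T.card := by
    refine hINJ w S T ?_ ?_
    · intro m hm a p hap
      rw [Finset.mem_filter, Finset.mem_Ico] at hm ⊢
      obtain ⟨e1, e2, e3, e4, e5, e6⟩ := hHF w m a p hap
      refine ⟨⟨e1, by omega⟩, ⟨e1, e4⟩, fun hU => hU.2 m p hap⟩
    · intro m hm
      rw [Finset.mem_filter, Finset.mem_Ico] at hm
      exact hBLK 3 w m le_rfl hw (by omega) hm.2.1 hm.2.2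
  have hDG : D.card ≤ G.card := by
    refine Finset.card_le_card_of_injOn (phi w) ?_ ?_
    · intro m hm
      have hm' := Finset.mem_coe.1 hm
      rw [Finset.mem_filter, Finset.mem_Ico] at hm'
      obtain ⟨e1, e2, e3⟩ := phi_ok w n m hn hm'.1.1
      refine Finset.mem_coe.2 ?_
      rw [Finset.mem_filter, Finset.mem_Ico]
      exact ⟨⟨e1, by omega⟩, e3⟩
    · intro m hm m' hm' h
      have h1 := Finset.mem_coe.1 hm
      have h2 := Finset.mem_coe.1 hm'
      rw [Finset.mem_filter, Finset.mem_Ico] at h1 h2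
      exact phi_inj w m m' (by omega) (by omega) h1.2.2 h2.2.2 h
  have hTV : T.card + V.card ≤ E.card := by
    have hd : Disjoint T V := by
      rw [Finset.disjoint_left]
      intro a haT haV
      rw [Finset.mem_filter] at haT haV
      exact haT.2.2 haV.2
    rw [← Finset.card_union_of_disjoint hd]
    refine Finset.card_le_card ?_
    intro a ha
    rw [Finset.mem_union] at ha
    rw [Finset.mem_filter]
    rcases ha with ha | ha
    · rw [Finset.mem_filter] at ha
      exact ⟨ha.1, ha.2.1⟩
    · rw [Finset.mem_filter] at ha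
      exact ⟨ha.1, ha.2.1⟩
  have hED : E.card ≤ D.card + n := by
    have h1 : E ⊆ D ∪ Finset.Ico 1 (n + 1) := by
      intro a ha
      rw [Finset.mem_filter, Finset.mem_Ico] at ha
      rw [Finset.mem_union, Finset.mem_filter, Finset.mem_Ico, Finset.mem_Ico]
      by_cases h : n + 1 ≤ a
      · exact Or.inl ⟨⟨h, ha.1.2⟩, ha.2⟩
      · exact Or.inr ⟨ha.1.1, by omega⟩
    have h2 := (Finset.card_le_card h1).trans (Finset.card_union_le _ _)
    rw [Nat.card_Ico] at h2
    omega
  show V.card ≤ (Fc 3 w n N).card + 2 * n + 2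
  omega

end Pool.Agent.Lib.MPc41b7c.PF
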