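import Pool.Agent.Lib.MP_c41b7c_co.PF.SpecW

/-!
# MP_c41b7c_co: module CN2 (counting, exponents between `8/3` and `3`) (helper74)
-/

set_option autoImplicit false

namespace Pool.Agent.Lib.MPc41b7c.PF

namespace CN2aux

/-- The map from the block starts to the good positions. -/
def phi (w : ℕ → Bool) (m : ℕ) : ℕ := if w (m - 2) = w (m - 1) then m - 1 else m

theorem phi_ok {α : ℝ} (hα : 2 < α) (w : ℕ → Bool) (n m : ℕ) (hn : 1 ≤ n) (hm : n + 1 ≤ m) :
    n ≤ phi w m ∧ phi w m ≤ m ∧ Ok α w (phi w m) := by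
  unfold phi
  split_ifs with h
  · refine ⟨by omega, by omega, Or.inl ?_⟩
    rw [show m - 1 - 1 = m - 2 by omega]
    exact h
  · refine ⟨by omega, le_rfl, Or.inr ?_⟩
    intro L hL hP
    have h1 : L < 2 := by
      by_contra hL2
      apply h
      have h2 := hP (m - 2) (by omega) (by omega)
      rwa [show m - 2 + 1 = m - 1 by omega] at h2
    have h3 : (L : ℝ) ≤ 1 := by exact_mod_cast (by omega : L ≤ 1)
    linarith

theorem phi_inj (w : ℕ → Bool) (m m' : ℕ) (hm : 2 ≤ m) (hm' : 2 ≤ m') (h1 : w (m - 1) ≠ w m)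
    (h2 : w (m' - 1) ≠ w m') (h : phi w m = phi w m') : m = m' := by
  unfold phi at h
  split_ifs at h with h3 h4 h4
  · omega
  · -- `m' = m - 1`
    exfalso
    apply h2
    rw [← h, show m - 1 - 1 = m - 2 by omega]
    exact h3
  · exfalso
    apply h1
    rw [h, show m' - 1 - 1 = m' - 2 by omega]
    exact h4
  · exact h

theorem bad_head {w : ℕ → Bool} {x m : ℕ} (h : BadAt w x m) : w x = !(w m) := by
  obtain ⟨h1, h2, _⟩ := h
  have h3 := h2 0 (by omega)
  rw [Nat.add_zero, Nat.add_zero, tm_1] at h3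
  rw [h3]
  cases w m <;> rfl

theorem bad_lt {w : ℕ → Bool} {x m m' : ℕ} (h : BadAt w x m) (h' : BadAt w x m') : ¬ m < m' := by
  intro hlt
  have e1 := bad_head h
  have e2 := bad_head h'
  have e3 : w m = w m' := by
    rw [e1] at e2
    revert e2
    cases w m <;> cases w m' <;> simp
  have h1 := h.1
  have h2 := h'.2.1 (m - x) (by omega)
  rw [show x + (m - x) = m by omega, h.2.2, ← e3] at h2
  revert h2
  cases w m <;> simp

theorem bad_uniq {w : ℕ → Bool} {x m m' : ℕ} (h : BadAt w x m) (h' : BadAt w x m') : m = m' := by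
  have h1 := bad_lt h h'
  have h2 := bad_lt h' h
  omega

/-- the relation between a good position and the block start counted for it -/
def Rel (w : ℕ → Bool) (m v : ℕ) : Prop :=
  (∃ p, Hit2 w m v p) ∨ ∃ x, BadAt w x m ∧ v = x + 2

theorem hit_uniq (hUNI : SpecUNI) (hHF : SpecHF2) {w : ℕ → Bool} {m m' a p p' : ℕ}
    (h1 : Hit2 w m a p) (h2 : Hit2 w m' a p') : m = m' := by
  obtain ⟨_, _, hw1, _, hP1, he1⟩ := hHF w m a p h1
  obtain ⟨_, _, hw2, _, hP2, he2⟩ := hHF w m' a p' h2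
  obtain ⟨hp1, hl1, hL1, _⟩ := h1
  obtain ⟨hp2, hl2, hL2, _⟩ := h2
  have hwm : w m' = w m := by rw [← hw2, hw1]
  rw [hwm] at hL2 he2
  exact (hUNI w (w m) a p m p' m' hl1 hl2 (by omega) (by omega) hP1 hP2 hL1 hL2
    rfl hwm he1 he2).2

theorem rel_uniq (hUNI : SpecUNI) (hHF : SpecHF2) (hD : SpecD2) {w : ℕ → Bool} {m m' v : ℕ}
    (h1 : Rel w m v) (h2 : Rel w m' v) : m = m' := by
  rcases h1 with ⟨p, h1⟩ | ⟨x, h1, e1⟩
  · rcases h2 with ⟨p', h2⟩ | ⟨x', h2, e2⟩
    · exact hit_uniq hUNI hHF h1 h2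
    · exfalso
      rw [e2] at h1
      exact (hD.2 w x' m' h2).1.2 m p h1
  · rcases h2 with ⟨p', h2⟩ | ⟨x', h2, e2⟩
    · exfalso
      rw [e1] at h2
      exact (hD.2 w x m h1).1.2 m' p' h2
    · have e3 : x' = x := by omega
      rw [e3] at h2
      exact bad_uniq h1 h2

/-- a block start which is not hit and not two steps after a long Thue-Morse prefix -/
def VV (w : ℕ → Bool) (a : ℕ) : Prop :=
  (St w a ∧ ∀ m p, ¬ Hit2 w m a p) ∧ ¬ ∃ m, 2 ≤ a ∧ BadAt w (a - 2) m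

theorem exists_VV (hD : SpecD2) {w : ℕ → Bool} (hw : PowFree 3 w) (M : ℕ) :
    ∃ a, M ≤ a ∧ VV w a := by
  obtain ⟨a, ha, h1, h2⟩ := hD.1 w hw M
  by_cases hV : ∃ m, 2 ≤ a ∧ BadAt w (a - 2) m
  · obtain ⟨m, h3, h4⟩ := hV
    obtain ⟨_, h6, _, h8⟩ := hD.2 w (a - 2) m h4
    refine ⟨a - 2 + 4, by omega, h6, ?_⟩
    rintro ⟨m', _, h9⟩
    rw [show a - 2 + 4 - 2 = a - 2 + 2 by omega] at h9
    obtain ⟨_, _, h10, _⟩ := hD.2 w (a - 2 + 2) m' h9
    exact h8 h10
  · exact ⟨a, ha, ⟨h1, h2⟩, hV⟩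

theorem rel_T (hHF : SpecHF2) (hD : SpecD2) {w : ℕ → Bool} {m v : ℕ} (h : Rel w m v) :
    1 ≤ v ∧ v < m ∧ St w v ∧ ¬ VV w v := by
  rcases h with ⟨p, h1⟩ | ⟨x, h1, e1⟩
  · obtain ⟨e1, e2, _, e4, _, _⟩ := hHF w m v p h1
    exact ⟨e1, e2, ⟨e1, e4⟩, fun hV => hV.1.2 m p h1⟩
  · rw [e1]
    have h2 := h1.1
    refine ⟨by omega, by omega, (hD.2 w x m h1).1.1, fun hV => hV.2 ⟨m, by omega, ?_⟩⟩
    rw [Nat.add_sub_cancel]
    exact h1

end CN2aux

open CN2aux in
theorem specCN2 (hUNI : SpecUNI) (hHF : SpecHF2) (hD2 : SpecD2) : SpecCN2 := by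
  intro α w hα hα3 hw n hn hhit
  classical
  have hw3 : PowFree 3 w := by
    intro p i L hp hP
    have h1 := hw p i L hp hP
    have h2 : α * p ≤ 3 * p := mul_le_mul_of_nonneg_right hα3 (Nat.cast_nonneg p)
    linarith
  have hinf : {a | VV w a}.Infinite := by
    refine Set.infinite_of_forall_exists_gt fun M => ?_
    obtain ⟨a, ha, h1⟩ := exists_VV hD2 hw3 (M + 1)
    exact ⟨a, h1, by omega⟩
  obtain ⟨t, ht, htc⟩ := hinf.exists_subset_card_eq (n + 1)
  let N : ℕ := t.sup id + 1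
  have htN : ∀ a ∈ t, a < N := fun a ha => Nat.lt_succ_of_le (Finset.le_sup (f := id) ha)
  let S : Finset ℕ := (Finset.Ico n N).filter fun m => Ok α w m
  let T : Finset ℕ := (Finset.Ico 1 N).filter fun a => St w a ∧ ¬ VV w a
  let E : Finset ℕ := (Finset.Ico 1 N).filter fun a => St w a
  let D : Finset ℕ := (Finset.Ico (n + 1) N).filter fun a => St w a
  have hST : S.card ≤ T.card := by
    have hc : ∀ m : ℕ, ∃ v, m ∈ S → Rel w m v := by
      intro m
      by_cases hm : m ∈ S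
      · have hm' := hm
        rw [Finset.mem_filter, Finset.mem_Ico] at hm'
        rcases hhit m hm'.1.1 hm'.2 with ⟨a, p, h⟩ | ⟨x, h⟩
        · exact ⟨a, fun _ => Or.inl ⟨p, h⟩⟩
        · exact ⟨x + 2, fun _ => Or.inr ⟨x, h, rfl⟩⟩
      · exact ⟨0, fun h => absurd h hm⟩
    choose f hf using hc
    refine Finset.card_le_card_of_injOn f ?_ ?_
    · intro m hm
      have hm' := Finset.mem_coe.1 hm
      obtain ⟨e1, e2, e3, e4⟩ := rel_T hHF hD2 (hf m hm')
      rw [Finset.mem_filter, Finset.mem_Ico] at hm'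
      refine Finset.mem_coe.2 ?_
      rw [Finset.mem_filter, Finset.mem_Ico]
      exact ⟨⟨e1, by omega⟩, e3, e4⟩
    · intro m hm m' hm' heq
      have h1 := hf m (Finset.mem_coe.1 hm)
      have h2 := hf m' (Finset.mem_coe.1 hm')
      rw [← heq] at h2
      exact rel_uniq hUNI hHF hD2 h1 h2
  have hDS : D.card ≤ S.card := by
    refine Finset.card_le_card_of_injOn (phi w) ?_ ?_
    · intro m hm
      have hm' := Finset.mem_coe.1 hm
      rw [Finset.mem_filter, Finset.mem_Ico] at hm'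
      obtain ⟨e1, e2, e3⟩ := phi_ok (by linarith : (2 : ℝ) < α) w n m (by omega) hm'.1.1
      refine Finset.mem_coe.2 ?_
      rw [Finset.mem_filter, Finset.mem_Ico]
      exact ⟨⟨e1, by omega⟩, e3⟩
    · intro m hm m' hm' h
      have h1 := Finset.mem_coe.1 hm
      have h2 := Finset.mem_coe.1 hm'
      rw [Finset.mem_filter, Finset.mem_Ico] at h1 h2
      exact phi_inj w m m' (by omega) (by omega) h1.2.2 h2.2.2 h
  have hTE : T.card + t.card ≤ E.card := by
    have hd : Disjoint T t := by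
      rw [Finset.disjoint_left]
      intro a haT hat
      rw [Finset.mem_filter] at haT
      exact haT.2.2 (ht hat)
    rw [← Finset.card_union_of_disjoint hd]
    refine Finset.card_le_card ?_
    intro a ha
    rw [Finset.mem_union] at ha
    rw [Finset.mem_filter]
    rcases ha with ha | ha
    · rw [Finset.mem_filter] at ha
      exact ⟨ha.1, ha.2.1⟩
    · have hU : VV w a := ht ha
      exact ⟨Finset.mem_Ico.2 ⟨hU.1.1.1, htN a ha⟩, hU.1.1⟩
  have hED : E.card ≤ D.card + n := by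
    have h1 : E ⊆ D ∪ Finset.Ico 1 (n + 1) := by
      intro a ha
      rw [Finset.mem_filter, Finset.mem_Ico] at ha
      rw [Finset.mem_union, Finset.mem_filter, Finset.mem_Ico, Finset.mem_Ico]
      by_cases h : n + 1 ≤ a
      · exact Or.inl ⟨⟨h, ha.1.2⟩, ha.2⟩
      · exact Or.inr ⟨ha.1.1, by omega⟩
    have h2 := (Finset.card_le_card h1).trans (Finset.card_union_le _ _)
    rw [Nat.card_Ico] at h2
    omega
  omega

end Pool.Agent.Lib.MPc41b7c.PF
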