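import Pool.Agent.Lib.MP_c41b7c_co.PF.SpecD
import Pool.Agent.Lib.MP_c41b7c_co.PF.CN2

/-!
# CDC (MP_c41b7c_co): counting the free positions for `8/3 < α ≤ 3`
-/

set_option autoImplicit false

namespace Pool.Agent.Lib.MPc41b7c.PF

open Classical in
open CN2aux in
theorem specCDC (hUNI : SpecUNI) (hHF : SpecHF2) (hD2 : SpecD2) (hB2 : SpecB2) (hEX : SpecEX1) :
    SpecCDC := by
  intro α w hα hα3 hw n N hn
  have hVV : ∀ a, VV w a ↔ Va w a := fun a => Iff.rfl
  let S : Finset ℕ := (Finset.Ico n N).filter fun m => Ok α w m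
  let S' : Finset ℕ := (Finset.Ico n N).filter fun m => ∃ v, Rel w m v
  let X : Finset ℕ := (Finset.Ico n N).filter fun m => Exc w m
  let T : Finset ℕ := (Finset.Ico 1 N).filter fun a => St w a ∧ ¬ Va w a
  let V : Finset ℕ := (Finset.Ico 1 N).filter fun a => Va w a
  let E : Finset ℕ := (Finset.Ico 1 N).filter fun a => St w a
  let D : Finset ℕ := (Finset.Ico (n + 1) N).filter fun a => St w a
  have hSS : S.card ≤ (Fc α w n N).card + S'.card + X.card := by
    have h1 : S ⊆ Fc α w n N ∪ S' ∪ X := by
      intro m hm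
      rw [Finset.mem_filter] at hm
      rw [Finset.mem_union, Finset.mem_union]
      by_cases hf : PowFree α (ext w m)
      · left
        left
        unfold Fc
        rw [Finset.mem_filter]
        exact ⟨hm.1, hf⟩
      · have hmn := Finset.mem_Ico.1 hm.1
        rcases hB2 α w m hα hα3 hw (by omega) hm.2 hf with ⟨a, p, h⟩ | ⟨x, h⟩ | h
        · left
          right
          rw [Finset.mem_filter]
          exact ⟨hm.1, a, Or.inl ⟨p, h⟩⟩
        · left
          right
          rw [Finset.mem_filter]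
          exact ⟨hm.1, x + 2, Or.inr ⟨x, h, rfl⟩⟩
        · right
          rw [Finset.mem_filter]
          exact ⟨hm.1, h⟩
    calc S.card ≤ (Fc α w n N ∪ S' ∪ X).card := Finset.card_le_card h1
      _ ≤ (Fc α w n N ∪ S').card + X.card := Finset.card_union_le _ _
      _ ≤ (Fc α w n N).card + S'.card + X.card := by
        have := Finset.card_union_le (Fc α w n N) S'
        omega
  have hX : X.card ≤ 1 := by
    rw [Finset.card_le_one]
    intro a ha b hb
    rw [Finset.mem_filter] at ha hb
    exact hEX w a b ha.2 hb.2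
  have hST : S'.card ≤ T.card := by
    have hc : ∀ m : ℕ, ∃ v, m ∈ S' → Rel w m v := by
      intro m
      by_cases hm : m ∈ S'
      · have hm' := hm
        rw [Finset.mem_filter] at hm'
        obtain ⟨v, hv⟩ := hm'.2
        exact ⟨v, fun _ => hv⟩
      · exact ⟨0, fun h => absurd h hm⟩
    choose f hf using hc
    refine Finset.card_le_card_of_injOn f ?_ ?_
    · intro m hm
      have hm' := Finset.mem_coe.1 hm
      obtain ⟨e1, e2, e3, e4⟩ := rel_T hHF hD2 (hf m hm')
      rw [Finset.mem_filter, Finset.mem_Ico] at hm'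
      refine Finset.mem_coe.2 ?_
      rw [Finset.mem_filter, Finset.mem_Ico]
      exact ⟨⟨e1, by omega⟩, e3, e4⟩
    · intro m hm m' hm' heq
      have h1 := hf m (Finset.mem_coe.1 hm)
      have h2 := hf m' (Finset.mem_coe.1 hm')
      rw [← heq] at h2
      exact rel_uniq hUNI hHF hD2 h1 h2
  have hDS : D.card ≤ S.card := by
    refine Finset.card_le_card_of_injOn (phi w) ?_ ?_
    · intro m hm
      have hm' := Finset.mem_coe.1 hm
      rw [Finset.mem_filter, Finset.mem_Ico] at hm'
      obtain ⟨e1, e2, e3⟩ := phi_ok (by linarith : (2 : ℝ) < α) w n m (by omega) hm'.1.1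
      refine Finset.mem_coe.2 ?_
      rw [Finset.mem_filter, Finset.mem_Ico]
      exact ⟨⟨e1, by omega⟩, e3⟩
    · intro m hm m' hm' h
      have h1 := Finset.mem_coe.1 hm
      have h2 := Finset.mem_coe.1 hm'
      rw [Finset.mem_filter, Finset.mem_Ico] at h1 h2
      exact phi_inj w m m' (by omega) (by omega) h1.2.2 h2.2.2 h
  have hTE : T.card + V.card ≤ E.card := by
    have hd : Disjoint T V := by
      rw [Finset.disjoint_left]
      intro a haT hat
      rw [Finset.mem_filter] at haT hat
      exact haT.2.2 hat.2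
    rw [← Finset.card_union_of_disjoint hd]
    refine Finset.card_le_card ?_
    intro a ha
    rw [Finset.mem_union, Finset.mem_filter, Finset.mem_filter] at ha
    rw [Finset.mem_filter]
    rcases ha with ha | ha
    · exact ⟨ha.1, ha.2.1⟩
    · exact ⟨ha.1, ha.2.1.1⟩
  have hED : E.card ≤ D.card + n := by
    have h1 : E ⊆ D ∪ Finset.Ico 1 (n + 1) := by
      intro a ha
      rw [Finset.mem_filter, Finset.mem_Ico] at ha
      rw [Finset.mem_union, Finset.mem_filter, Finset.mem_Ico, Finset.mem_Ico]
      by_cases h : n + 1 ≤ a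
      · exact Or.inl ⟨⟨h, ha.1.2⟩, ha.2⟩
      · exact Or.inr ⟨ha.1.1, by omega⟩
    have h2 := (Finset.card_le_card h1).trans (Finset.card_union_le _ _)
    rw [Nat.card_Ico] at h2
    omega
  show V.card ≤ (Fc α w n N).card + 2 * n + 2
  omega

end Pool.Agent.Lib.MPc41b7c.PF
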