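import Pool.Agent.Lib.MP_c41b7c_co.PF.Spec

/-!
# DFS (MP_c41b7c_co): in a cube free word infinitely many block starts are not hit

Every cube free word of length `40` contains one of `32` explicit factors in which a block start is not
hit; this is checked by a search tree (kernel evaluation).
-/

set_option autoImplicit false

namespace Pool.Agent.Lib.MPc41b7c.PF

namespace DFSaux

/-- The window `w[s..s+L)`, last letter first. -/
def win (w : ℕ → Bool) (s : ℕ) : ℕ → List Bool
  | 0 => []
  | L + 1 => w (s + L) :: win w s L

lemma win_length (w : ℕ → Bool) (s L : ℕ) : (win w s L).length = L := by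
  induction L with
  | zero => rfl
  | succ L ih => simp [win, ih]

lemma win_get (w : ℕ → Bool) (s L k : ℕ) (h : k < L) :
    (win w s L).getD k false = w (s + (L - 1 - k)) := by
  induction L generalizing k with
  | zero => omega
  | succ L ih =>
    cases k with
    | zero => simp [win]
    | succ k =>
      have h1 : k < L := by omega
      have := ih k h1
      rw [win, List.getD_cons_succ, this]
      congr 2
      omega

/-- The small values of the Thue-Morse word. -/
def tt (k : ℕ) : Bool := [false, true, true, false, true, false, false].getD k false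

lemma tm_tt (k : ℕ) (h : k ≤ 6) : tm k = tt k := by
  interval_cases k
  · rw [tm_zero]; rfl
  · rw [tm_1]; rfl
  · rw [tm_2]; rfl
  · rw [tm_3]; rfl
  · rw [tm_4]; rfl
  · rw [tm_5]; rfl
  · rw [tm_6]; rfl

/-- The letters of a pattern. -/
def pf (P : List Bool) (k : ℕ) : Bool := P.getD k false

/-- The conditions which make the start `a` of the pattern `P` a block start without a hit: the repetition
with the Lyndon root `P[a..a+p)` is `P[1..m)`, `m = P.length - 1`, and its agreement with the continuation is
`c`. -/
def Chk (P : List Bool) (a p c : ℕ) : Prop :=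
  1 ≤ a ∧ pf P (a - 1) ≠ pf P a ∧ 2 ≤ p ∧ a + p ≤ P.length - 1 ∧ c < p ∧ c ≤ 4 ∧
    P.length - 2 + c < 3 * p ∧ 1 ≤ P.length ∧ pf P 0 ≠ pf P p ∧ pf P (P.length - 1) = pf P a ∧
    pf P (P.length - 1 - p) = !(pf P (P.length - 1)) ∧
    (∀ k < P.length, 1 ≤ k → k + p < P.length - 1 → pf P k = pf P (k + p)) ∧
    (∀ j < p, 0 < j → ∃ k < p, j + k < p ∧ (∀ l < k, pf P (a + l) = pf P (a + j + l)) ∧
      pf P (a + k) = pf P (P.length - 1) ∧ pf P (a + j + k) = !(pf P (P.length - 1))) ∧
    pf P (P.length - 1 + c - p) ≠ xor (pf P (P.length - 1))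
      (tt ((if pf P (P.length - 1 - 1) = pf P (P.length - 1) then 1 else 2) + c))

instance (P : List Bool) (a p c : ℕ) : Decidable (Chk P a p c) := by
  unfold Chk
  infer_instance

/-- The patterns. -/
def pats : List (List Bool × ℕ × ℕ × ℕ) := [
  ([false, false, true, false, true, true], 2, 2, 1),
  ([true, true, false, true, false, false], 2, 2, 1),
  ([false, true, false, false, true, true, false, false, true, false], 2, 4, 2),
  ([true, false, true, true, false, false, true, true, false, true], 2, 4, 2),
  ([false, false, true, true, false, true, false, true, true, false, false], 4, 5, 1),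
  ([true, true, false, false, true, false, true, false, false, true, true], 4, 5, 1),
  ([false, false, true, false, false, true, false, true, false, false, true, true], 5, 5, 1),
  ([false, false, true, true, false, true, false, true, true, false, true, true], 2, 5, 1),
  ([true, true, false, false, true, false, true, false, false, true, false, false], 2, 5, 1),
  ([true, true, false, true, true, false, true, false, true, true, false, false], 5, 5, 1),
  ([false, false, true, false, false, true, false, true, false, false, true, false, false], 3, 5, 1),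
  ([false, true, false, false, true, true, false, true, true, false, false, true, false], 2, 7, 3),
  ([true, false, true, true, false, false, true, false, false, true, true, false, true], 2, 7, 3),
  ([true, true, false, true, true, false, true, false, true, true, false, true, true], 3, 5, 1),
  ([false, false, true, true, false, false, true, true, false, true, true, false, false, true, false], 4, 7, 3),
  ([false, true, false, false, true, true, false, true, true, false, false, true, true, false, false], 2, 7, 3),
  ([false, true, false, true, true, false, true, false, true, true, false, true, true, false, false], 5, 8, 1),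
  ([true, false, true, false, false, true, false, true, false, false, true, false, false, true, true], 5, 8, 1),
  ([true, false, true, true, false, false, true, false, false, true, true, false, false, true, true], 2, 7, 3),
  ([true, true, false, false, true, true, false, false, true, false, false, true, true, false, true], 4, 7, 3),
  ([false, false, true, true, false, false, true, true, false, true, true, false, false, true, true, false, false], 4, 7, 3),
  ([false, true, false, false, true, true, false, false, true, true, false, true, true, false, false, true, false], 2, 11, 2),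
  ([true, false, true, true, false, false, true, true, false, false, true, false, false, true, true, false, true], 2, 11, 2),
  ([true, true, false, false, true, true, false, false, true, false, false, true, true, false, false, true, true], 4, 7, 3),
  ([false, true, false, false, true, true, false, true, false, true, true, false, true, false, true, true, false, false, true, false], 2, 14, 4),
  ([true, false, true, true, false, false, true, false, true, false, false, true, false, true, false, false, true, true, false, true], 2, 14, 4),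
  ([false, false, true, true, false, false, true, true, false, true, false, true, true, false, true, false, true, true, false, false, true, false], 4, 14, 4),
  ([false, true, false, false, true, true, false, true, false, true, true, false, true, false, true, true, false, false, true, true, false, false], 2, 14, 1),
  ([true, false, true, true, false, false, true, false, true, false, false, true, false, true, false, false, true, true, false, false, true, true], 2, 14, 1),
  ([true, true, false, false, true, true, false, false, true, false, true, false, false, true, false, true, false, false, true, true, false, true], 4, 14, 4),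
  ([false, false, true, true, false, false, true, true, false, true, false, true, true, false, true, false, true, true, false, false, true, true, false, false], 4, 14, 1),
  ([true, true, false, false, true, true, false, false, true, false, true, false, false, true, false, true, false, false, true, true, false, false, true, true], 4, 14, 1)]

lemma pats_ok : ∀ x ∈ pats, Chk x.1 x.2.1 x.2.2.1 x.2.2.2 := by decide +kernel

/-- A block start in a pattern is not hit. -/
lemma unhit (hUNI : SpecUNI) (hHF : SpecHF) (P : List Bool) (a p c : ℕ) (h : Chk P a p c)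
    (w : ℕ → Bool) (s : ℕ) (hw : ∀ k < P.length, w (s + k) = pf P k) :
    St w (s + a) ∧ ∀ m' p', ¬ Hit w m' (s + a) p' := by
  obtain ⟨h1, h2, h3, h4, h5, h6, h7, h8, h9, h10, h11, h12, h13, h14⟩ := h
  obtain ⟨m, hm⟩ : ∃ m, m = P.length - 1 := ⟨_, rfl⟩
  rw [← hm] at h4 h10 h11 h12 h13 h14
  have hmL : m < P.length := by omega
  constructor
  · refine ⟨by omega, ?_⟩
    have e1 : s + a - 1 = s + (a - 1) := by omega
    rw [e1, hw _ (by omega), hw _ (by omega)]
    exact h2
  · intro m' p' hH
    obtain ⟨f1, f2, f3, f4, f5, f6⟩ := hHF w m' (s + a) p' hH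
    obtain ⟨g1, g2, g3, i, c', g4, g5, g6, g7⟩ := hH
    have ewm : w (s + m) = pf P m := hw m hmL
    have ewa : w (s + a) = pf P a := hw a (by omega)
    have hU := hUNI w (w m') (s + a) p (s + m) p' m' (by omega) g2 (by omega) (by omega)
      (by
        intro k hk1 hk2
        obtain ⟨t, rfl⟩ : ∃ t, k = s + t := ⟨k - s, by omega⟩
        have e2 : s + t + p = s + (t + p) := by omega
        rw [e2, hw t (by omega), hw (t + p) (by omega)]
        exact h12 t (by omega) (by omega) (by omega)) f5
      (by
        intro j hj1 hj2
        obtain ⟨k, k1, k2, k3, k4, k5⟩ := h13 j hj2 hj1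
        refine ⟨k, k2, ?_, ?_, ?_⟩
        · intro l hl
          have e3 : s + a + l = s + (a + l) := by omega
          have e4 : s + a + j + l = s + (a + j + l) := by omega
          rw [e3, e4, hw _ (by omega), hw _ (by omega)]
          exact k3 l hl
        · have e3 : s + a + k = s + (a + k) := by omega
          rw [e3, hw _ (by omega), k4, ← f3, ewa, h10]
        · have e3 : s + a + j + k = s + (a + j + k) := by omega
          rw [e3, hw _ (by omega), k5, ← f3, ewa, h10]) g3
      (by rw [ewm, h10, ← ewa, f3]) rfl
      (by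
        have e5 : s + m - p = s + (m - p) := by omega
        rw [e5, hw _ (by omega), h11, h10, ← ewa, f3]) f6
    obtain ⟨u1, u2⟩ := hU
    subst u1
    subst u2
    have hi : s + 1 ≤ i := by
      by_contra hcon
      have q := g6 s (by omega) (by omega)
      unfold ext at q
      rw [if_pos (by omega), if_pos (by omega)] at q
      apply h9
      have q0 := hw 0 (by omega)
      rw [Nat.add_zero] at q0
      rw [← q0, ← hw p (by omega)]
      exact q
    have hc : c' ≤ c := by
      by_contra hcon
      have q := g6 (s + m + c - p) (by omega) (by omega)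
      have e6 : s + m + c - p + p = s + m + c := by omega
      rw [e6] at q
      unfold ext at q
      rw [if_pos (by omega), if_neg (by omega)] at q
      have e7 : s + m + c - p = s + (m + c - p) := by omega
      have e8 : s + m + c - (s + m) = c := by omega
      rw [e7, e8, hw _ (by omega), ewm] at q
      apply h14
      rw [q]
      congr 1
      have e9 : s + m - 1 = s + (m - 1) := by omega
      unfold sg
      rw [e9, hw (m - 1) (by omega), ewm]
      apply tm_tt
      split_ifs <;> omega
    omega

/-- A trie of reversed patterns. -/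
inductive Tr where
  | ok : Tr
  | bad : Tr
  | node : Tr → Tr → Tr

/-- Some pattern of the trie is a prefix of the list. -/
noncomputable def Tr.walk (t : Tr) : List Bool → Bool :=
  Tr.rec (fun _ => false) (fun _ => true)
    (fun _ _ f g r => List.casesOn r false fun b r' => Bool.casesOn b (f r') (g r')) t

/-- The patterns of the trie. -/
def Tr.words : Tr → List (List Bool)
  | .ok => []
  | .bad => [[]]
  | .node s t => (s.words.map (false :: ·)) ++ (t.words.map (true :: ·))

lemma Tr.walk_sound (t : Tr) : ∀ r : List Bool, t.walk r = true → ∃ l ∈ t.words, l <+: r := by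
  induction t with
  | ok => intro r h; exact absurd h (by simp [Tr.walk])
  | bad => intro r _; exact ⟨[], by simp [Tr.words], List.nil_prefix⟩
  | node s t ihs iht =>
    intro r h
    cases r with
    | nil => exact absurd h (by simp [Tr.walk])
    | cons b r' =>
      cases b with
      | false =>
        obtain ⟨l, h1, h2⟩ := ihs r' h
        refine ⟨false :: l, ?_, (List.prefix_cons_inj false).2 h2⟩
        simp only [Tr.words, List.mem_append, List.mem_map]
        exact Or.inl ⟨l, h1, rfl⟩
      | true =>
        obtain ⟨l, h1, h2⟩ := iht r' h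
        refine ⟨true :: l, ?_, (List.prefix_cons_inj true).2 h2⟩
        simp only [Tr.words, List.mem_append, List.mem_map]
        exact Or.inr ⟨l, h1, rfl⟩

/-- The trie of the reversed patterns. -/
def trie : Tr :=
  Tr.node (Tr.node (Tr.node Tr.ok (Tr.node (Tr.node (Tr.node Tr.ok (Tr.node (Tr.node Tr.ok
  (Tr.node (Tr.node (Tr.node Tr.ok (Tr.node (Tr.node Tr.bad Tr.ok) Tr.bad)) Tr.ok) Tr.ok))
  Tr.ok)) (Tr.node Tr.ok Tr.bad)) (Tr.node (Tr.node (Tr.node Tr.ok (Tr.node Tr.ok (Tr.node
  (Tr.node Tr.ok (Tr.node (Tr.node Tr.ok (Tr.node Tr.ok (Tr.node (Tr.node Tr.ok (Tr.node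
  (Tr.node Tr.ok (Tr.node Tr.ok (Tr.node (Tr.node (Tr.node Tr.ok (Tr.node Tr.bad (Tr.node
  (Tr.node Tr.bad Tr.ok) Tr.ok))) Tr.ok) Tr.ok))) Tr.ok)) Tr.ok))) (Tr.node (Tr.node (Tr.node
  Tr.ok (Tr.node Tr.bad (Tr.node (Tr.node Tr.bad Tr.ok) Tr.ok))) Tr.ok) Tr.ok))) Tr.ok)))
  (Tr.node (Tr.node Tr.ok (Tr.node Tr.ok (Tr.node (Tr.node Tr.bad (Tr.node Tr.ok Tr.bad))
  Tr.ok))) (Tr.node (Tr.node Tr.ok (Tr.node (Tr.node Tr.ok (Tr.node Tr.ok (Tr.node (Tr.node
  Tr.ok (Tr.node Tr.bad Tr.ok)) Tr.ok))) Tr.ok)) Tr.ok))) Tr.ok))) (Tr.node (Tr.node (Tr.node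
  Tr.ok (Tr.node Tr.ok (Tr.node (Tr.node (Tr.node Tr.ok (Tr.node Tr.bad Tr.ok)) (Tr.node
  (Tr.node Tr.ok (Tr.node Tr.ok (Tr.node (Tr.node Tr.ok (Tr.node (Tr.node Tr.ok (Tr.node Tr.ok
  (Tr.node (Tr.node (Tr.node Tr.ok (Tr.node Tr.bad (Tr.node (Tr.node Tr.bad Tr.ok) Tr.ok)))
  Tr.ok) Tr.ok))) Tr.ok)) Tr.ok))) (Tr.node (Tr.node (Tr.node Tr.ok (Tr.node Tr.bad (Tr.node
  (Tr.node Tr.bad Tr.ok) Tr.ok))) Tr.ok) Tr.ok))) Tr.ok))) Tr.ok) Tr.ok)) (Tr.node (Tr.node
  Tr.ok (Tr.node Tr.ok (Tr.node (Tr.node (Tr.node Tr.ok (Tr.node (Tr.node (Tr.node Tr.ok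
  (Tr.node Tr.ok (Tr.node (Tr.node (Tr.node Tr.ok (Tr.node Tr.ok Tr.bad)) Tr.bad) Tr.ok)))
  (Tr.node (Tr.node (Tr.node Tr.ok (Tr.node (Tr.node Tr.ok (Tr.node (Tr.node (Tr.node Tr.ok
  (Tr.node Tr.ok (Tr.node (Tr.node (Tr.node Tr.ok (Tr.node Tr.ok Tr.bad)) Tr.bad) Tr.ok)))
  Tr.ok) Tr.ok)) Tr.ok)) Tr.ok) Tr.ok)) (Tr.node (Tr.node Tr.ok Tr.bad) Tr.ok))) Tr.ok)
  Tr.ok))) (Tr.node (Tr.node (Tr.node Tr.ok (Tr.node (Tr.node (Tr.node Tr.ok (Tr.node (Tr.node
  Tr.ok (Tr.node (Tr.node (Tr.node Tr.ok (Tr.node (Tr.node Tr.ok Tr.bad) Tr.ok)) Tr.ok) Tr.ok))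
  Tr.ok)) (Tr.node (Tr.node (Tr.node Tr.ok (Tr.node (Tr.node Tr.bad Tr.ok) Tr.bad)) Tr.ok)
  Tr.ok)) (Tr.node (Tr.node (Tr.node Tr.ok (Tr.node (Tr.node (Tr.node Tr.ok (Tr.node Tr.ok
  (Tr.node (Tr.node (Tr.node Tr.ok (Tr.node Tr.ok Tr.bad)) Tr.bad) Tr.ok))) (Tr.node (Tr.node
  (Tr.node Tr.ok (Tr.node (Tr.node Tr.ok (Tr.node (Tr.node (Tr.node Tr.ok (Tr.node Tr.ok
  (Tr.node (Tr.node (Tr.node Tr.ok (Tr.node Tr.ok Tr.bad)) Tr.bad) Tr.ok))) Tr.ok) Tr.ok))
  Tr.ok)) Tr.ok) Tr.ok)) Tr.ok)) Tr.ok) Tr.ok))) (Tr.node (Tr.node Tr.bad Tr.ok) (Tr.node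
  (Tr.node Tr.ok (Tr.node (Tr.node Tr.ok (Tr.node Tr.ok (Tr.node (Tr.node Tr.bad (Tr.node Tr.ok
  Tr.bad)) Tr.ok))) Tr.ok)) Tr.ok))) Tr.ok))

lemma trie_ok : ∀ l ∈ trie.words, l ∈ pats.map (fun x => x.1.reverse) := by decide +kernel

/-- The first `n` letters of the two lists exist and agree. -/
def cmp (n : ℕ) : List Bool → List Bool → Bool :=
  Nat.rec (fun _ _ => true) (fun _ f r r' => List.casesOn r false fun b r1 =>
    List.casesOn r' false fun b' r1' => Bool.casesOn b
      (Bool.casesOn b' (f r1 r1') false) (Bool.casesOn b' false (f r1 r1'))) n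

lemma cmp_sound (n : ℕ) : ∀ r r' : List Bool, cmp n r r' = true →
    n ≤ r'.length ∧ ∀ k < n, r.getD k false = r'.getD k false := by
  induction n with
  | zero => intro r r' _; exact ⟨Nat.zero_le _, fun k hk => absurd hk (Nat.not_lt_zero k)⟩
  | succ n ih =>
    intro r r' h
    cases r with
    | nil => exact absurd h (by simp [cmp])
    | cons b r1 =>
      cases r' with
      | nil => exact absurd h (by simp [cmp])
      | cons b' r1' =>
        have key : b = b' ∧ cmp n r1 r1' = true := by
          cases b <;> cases b'
          · exact ⟨rfl, h⟩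
          · exact absurd h (by simp [cmp])
          · exact absurd h (by simp [cmp])
          · exact ⟨rfl, h⟩
        obtain ⟨h1, h2⟩ := ih r1 r1' key.2
        refine ⟨by simp only [List.length_cons]; omega, ?_⟩
        intro k hk
        cases k with
        | zero => simp [key.1]
        | succ k => simpa using h2 k (by omega)

/-- A cube with a period at most `5`, or a pattern at the end. -/
noncomputable def bad (r : List Bool) : Bool :=
  trie.walk r || cmp 2 r (r.drop 1) || cmp 4 r (r.drop 2) || cmp 6 r (r.drop 3) ||
    cmp 8 r (r.drop 4) || cmp 10 r (r.drop 5)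

/-- The search tree. -/
noncomputable def dfs (f : ℕ) : List Bool → Bool :=
  Nat.rec (fun r => bad r) (fun _ g r => bad r || (g (false :: r) && g (true :: r))) f

lemma dfs_sound (w : ℕ → Bool) (s : ℕ) : ∀ f L : ℕ, dfs f (win w s L) = true →
    ∃ L', bad (win w s L') = true := by
  intro f
  induction f with
  | zero => intro L h; exact ⟨L, h⟩
  | succ f ih =>
    intro L h
    have h : (bad (win w s L) || (dfs f (false :: win w s L) && dfs f (true :: win w s L))) = true :=
      h
    rw [Bool.or_eq_true, Bool.and_eq_true] at h
    rcases h with h | ⟨h1, h2⟩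
    · exact ⟨L, h⟩
    · apply ih (L + 1)
      rw [win]
      cases w (s + L)
      · exact h1
      · exact h2

lemma prefix_getD {l r : List Bool} (h : l <+: r) {k : ℕ} (hk : k < l.length) :
    r.getD k false = l.getD k false := by
  obtain ⟨t, rfl⟩ := h
  rw [List.getD_append _ _ _ _ hk]

lemma cube_false (w : ℕ → Bool) (s L p : ℕ) (hw : PowFree 3 w) (hp : 1 ≤ p)
    (h : cmp (2 * p) (win w s L) ((win w s L).drop p) = true) : False := by
  obtain ⟨h1, h2⟩ := cmp_sound _ _ _ h
  rw [List.length_drop, win_length] at h1
  have hper : Per w p (s + (L - 3 * p)) (s + (L - 3 * p) + 3 * p) := by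
    intro x hx1 hx2
    have e := h2 (s + L - 1 - (x + p)) (by omega)
    rw [List.getD_eq_getElem?_getD, List.getD_eq_getElem?_getD, List.getElem?_drop,
      ← List.getD_eq_getElem?_getD, ← List.getD_eq_getElem?_getD,
      win_get w s L _ (by omega), win_get w s L _ (by omega)] at e
    have e1 : s + (L - 1 - (p + (s + L - 1 - (x + p)))) = x := by omega
    have e2 : s + (L - 1 - (s + L - 1 - (x + p))) = x + p := by omega
    rw [e1, e2] at e
    exact e.symm
  have := hw p _ _ hp hper
  push_cast at this
  linarith

lemma bad_sound (hUNI : SpecUNI) (hHF : SpecHF) (w : ℕ → Bool) (s L : ℕ) (hw : PowFree 3 w)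
    (h : bad (win w s L) = true) : ∃ a, s ≤ a ∧ St w a ∧ ∀ m p, ¬ Hit w m a p := by
  rw [bad, Bool.or_eq_true, Bool.or_eq_true, Bool.or_eq_true, Bool.or_eq_true,
    Bool.or_eq_true] at h
  rcases h with (((((h | h) | h) | h) | h) | h)
  · obtain ⟨l, hl, h1⟩ := Tr.walk_sound _ _ h
    have hx := trie_ok l hl
    rw [List.mem_map] at hx
    obtain ⟨x, hx, rfl⟩ := hx
    have hlen := h1.length_le
    rw [List.length_reverse, win_length] at hlen
    have hC := pats_ok x hx
    have hpos : 1 ≤ x.1.length := hC.2.2.2.2.2.2.2.1
    obtain ⟨u1, u2⟩ := unhit hUNI hHF x.1 x.2.1 x.2.2.1 x.2.2.2 hC w (s + (L - x.1.length)) (by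
      intro t ht
      have hk : x.1.length - 1 - t < x.1.reverse.length := by
        rw [List.length_reverse]; omega
      have e := prefix_getD h1 hk
      rw [win_get w s L _ (by omega)] at e
      have e1 : s + (L - x.1.length) + t = s + (L - 1 - (x.1.length - 1 - t)) := by omega
      rw [e1, e, pf]
      have hk' : x.1.length - 1 - t < x.1.length := by omega
      rw [List.getD_eq_getElem _ _ hk, List.getD_eq_getElem _ _ ht, List.getElem_reverse]
      congr 1
      omega)
    exact ⟨_, by omega, u1, u2⟩
  · exact (cube_false w s L 1 hw (by norm_num) h).elim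
  · exact (cube_false w s L 2 hw (by norm_num) h).elim
  · exact (cube_false w s L 3 hw (by norm_num) h).elim
  · exact (cube_false w s L 4 hw (by norm_num) h).elim
  · exact (cube_false w s L 5 hw (by norm_num) h).elim

lemma dfs_ok : dfs 39 [] = true := by decide +kernel

end DFSaux

open DFSaux in
theorem specDFS (hUNI : SpecUNI) (hHF : SpecHF) : SpecDFS := by
  intro w hw M
  obtain ⟨L, hL⟩ := dfs_sound w M 39 0 dfs_ok
  exact bad_sound hUNI hHF w M L hw hL

end Pool.Agent.Lib.MPc41b7c.PF
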