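import Pool.Agent.Lib.MP_c41b7c_co.PF.SpecW
import Pool.Agent.Lib.MP_c41b7c_co.PF.DFS

/-!
# D2 (MP_c41b7c_co): block starts which are not hit, exponents above `8/3`

The search tree and the patterns are those of `PF/DFS.lean`.
-/

set_option autoImplicit false

namespace Pool.Agent.Lib.MPc41b7c.PF

namespace D2aux

open DFSaux

lemma pats_ok2 : ∀ x ∈ pats, 3 * (x.1.length - 2 + x.2.2.2) ≤ 8 * x.2.2.1 := by decide +kernel

/-- A block start in a pattern is not hit. -/
lemma unhit2 (hUNI : SpecUNI) (hHF : SpecHF2) (P : List Bool) (a p c : ℕ) (h : Chk P a p c)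
    (hq : 3 * (P.length - 2 + c) ≤ 8 * p)
    (w : ℕ → Bool) (s : ℕ) (hw : ∀ k < P.length, w (s + k) = pf P k) :
    St w (s + a) ∧ ∀ m' p', ¬ Hit2 w m' (s + a) p' := by
  obtain ⟨h1, h2, h3, h4, h5, h6, h7, h8, h9, h10, h11, h12, h13, h14⟩ := h
  obtain ⟨m, hm⟩ : ∃ m, m = P.length - 1 := ⟨_, rfl⟩
  rw [← hm] at h4 h10 h11 h12 h13 h14
  have hmL : m < P.length := by omega
  constructor
  · refine ⟨by omega, ?_⟩
    have e1 : s + a - 1 = s + (a - 1) := by omega
    rw [e1, hw _ (by omega), hw _ (by omega)]
    exact h2
  · intro m' p' hH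
    obtain ⟨f1, f2, f3, f4, f5, f6⟩ := hHF w m' (s + a) p' hH
    obtain ⟨g1, g2, g3, i, c', g4, g5, g6, g7⟩ := hH
    have ewm : w (s + m) = pf P m := hw m hmL
    have ewa : w (s + a) = pf P a := hw a (by omega)
    have hU := hUNI w (w m') (s + a) p (s + m) p' m' (by omega) g2 (by omega) (by omega)
      (by
        intro k hk1 hk2
        obtain ⟨t, rfl⟩ : ∃ t, k = s + t := ⟨k - s, by omega⟩
        have e2 : s + t + p = s + (t + p) := by omega
        rw [e2, hw t (by omega), hw (t + p) (by omega)]
        exact h12 t (by omega) (by omega) (by omega)) f5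
      (by
        intro j hj1 hj2
        obtain ⟨k, k1, k2, k3, k4, k5⟩ := h13 j hj2 hj1
        refine ⟨k, k2, ?_, ?_, ?_⟩
        · intro l hl
          have e3 : s + a + l = s + (a + l) := by omega
          have e4 : s + a + j + l = s + (a + j + l) := by omega
          rw [e3, e4, hw _ (by omega), hw _ (by omega)]
          exact k3 l hl
        · have e3 : s + a + k = s + (a + k) := by omega
          rw [e3, hw _ (by omega), k4, ← f3, ewa, h10]
        · have e3 : s + a + j + k = s + (a + j + k) := by omega
          rw [e3, hw _ (by omega), k5, ← f3, ewa, h10]) g3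
      (by rw [ewm, h10, ← ewa, f3]) rfl
      (by
        have e5 : s + m - p = s + (m - p) := by omega
        rw [e5, hw _ (by omega), h11, h10, ← ewa, f3]) f6
    obtain ⟨u1, u2⟩ := hU
    subst u1
    subst u2
    have hi : s + 1 ≤ i := by
      by_contra hcon
      have q := g6 s (by omega) (by omega)
      unfold ext at q
      rw [if_pos (by omega), if_pos (by omega)] at q
      apply h9
      have q0 := hw 0 (by omega)
      rw [Nat.add_zero] at q0
      rw [← q0, ← hw p (by omega)]
      exact q
    have hc : c' ≤ c := by
      by_contra hcon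
      have q := g6 (s + m + c - p) (by omega) (by omega)
      have e6 : s + m + c - p + p = s + m + c := by omega
      rw [e6] at q
      unfold ext at q
      rw [if_pos (by omega), if_neg (by omega)] at q
      have e7 : s + m + c - p = s + (m + c - p) := by omega
      have e8 : s + m + c - (s + m) = c := by omega
      rw [e7, e8, hw _ (by omega), ewm] at q
      apply h14
      rw [q]
      congr 1
      have e9 : s + m - 1 = s + (m - 1) := by omega
      unfold sg
      rw [e9, hw (m - 1) (by omega), ewm]
      apply tm_tt
      split_ifs <;> omega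
    omega


lemma bad_sound2 (hUNI : SpecUNI) (hHF : SpecHF2) (w : ℕ → Bool) (s L : ℕ) (hw : PowFree 3 w)
    (h : bad (win w s L) = true) : ∃ a, s ≤ a ∧ St w a ∧ ∀ m p, ¬ Hit2 w m a p := by
  rw [bad, Bool.or_eq_true, Bool.or_eq_true, Bool.or_eq_true, Bool.or_eq_true,
    Bool.or_eq_true] at h
  rcases h with (((((h | h) | h) | h) | h) | h)
  · obtain ⟨l, hl, h1⟩ := Tr.walk_sound _ _ h
    have hx := trie_ok l hl
    rw [List.mem_map] at hx
    obtain ⟨x, hx, rfl⟩ := hx
    have hlen := h1.length_le
    rw [List.length_reverse, win_length] at hlen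
    have hC := pats_ok x hx
    have hpos : 1 ≤ x.1.length := hC.2.2.2.2.2.2.2.1
    obtain ⟨u1, u2⟩ := unhit2 hUNI hHF x.1 x.2.1 x.2.2.1 x.2.2.2 hC (pats_ok2 x hx) w (s + (L - x.1.length)) (by
      intro t ht
      have hk : x.1.length - 1 - t < x.1.reverse.length := by
        rw [List.length_reverse]; omega
      have e := prefix_getD h1 hk
      rw [win_get w s L _ (by omega)] at e
      have e1 : s + (L - x.1.length) + t = s + (L - 1 - (x.1.length - 1 - t)) := by omega
      rw [e1, e, pf]
      have hk' : x.1.length - 1 - t < x.1.length := by omega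
      rw [List.getD_eq_getElem _ _ hk, List.getD_eq_getElem _ _ ht, List.getElem_reverse]
      congr 1
      omega)
    exact ⟨_, by omega, u1, u2⟩
  · exact (cube_false w s L 1 hw (by norm_num) h).elim
  · exact (cube_false w s L 2 hw (by norm_num) h).elim
  · exact (cube_false w s L 3 hw (by norm_num) h).elim
  · exact (cube_false w s L 4 hw (by norm_num) h).elim
  · exact (cube_false w s L 5 hw (by norm_num) h).elim


lemma c1 : Chk [true, true, false, true, false, false] 2 2 1 := by decide

lemma c2 : Chk [false, false, true, false, true, true] 2 2 1 := by decide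

lemma c3 : Chk [false, true, false, false, true, true, false, false, true, false] 2 4 2 := by decide

lemma c4 : Chk [true, false, true, true, false, false, true, true, false, true] 2 4 2 := by decide

end D2aux

open D2aux DFSaux in
theorem specD2 (hUNI : SpecUNI) (hHF : SpecHF2) : SpecD2 := by
  refine ⟨?_, ?_⟩
  · intro w hw M
    obtain ⟨L, hL⟩ := dfs_sound w M 39 0 dfs_ok
    exact bad_sound2 hUNI hHF w M L hw hL
  · intro w x m hB
    obtain ⟨h1, h2, h3⟩ := hB
    have e0 := h2 0 (by omega)
    have e1 := h2 1 (by omega)
    have e2 := h2 2 (by omega)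
    have e3 := h2 3 (by omega)
    have e4 := h2 4 (by omega)
    have e5 := h2 5 (by omega)
    have e6 := h2 6 (by omega)
    have e7 := h2 7 (by omega)
    have e8 := h2 8 (by omega)
    have e9 := h2 9 (by omega)
    have e10 := h2 10 (by omega)
    have e11 := h2 11 (by omega)
    norm_num only at e0 e1 e2 e3 e4 e5 e6 e7 e8 e9 e10 e11
    rw [tm_1] at e0
    rw [tm_2] at e1
    rw [tm_3] at e2
    rw [tm_4] at e3
    rw [tm_5] at e4
    rw [tm_6] at e5
    rw [tm_7] at e6
    rw [tm_8] at e7
    rw [tm_9] at e8
    rw [tm_10] at e9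
    rw [tm_11] at e10
    rw [tm_12] at e11
    cases hb : w m
    · rw [hb] at e0 e1 e2 e3 e4 e5 e6 e7 e8 e9 e10 e11
      refine ⟨unhit2 hUNI hHF _ 2 2 1 c1 (by decide) w x ?_,
        unhit2 hUNI hHF _ 2 4 2 c3 (by decide) w (x + 2) ?_, ?_, ?_⟩
      · intro k hk
        have hk : k < 6 := hk
        interval_cases k
        · exact e0
        · exact e1
        · exact e2
        · exact e3
        · exact e4
        · exact e5
      · intro k hk
        have hk : k < 10 := hk
        interval_cases k
        · exact e2
        · exact e3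
        · exact e4
        · exact e5
        · exact e6
        · exact e7
        · exact e8
        · exact e9
        · exact e10
        · exact e11
      · rw [show w x = w (x + 0) from rfl, e0, e1]
      · rw [e2, e3]; decide
    · rw [hb] at e0 e1 e2 e3 e4 e5 e6 e7 e8 e9 e10 e11
      refine ⟨unhit2 hUNI hHF _ 2 2 1 c2 (by decide) w x ?_,
        unhit2 hUNI hHF _ 2 4 2 c4 (by decide) w (x + 2) ?_, ?_, ?_⟩
      · intro k hk
        have hk : k < 6 := hk
        interval_cases k
        · exact e0
        · exact e1
        · exact e2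
        · exact e3
        · exact e4
        · exact e5
      · intro k hk
        have hk : k < 10 := hk
        interval_cases k
        · exact e2
        · exact e3
        · exact e4
        · exact e5
        · exact e6
        · exact e7
        · exact e8
        · exact e9
        · exact e10
        · exact e11
      · rw [show w x = w (x + 0) from rfl, e0, e1]
      · rw [e2, e3]; decide

end Pool.Agent.Lib.MPc41b7c.PF
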