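import Pool.Agent.Lib.MP_c41b7c_co.PF.SpecD

/-!
# Module DEN: the free positions have positive lower density.
-/

set_option autoImplicit false

namespace Pool.Agent.Lib.MPc41b7c.PF

namespace DENaux

theorem mono {α β : ℝ} {w : ℕ → Bool} (h : α ≤ β) (hw : PowFree α w) : PowFree β w := by
  intro p i L hp hper
  exact lt_of_lt_of_le (hw p i L hp hper) (mul_le_mul_of_nonneg_right h (Nat.cast_nonneg p))

theorem cardEq (S : Finset ℕ) (P : ℕ → Prop) (i1 i2 : DecidablePred P) :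
    (@Finset.filter ℕ P i1 S).card = (@Finset.filter ℕ P i2 S).card := by
  have e : i1 = i2 := Subsingleton.elim _ _
  subst e
  rfl

open Classical in
theorem big (hUHW : SpecUHW) (hCDA : SpecCDA) (hCDB : SpecCDB) (hCDC : SpecCDC)
    (hVWN : SpecVWN) (hNPW : SpecNPW) (hWIN : SpecWIN) (α : ℝ) (w : ℕ → Bool)
    (hα : 8 / 3 < α) (hw : PowFree α w) (n N : ℕ) (hn : 10 ≤ n) :
    N ≤ (3 * ⌈α⌉₊ + 33) * ((Fc α w n N).card + 2 * n + 3) := by
  have hK1 : 1 ≤ 3 * ⌈α⌉₊ + 33 := by omega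
  have hc : 3 ≤ ⌈α⌉₊ := by
    have : 2 < ⌈α⌉₊ := by
      rw [Nat.lt_ceil]
      push_cast
      linarith
    omega
  rcases lt_trichotomy α 3 with h3 | h3 | h3
  · have h1 := hWIN (fun a => Va w a) (3 * ⌈α⌉₊ + 33) hK1 (by
      intro M _
      obtain ⟨a, h1, h2, h3⟩ := hVWN w (mono h3.le hw) M
      exact ⟨a, h1, by omega, h3⟩) N
    refine h1.trans (Nat.mul_le_mul_left _ ?_)
    have h2 := hCDC α w hα h3.le hw n N hn
    have h4 := cardEq (Finset.Ico 1 N) (fun a => Va w a)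
    exact (Nat.add_le_add_right ((h4 _ _).le.trans h2) 1).trans (by omega)
  · subst h3
    have h1 := hWIN (fun a => St w a ∧ ∀ m p, ¬ Hit w m a p) (3 * ⌈(3 : ℝ)⌉₊ + 33) hK1 (by
      intro M _
      obtain ⟨a, h1, h2, h3⟩ := (hUHW w hw M).1
      exact ⟨a, h1, by omega, h3⟩) N
    refine h1.trans (Nat.mul_le_mul_left _ ?_)
    have h2 := hCDB w hw n N (by omega)
    have h4 := cardEq (Finset.Ico 1 N) (fun a => St w a ∧ ∀ m p, ¬ Hit w m a p)
    exact (Nat.add_le_add_right ((h4 _ _).le.trans h2) 1).trans (by omega)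
  · have h1 := hWIN (fun m => w (m - 1) = w m ∧ w (m + 1) ≠ w m) (3 * ⌈α⌉₊ + 33) hK1 (by
      intro M hM
      obtain ⟨a, h1, h2, h3⟩ := hNPW α w hw M hM
      exact ⟨a, h1, by omega, h3⟩) N
    refine h1.trans (Nat.mul_le_mul_left _ ?_)
    have h2 := hCDA α w h3 hw n N (by omega)
    have h4 := cardEq (Finset.Ico 1 N) (fun m => w (m - 1) = w m ∧ w (m + 1) ≠ w m)
    exact (Nat.add_le_add_right ((h4 _ _).le.trans h2) 1).trans (by omega)

end DENaux

open Classical in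
theorem specDEN (hUHW : SpecUHW) (hCDA : SpecCDA) (hCDB : SpecCDB) (hCDC : SpecCDC)
    (hVWN : SpecVWN) (hNPW : SpecNPW) (hWIN : SpecWIN) : SpecDEN := by
  intro α w hα hw n N
  have h := DENaux.big hUHW hCDA hCDB hCDC hVWN hNPW hWIN α w hα hw (max n 10) N
    (le_max_right _ _)
  refine h.trans (Nat.mul_le_mul_left _ ?_)
  have hs : Fc α w (max n 10) N ⊆ Fc α w n N := by
    intro m hm
    unfold Fc at hm ⊢
    rw [Finset.mem_filter, Finset.mem_Ico] at hm ⊢
    exact ⟨⟨(le_max_left _ _).trans hm.1.1, hm.1.2⟩, hm.2⟩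
  have hc := Finset.card_le_card hs
  have hm : max n 10 ≤ n + 10 := by omega
  omega

end Pool.Agent.Lib.MPc41b7c.PF
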