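import Pool.Agent.Lib.MP_c41b7c_co.PF.SpecW

/-!
# MP_c41b7c_co, module DN2: infinitely many extensions are power-free
-/

set_option autoImplicit false

namespace Pool.Agent.Lib.MPc41b7c.PF

theorem specDN2 (hD : SpecDENSE) (hB : SpecB2) (hE : SpecEXC) (hC : SpecCN2) : SpecDN2 := by
  intro α hα w hw n
  rcases le_or_gt 3 α with h3 | h3
  · exact hD α h3 w hw n
  · by_contra hcon
    push Not at hcon
    obtain ⟨n₀, hn₀⟩ := hE w
    refine hC α w hα h3.le hw (max n (max 10 n₀)) (le_trans (le_max_left _ _) (le_max_right _ _)) ?_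
    intro m hm hok
    have m1 : n ≤ m := le_trans (le_max_left _ _) hm
    have m2 : 10 ≤ m := le_trans (le_trans (le_max_left _ _) (le_max_right _ _)) hm
    have m3 : n₀ ≤ m := le_trans (le_trans (le_max_right _ _) (le_max_right _ _)) hm
    rcases hB α w m hα h3.le hw m2 hok (hcon m m1) with h | h | h
    · exact Or.inl h
    · exact Or.inr h
    · exact absurd h (hn₀ m m3)

end Pool.Agent.Lib.MPc41b7c.PF
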