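import Pool.Agent.Lib.MP_c41b7c_co.PF.SpecW

/-!
# MP_c41b7c_co, module EXC: there is at most one exceptional position
-/

set_option autoImplicit false

namespace Pool.Agent.Lib.MPc41b7c.PF

namespace EXCaux

lemma no_two {w : ℕ → Bool} {k k' : ℕ} {b b' : Bool} (hk : 2 ≤ k) (hkk : k < k')
    (h1 : ∀ j < 2 ^ k - 1, w j = xor b (tm (1 + j))) (h2 : w (2 ^ k - 1) ≠ xor b (tm (2 ^ k)))
    (h3 : ∀ j < 2 ^ k' - 1, w j = xor b' (tm (1 + j))) : False := by
  have p1 : 2 ^ 2 ≤ 2 ^ k := Nat.pow_le_pow_right (by norm_num) hk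
  have p2 : 2 ^ k < 2 ^ k' := Nat.pow_lt_pow_right (by norm_num) hkk
  have a1 := h1 0 (by omega)
  have a2 := h3 0 (by omega)
  have hb : b = b' := by
    rw [a1] at a2
    have t1 : tm (1 + 0) = true := tm_1
    rw [t1] at a2
    simpa using a2
  apply h2
  have a3 := h3 (2 ^ k - 1) (by omega)
  have e1 : 1 + (2 ^ k - 1) = 2 ^ k := by omega
  rw [e1] at a3
  rw [a3, hb]

end EXCaux

theorem specEXC : SpecEXC := by
  intro w
  by_cases h : ∃ m, Exc w m
  · obtain ⟨m, k, hk, hm, b, h1, h2⟩ := h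
    refine ⟨m + 1, ?_⟩
    rintro m' hm' ⟨k', hk', hm'', b', h3, h4⟩
    have hkk : k < k' := by
      by_contra hle
      push Not at hle
      have : 2 ^ k' ≤ 2 ^ k := Nat.pow_le_pow_right (by norm_num) hle
      omega
    exact EXCaux.no_two hk hkk h1 h2 h3
  · exact ⟨0, fun m _ hm => h ⟨m, hm⟩⟩

end Pool.Agent.Lib.MPc41b7c.PF
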