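import Pool.Agent.Lib.MP_c41b7c_co.PF.SpecW

/-!
# Module FI2: nonempty and perfect, exponents larger than 8/3
-/

set_option autoImplicit false

namespace Pool.Agent.Lib.MPc41b7c.PF

namespace FI2aux

lemma ext_at (w : ℕ → Bool) (m : ℕ) : ext w m m = !(w m) := by
  have h : tm (sg w m + (m - m)) = true := by
    rw [Nat.sub_self, Nat.add_zero]
    unfold sg
    split
    · exact tm_1
    · exact tm_2
  unfold ext
  rw [if_neg (lt_irrefl m), h]
  cases w m <;> rfl

lemma ext_lt (w : ℕ → Bool) (m k : ℕ) (h : k < m) : ext w m k = w k := by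
  unfold ext
  rw [if_pos h]

end FI2aux

open FI2aux

theorem specFI2 (hOVL : SpecOVL) (hISO : SpecISO) (hDENSE2 : SpecDENSE2) : SpecFI2 := by
  intro α hα
  refine ⟨⟨tm, ?_⟩, hISO α ?_⟩
  · intro p i L hp hper
    by_contra hlt
    have hlt' : α * p ≤ (L : ℝ) := not_lt.1 hlt
    have hp0 : (0 : ℝ) < p := by exact_mod_cast hp
    have h3 : 8 * p < 3 * L := by
      have h4 : (8 : ℝ) * p < 3 * (L : ℝ) := by
        have h5 : 8 / 3 * (p : ℝ) < α * p := mul_lt_mul_of_pos_right hα hp0
        linarith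
      exact_mod_cast h4
    exact hOVL p i hp (fun k h1 h2 => hper k h1 (by omega))
  · intro w hw n hn
    obtain ⟨m, hm, hfree⟩ := hDENSE2 α hα w hw n
    refine ⟨ext w m, hfree, ?_, ?_⟩
    · intro he
      have h1 := congrFun he m
      rw [ext_at] at h1
      cases h2 : w m <;> rw [h2] at h1 <;> exact absurd h1 (by decide)
    · intro k hk
      exact ext_lt w m k (by omega)

end Pool.Agent.Lib.MPc41b7c.PF
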