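import Pool.Agent.Lib.MP_c41b7c_co.PF.Spec

/-!
# Module FIN: the theorem
-/

set_option autoImplicit false

namespace Pool.Agent.Lib.MPc41b7c.PF

namespace FINaux

lemma ext_at (w : ℕ → Bool) (m : ℕ) : ext w m m = !(w m) := by
  have h : tm (sg w m + (m - m)) = true := by
    rw [Nat.sub_self, Nat.add_zero]
    unfold sg
    split
    · exact tm_1
    · exact tm_2
  unfold ext
  rw [if_neg (lt_irrefl m), h]
  cases w m <;> rfl

lemma ext_lt (w : ℕ → Bool) (m k : ℕ) (h : k < m) : ext w m k = w k := by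
  unfold ext
  rw [if_pos h]

end FINaux

open FINaux

theorem specFIN (hOVL : SpecOVL) (hBLK : SpecBLK) (hCNT : SpecCNT) (hCN3 : SpecCN3)
    (hISO : SpecISO) : SpecFIN := by
  intro α hα
  refine ⟨⟨tm, ?_⟩, hISO α ?_⟩
  · intro p i L hp hper
    by_contra hlt
    have hlt' : α * p ≤ (L : ℝ) := not_lt.1 hlt
    have h3 : 3 * p ≤ L := by
      have h4 : (3 : ℝ) * p ≤ (L : ℝ) :=
        (mul_le_mul_of_nonneg_right hα (Nat.cast_nonneg p)).trans hlt'
      exact_mod_cast h4
    exact hOVL p i hp (fun k h1 h2 => hper k h1 (by omega))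
  · intro w hw n hn
    by_contra hno
    have hbad : ∀ m, n ≤ m → ¬ PowFree α (ext w m) := by
      intro m hm hp
      apply hno
      refine ⟨ext w m, hp, ?_, ?_⟩
      · intro he
        have h1 := congrFun he m
        rw [ext_at] at h1
        cases h2 : w m <;> rw [h2] at h1 <;> exact absurd h1 (by decide)
      · intro k hk
        exact ext_lt w m k (by omega)
    have hhit : ∀ m, n ≤ m → Ok α w m → ∃ a p, Hit w m a p := fun m hm hok =>
      hBLK α w m hα hw (by omega) hok (hbad m hm)
    rcases hα.lt_or_eq with h | h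
    · exact hCNT α w h hw n hn hhit
    · subst h
      exact hCN3 w hw n hn hhit

end Pool.Agent.Lib.MPc41b7c.PF
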