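import Pool.Agent.Lib.MP_c41b7c_co.PF.SpecT

/-!
# GL: gluing two power-free words with Thue-Morse tails
-/

set_option autoImplicit false

namespace Pool.Agent.Lib.MPc41b7c.PF

namespace GLaux

lemma exists_len (hSH : SpecSH) (hTREV : SpecTREV) (m m' s s' : ℕ) (b b' : Bool)
    (hs : s = 1 ∨ s = 2) (hs' : s' = 1 ∨ s' = 2) :
    ∃ N M : ℕ, M ≤ N ∧ 2 * (m + m') < M ∧
      ∀ x < M, xor b (tm (s + (N - 1 - x))) = xor b' (tm (s' + x)) := by
  have hQ : 2 * (m + m') + 5 < 4 ^ (2 * (m + m') + 5) :=
    Nat.lt_pow_self (by norm_num)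
  have hQ2 : 2 ^ (2 * (2 * (m + m') + 5)) = 4 ^ (2 * (m + m') + 5) := by
    rw [pow_mul]
    norm_num
  have hT := hTREV (2 * (m + m') + 5)
  have hS := hSH (2 * (2 * (m + m') + 5))
  rw [hQ2] at hS
  generalize 4 ^ (2 * (m + m') + 5) = Q at hQ hT hS
  by_cases hb : b = b'
  · refine ⟨Q - s - s', Q - s - s', le_rfl, by omega, fun x hx => ?_⟩
    have e : s + (Q - s - s' - 1 - x) = Q - 1 - (s' + x) := by omega
    rw [e, hT (s' + x) (by omega), hb]
  · refine ⟨Q + Q - s - s', Q - s - s', by omega, by omega, fun x hx => ?_⟩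
    have e : s + (Q + Q - s - s' - 1 - x) = Q + (Q - 1 - (s' + x)) := by omega
    rw [e, hS (Q - 1 - (s' + x)) (by omega), hT (s' + x) (by omega)]
    cases b <;> cases b' <;> simp_all

lemma xor_inj (b x y : Bool) (h : xor b x = xor b y) : x = y := by
  cases b <;> simpa using h

end GLaux

theorem specGL (hOVL : SpecOVL) (hSH : SpecSH) (hTREV : SpecTREV) : SpecGL := by
  intro α U V m m' s s' b b' hα hs hs' hU hV
  obtain ⟨N, M, hMN, hM, hrev⟩ := GLaux.exists_len hSH hTREV m m' s s' b b' hs hs'
  obtain ⟨Z, hZ⟩ : ∃ Z : ℕ → Bool, ∀ k, Z k = if k < m + N then app U m s b k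
      else V (m + N + m' - 1 - k) := ⟨_, fun k => rfl⟩
  have hZ1 : ∀ k, k < m + N → Z k = app U m s b k := by
    intro k hk
    rw [hZ, if_pos hk]
  have hZ2 : ∀ k, k < m' → Z (m + N + m' - 1 - k) = V k := by
    intro k hk
    rw [hZ, if_neg (by omega)]
    congr 1
    omega
  have hZ3 : ∀ k, m ≤ k → k < m + N → Z k = xor b (tm (s + (k - m))) := by
    intro k hk1 hk2
    rw [hZ1 k hk2, app, if_neg (by omega)]
  have hZ4 : ∀ k, k < m' + M → Z (m + N + m' - 1 - k) = app V m' s' b' k := by
    intro k hk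
    by_cases hk' : k < m'
    · rw [hZ2 k hk', app, if_pos hk']
    · have e : m + N + m' - 1 - k = m + (N - 1 - (k - m')) := by omega
      rw [e, hZ3 _ (by omega) (by omega), app, if_neg hk', Nat.add_sub_cancel_left]
      exact hrev (k - m') (by omega)
  refine ⟨N, Z, ?_, hZ2, ?_⟩
  · intro k hk
    rw [hZ1 k (by omega), app, if_pos hk]
  · intro p i L hp hiL hper
    by_contra hc
    have hc' : α * p ≤ L := not_lt.1 hc
    have h3 : 3 * p ≤ L := by
      have h : (3 : ℝ) * p ≤ L :=
        (mul_le_mul_of_nonneg_right hα (Nat.cast_nonneg p)).trans hc'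
      exact_mod_cast h
    by_cases hA : i + L ≤ m + N
    · refine absurd (hU p i L hp ?_) (not_lt.2 hc')
      intro k hk1 hk2
      rw [← hZ1 k (by omega), ← hZ1 (k + p) (by omega)]
      exact hper k hk1 hk2
    by_cases hB : m + N ≤ i + M
    · refine absurd (hV p (m + N + m' - (i + L)) L hp ?_) (not_lt.2 hc')
      intro k hk1 hk2
      rw [← hZ4 k (by omega), ← hZ4 (k + p) (by omega)]
      have h := hper (m + N + m' - 1 - (k + p)) (by omega) (by omega)
      have e : m + N + m' - 1 - (k + p) + p = m + N + m' - 1 - k := by omega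
      rw [e] at h
      exact h.symm
    · -- the repetition is long
      have h2p : m + N - max i m ≤ 2 * p := by
        by_contra h2
        apply hOVL p (s + (max i m - m)) hp
        intro k hk1 hk2
        have hmx : m ≤ max i m := le_max_right _ _
        have hix : i ≤ max i m := le_max_left _ _
        have h := hper (m + (k - s)) (by omega) (by omega)
        rw [hZ3 (m + (k - s)) (by omega) (by omega), hZ3 (m + (k - s) + p) (by omega) (by omega)] at h
        have h' := GLaux.xor_inj b _ _ h
        have e1 : s + (m + (k - s) - m) = k := by omega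
        have e2 : s + (m + (k - s) + p - m) = k + p := by omega
        rw [e1, e2] at h'
        exact h'
      rcases le_total i m with h | h
      · rw [max_eq_right h] at h2p
        omega
      · rw [max_eq_left h] at h2p
        omega

end Pool.Agent.Lib.MPc41b7c.PF
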