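import Pool.Agent.Lib.MP_c41b7c_co.PF.Spec

set_option autoImplicit false

namespace Pool.Agent.Lib.MPc41b7c.PF

theorem specHF : SpecHF := by
  intro w m a p h
  obtain ⟨hp, ham, hL, i, c, hia, hc, hper, h3⟩ := h
  -- periodicity of `w` before `m`
  have hw : ∀ k, i ≤ k → k + p < m → w k = w (k + p) := by
    intro k hk hkp
    have h1 := hper k hk (by omega)
    have h2 : ext w m k = w k := by
      unfold ext; rw [if_pos (by omega)]
    have h4 : ext w m (k + p) = w (k + p) := by
      unfold ext; rw [if_pos hkp]
    rw [h2, h4] at h1
    exact h1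
  have hmp : w (m - p) = !(w m) := by
    have h1 := hper (m - p) (by omega) (by omega)
    have h2 : ext w m (m - p) = w (m - p) := by
      unfold ext; rw [if_pos (by omega)]
    have h4 : m - p + p = m := by omega
    have h5 : ext w m m = !(w m) := by
      unfold ext
      rw [if_neg (by omega)]
      have h6 : tm (sg w m + (m - m)) = true := by
        rw [Nat.sub_self, Nat.add_zero]
        unfold sg
        split_ifs
        · exact tm_1
        · exact tm_2
      rw [h6]
      cases w m <;> rfl
    rw [h4, h2, h5] at h1
    exact h1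
  obtain ⟨k, hk, -, hb, hb'⟩ := hL (p - 1) (by omega) (by omega)
  have hk0 : k = 0 := by omega
  subst hk0
  have hwa : w a = w m := by simpa using hb
  have hap : w (a + (p - 1)) = !(w m) := by simpa using hb'
  have ha1 : 1 ≤ a := by omega
  have hprev : w (a - 1) = !(w m) := by
    have h1 := hw (a - 1) (by omega) (by omega)
    have h2 : a - 1 + p = a + (p - 1) := by omega
    rw [h1, h2, hap]
  refine ⟨ha1, by omega, hwa, ?_, ?_, hmp⟩
  · rw [hprev, hwa]
    cases w m <;> simp
  · intro k hk hkp
    exact hw k (by omega) hkp

end Pool.Agent.Lib.MPc41b7c.PF
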