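import Pool.Agent.Lib.MP_c41b7c_co.PF.Spec

/-!
# MP_c41b7c_co, module INJ: different positions are hit from different roots
-/

set_option autoImplicit false

namespace Pool.Agent.Lib.MPc41b7c.PF

theorem specINJ (hUNI : SpecUNI) (hHF : SpecHF) : SpecINJ := by
  intro w S T hT hex
  classical
  have hc : ∀ m : ℕ, ∃ a p, m ∈ S → Hit w m a p := by
    intro m
    by_cases hm : m ∈ S
    · obtain ⟨a, p, h⟩ := hex m hm
      exact ⟨a, p, fun _ => h⟩
    · exact ⟨0, 0, fun h => absurd h hm⟩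
  choose f p hfp using hc
  apply Finset.card_le_card_of_injOn f
  · intro m hm
    exact hT m hm (f m) (p m) (hfp m hm)
  · intro m hm m' hm' heq
    have h1 := hfp m hm
    have h2 := hfp m' hm'
    have heq' : f m' = f m := heq.symm
    rw [heq'] at h2
    obtain ⟨_, _, hw1, _, hP1, he1⟩ := hHF w m (f m) (p m) h1
    obtain ⟨_, _, hw2, _, hP2, he2⟩ := hHF w m' (f m) (p m') h2
    obtain ⟨hp1, hl1, hL1, _⟩ := h1
    obtain ⟨hp2, hl2, hL2, _⟩ := h2
    have hwm : w m' = w m := by rw [← hw2, hw1]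
    rw [hwm] at hL2 he2
    exact (hUNI w (w m) (f m) (p m) m (p m') m' hl1 hl2 (by omega) (by omega) hP1 hP2 hL1 hL2
      rfl hwm he1 he2).2

end Pool.Agent.Lib.MPc41b7c.PF
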