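import Pool.Agent.Lib.MP_c41b7c_co.PF.Spec

/-!
# ISO: isolated points
-/

set_option autoImplicit false

open Topology Filter

namespace Pool.Agent.Lib.MPc41b7c.PF

namespace ISOaux

/-- the cylinder of `x` up to `n` -/
def cyl (x : ℕ → Bool) (n : ℕ) : Set (ℕ → Bool) := {w | ∀ k < n, w k = x k}

lemma isOpen_cyl (x : ℕ → Bool) (n : ℕ) : IsOpen (cyl x n) := by
  have h : cyl x n = ⋂ k ∈ Finset.range n, {w : ℕ → Bool | w k = x k} := by
    ext w
    simp [cyl]
  rw [h]
  apply isOpen_biInter_finset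
  intro k _
  have hc : Continuous (fun w : ℕ → Bool => w k) := continuous_apply k
  exact (isOpen_discrete ({x k} : Set Bool)).preimage hc

lemma exists_cyl {w : ℕ → Bool} {U : Set (ℕ → Bool)} (hU : U ∈ 𝓝 w) :
    ∃ n, 1 ≤ n ∧ cyl w n ⊆ U := by
  rw [nhds_pi, Filter.mem_pi] at hU
  obtain ⟨I, hI, t, ht, hsub⟩ := hU
  obtain ⟨N, hN⟩ := hI.bddAbove
  refine ⟨N + 1, by omega, fun v hv => hsub ?_⟩
  intro i hi
  have h1 : v i = w i := hv i (by have := hN hi; omega)
  rw [h1]
  exact mem_of_mem_nhds (ht i)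

end ISOaux

open ISOaux in
/-- ISO -/
theorem specISO : SpecISO := by
  intro α h
  refine ⟨?_, ?_⟩
  · -- closed
    rw [← isOpen_compl_iff, isOpen_iff_mem_nhds]
    intro x hx
    have hx' : ¬ PowFree α x := hx
    unfold PowFree at hx'
    push Not at hx'
    obtain ⟨p, i, L, hp, hper, hL⟩ := hx'
    refine Filter.mem_of_superset ((isOpen_cyl x (i + L)).mem_nhds (fun k _ => rfl)) ?_
    intro w hw hfree
    have hw' : ∀ k < i + L, w k = x k := hw
    have hperw : Per w p i (i + L) := by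
      intro k hk hkp
      rw [hw' k (by omega), hw' (k + p) hkp]
      exact hper k hk hkp
    exact absurd (hfree p i L hp hperw) (not_lt.mpr hL)
  · -- preperfect
    intro w hw
    rw [accPt_iff_nhds]
    intro U hU
    obtain ⟨n, hn, hcyl⟩ := exists_cyl hU
    obtain ⟨w', hw', hne, hag⟩ := h w hw n hn
    exact ⟨w', ⟨hcyl hag, hw'⟩, hne⟩

end Pool.Agent.Lib.MPc41b7c.PF
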