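import Pool.Agent.Lib.MP_c41b7c_co.PF.Spec

/-!
# Module LA (helper89): the tails of the Thue-Morse word compared with the complement of the tail from 1
-/

set_option autoImplicit false

namespace Pool.Agent.Lib.MPc41b7c.PF

namespace LAaux

theorem step (k : ℕ) (hk : 1 ≤ k)
    (ih : ∀ s : ℕ, 1 ≤ s → s ≤ 2 ^ k → ∃ j < 2 ^ (k - 1),
      (∀ l < j, tm (s + l) = !(tm (1 + l))) ∧ tm (s + j) = true ∧ tm (1 + j) = true)
    (s : ℕ) (h1 : 1 ≤ s) (h2 : s ≤ 2 ^ (k + 1)) : ∃ j < 2 ^ k,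
      (∀ l < j, tm (s + l) = !(tm (1 + l))) ∧ tm (s + j) = true ∧ tm (1 + j) = true := by
  have hpow : 2 ^ (k + 1) = 2 * 2 ^ k := by ring
  have hpow' : 2 ^ k = 2 * 2 ^ (k - 1) := by
    obtain ⟨m, rfl⟩ : ∃ m, k = m + 1 := ⟨k - 1, by omega⟩
    rw [Nat.add_sub_cancel]
    ring
  have hpos : 1 ≤ 2 ^ (k - 1) := Nat.one_le_two_pow
  by_cases ht : tm s = true
  · exact ⟨0, by omega, fun l hl => absurd hl (Nat.not_lt_zero _), ht, tm_1⟩
  have ht' : tm s = false := by simpa using ht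
  rcases Nat.even_or_odd' s with ⟨a, rfl | rfl⟩
  · refine ⟨1, by omega, ?_, ?_, tm_2⟩
    · intro l hl
      have hl0 : l = 0 := by omega
      subst hl0
      rw [Nat.add_zero, Nat.add_zero, ht', tm_1]
      rfl
    · rw [tm_odd, ← tm_even, ht']
      rfl
  · obtain ⟨j, hj, h3, h4, h5⟩ := ih (a + 1) (by omega) (by omega)
    refine ⟨1 + 2 * j, by omega, ?_, ?_, ?_⟩
    · intro l hl
      rcases Nat.even_or_odd' l with ⟨c, rfl | rfl⟩
      · rcases Nat.eq_zero_or_pos c with rfl | hc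
        · rw [Nat.mul_zero, Nat.add_zero, Nat.add_zero, ht', tm_1]
          rfl
        · obtain ⟨b, rfl⟩ : ∃ b, c = b + 1 := ⟨c - 1, by omega⟩
          have e1 : 2 * a + 1 + 2 * (b + 1) = 2 * (a + 1 + b) + 1 := by ring
          have e2 : 1 + 2 * (b + 1) = 2 * (1 + b) + 1 := by ring
          rw [e1, e2, tm_odd, tm_odd, h3 b (by omega)]
      · have e1 : 2 * a + 1 + (2 * c + 1) = 2 * (a + 1 + c) := by ring
        have e2 : 1 + (2 * c + 1) = 2 * (1 + c) := by ring
        rw [e1, e2, tm_even, tm_even, h3 c (by omega)]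
    · have e1 : 2 * a + 1 + (1 + 2 * j) = 2 * (a + 1 + j) := by ring
      rw [e1, tm_even, h4]
    · have e1 : 1 + (1 + 2 * j) = 2 * (1 + j) := by ring
      rw [e1, tm_even, h5]

end LAaux

theorem specLA : SpecLA := by
  intro k s hk
  revert s
  induction k, hk using Nat.le_induction with
  | base =>
    intro s h1 h2
    refine ⟨0, by norm_num, fun l hl => absurd hl (Nat.not_lt_zero _), ?_, tm_1⟩
    have h3 : s = 1 ∨ s = 2 := by
      rw [pow_one] at h2
      omega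
    rcases h3 with rfl | rfl
    · exact tm_1
    · exact tm_2
  | succ k hk ih =>
    intro s h1 h2
    rw [Nat.add_sub_cancel]
    exact LAaux.step k hk ih s h1 h2

end Pool.Agent.Lib.MPc41b7c.PF
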