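import Pool.Agent.Lib.MP_c41b7c_co.PF.Spec

/-!
# LB: the tails of the Thue-Morse word from `1 + p` and from `1` differ early
-/

set_option autoImplicit false

namespace Pool.Agent.Lib.MPc41b7c.PF

/-- LB -/
theorem specLB : SpecLB := by
  intro k
  induction k with
  | zero => intro p hk; omega
  | succ k ih =>
    intro p _ hp hpk
    have hk2 : 2 ≤ 2 ^ (k + 1) := by
      have : 1 ≤ 2 ^ k := Nat.one_le_two_pow
      rw [pow_succ]; omega
    rcases Nat.even_or_odd' p with ⟨a, ha | ha⟩
    · subst ha
      by_cases hta : tm a = true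
      · refine ⟨0, by omega, ?_⟩
        rw [show 1 + 2 * a + 0 = 2 * a + 1 by omega, tm_odd, hta, show 1 + 0 = 1 by rfl, tm_1]
        decide
      · have ha1 : a ≠ 1 := fun h => hta (by rw [h, tm_1])
        have ha2 : a ≠ 2 := fun h => hta (by rw [h, tm_2])
        have hk : 1 ≤ k := by
          rcases Nat.eq_zero_or_pos k with h0 | h0
          · subst h0
            norm_num at hpk
            omega
          · exact h0
        have hak : a < 3 * 2 ^ k := by
          rw [pow_succ] at hpk
          omega
        obtain ⟨j, hj, hne⟩ := ih a hk (by omega) hak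
        refine ⟨1 + 2 * j, by rw [pow_succ]; omega, ?_⟩
        rw [show 1 + 2 * a + (1 + 2 * j) = 2 * (1 + a + j) by ring,
          show 1 + (1 + 2 * j) = 2 * (1 + j) by ring, tm_even, tm_even]
        exact hne
    · subst ha
      cases hta : tm (a + 1)
      · refine ⟨0, by omega, ?_⟩
        rw [show 1 + (2 * a + 1) + 0 = 2 * (a + 1) by ring, tm_even, hta, show 1 + 0 = 1 by rfl,
          tm_1]
        decide
      · refine ⟨1, by omega, ?_⟩
        rw [show 1 + (2 * a + 1) + 1 = 2 * (a + 1) + 1 by ring, tm_odd, hta,
          show 1 + 1 = 2 by rfl, tm_2]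
        decide

end Pool.Agent.Lib.MPc41b7c.PF
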