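import Pool.Agent.Lib.MP_c41b7c_co.PF.Spec

/-!
# Binary power-free words: module MC
-/

set_option autoImplicit false

namespace Pool.Agent.Lib.MPc41b7c.PF

namespace MCaux

lemma exists_k {p : ℕ} (hp : 3 ≤ p) : ∃ k, 3 * 2 ^ k ≤ p ∧ p < 3 * 2 ^ (k + 1) := by
  refine ⟨Nat.log 2 (p / 3), ?_, ?_⟩
  · have h1 : 2 ^ Nat.log 2 (p / 3) ≤ p / 3 := Nat.pow_log_le_self 2 (by omega)
    omega
  · have h1 : p / 3 < 2 ^ (Nat.log 2 (p / 3) + 1) := Nat.lt_pow_succ_log_self (by norm_num) _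
    omega

lemma one (hSH : SpecSH) (hLA : SpecLA) (hLB : SpecLB) (p r : ℕ) (hp : 2 ≤ p) (hr : 1 ≤ r)
    (h : ∀ l < r, tm (1 + p + l) = tm (1 + l)) :
    r < p ∧ ∃ q, ∀ s, 1 ≤ s → s ≤ r → ∃ j, q + j < p ∧ s + j < p ∧
      (∀ l < j, tm (1 + q + l) = tm (1 + s + l)) ∧ tm (1 + q + j) = false ∧
      tm (1 + s + j) = true := by
  by_cases hp2 : p = 2
  · subst hp2
    have h1 := h 0 (by omega)
    rw [show 1 + 2 + 0 = 3 from rfl, show 1 + 0 = 1 from rfl, tm_3, tm_1] at h1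
    exact absurd h1 (by decide)
  obtain ⟨k, hk1, hk2⟩ := exists_k (show 3 ≤ p by omega)
  have hpow : 2 ^ (k + 1) = 2 * 2 ^ k := by rw [pow_succ]; ring
  obtain ⟨j₀, hj₀, hj₀'⟩ := hLB (k + 1) p (by omega) hp hk2
  have hrj : r ≤ j₀ := by
    by_contra hcon
    exact hj₀' (h j₀ (by omega))
  refine ⟨by omega, 2 ^ (k + 1), fun s hs1 hs2 => ?_⟩
  obtain ⟨j, hj1, hj2, hj3, hj4⟩ := hLA (k + 1) (s + 1) (by omega) (by omega) (by omega)
  rw [Nat.add_sub_cancel] at hj1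
  have hsh : ∀ l ≤ j, tm (1 + 2 ^ (k + 1) + l) = !(tm (1 + l)) := by
    intro l hl
    have h1 := hSH (k + 1) (1 + l) (by omega)
    rw [← h1]
    congr 1
    omega
  refine ⟨j, by omega, by omega, fun l hl => ?_, ?_, ?_⟩
  · rw [hsh l hl.le, show 1 + s + l = s + 1 + l by omega, hj2 l hl]
  · rw [hsh j le_rfl, hj4]
    rfl
  · rw [show 1 + s + j = s + 1 + j by omega, hj3]

lemma even (hSH : SpecSH) (hLA : SpecLA) (hLB : SpecLB) (a r : ℕ) (ha : 3 ≤ a)
    (h : ∀ l < r, tm (2 + 2 * a + l) = tm (2 + l)) :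
    r < 2 * a ∧ ∃ q, ∀ s, 1 ≤ s → s ≤ r → ∃ j, q + j < 2 * a ∧ s + j < 2 * a ∧
      (∀ l < j, tm (2 + q + l) = tm (2 + s + l)) ∧ tm (2 + q + j) = false ∧
      tm (2 + s + j) = true := by
  obtain ⟨k, hk1, hk2⟩ := exists_k (show 3 ≤ 2 * a by omega)
  have hpow : 2 ^ (k + 1) = 2 * 2 ^ k := by rw [pow_succ]; ring
  have hk0 : 1 ≤ k := by
    by_contra hcon
    have : k = 0 := by omega
    subst this
    norm_num at hk2
    omega
  obtain ⟨j₀, hj₀, hj₀'⟩ := hLB k a hk0 (by omega) (by omega)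
  have hrj : r ≤ 2 * j₀ := by
    by_contra hcon
    have h1 := h (2 * j₀) (by omega)
    rw [show 2 + 2 * a + 2 * j₀ = 2 * (1 + a + j₀) by ring, show 2 + 2 * j₀ = 2 * (1 + j₀) by ring,
      tm_even, tm_even] at h1
    exact hj₀' h1
  refine ⟨by omega, 2 ^ (k + 1) - 1, fun s hs1 hs2 => ?_⟩
  obtain ⟨j, hj1, hj2, hj3, hj4⟩ := hLA (k + 1) (s + 2) (by omega) (by omega) (by omega)
  rw [Nat.add_sub_cancel] at hj1
  have hsh : ∀ l ≤ j, tm (2 + (2 ^ (k + 1) - 1) + l) = !(tm (1 + l)) := by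
    intro l hl
    have h1 := hSH (k + 1) (1 + l) (by omega)
    rw [← h1]
    congr 1
    omega
  refine ⟨j, by omega, by omega, fun l hl => ?_, ?_, ?_⟩
  · rw [hsh l hl.le, show 2 + s + l = s + 2 + l by omega, hj2 l hl]
  · rw [hsh j le_rfl, hj4]
    rfl
  · rw [show 2 + s + j = s + 2 + j by omega, hj3]

lemma odd (p r : ℕ) (hodd : p % 2 = 1) (hp : 11 ≤ p)
    (h : ∀ l < r, tm (2 + p + l) = tm (2 + l)) :
    r < p ∧ ∃ q, ∀ s, 1 ≤ s → s ≤ r → ∃ j, q + j < p ∧ s + j < p ∧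
      (∀ l < j, tm (2 + q + l) = tm (2 + s + l)) ∧ tm (2 + q + j) = false ∧
      tm (2 + s + j) = true := by
  have hr4 : r ≤ 4 := by
    by_contra hcon
    obtain ⟨b, hb⟩ : ∃ b, p + 2 = 2 * b + 1 := ⟨(p + 1) / 2, by omega⟩
    have h3 := h 3 (by omega)
    have h4 := h 4 (by omega)
    rw [show 2 + p + 3 = 2 * (b + 2) by omega, show 2 + 3 = 5 from rfl, tm_even, tm_5] at h3
    rw [show 2 + p + 4 = 2 * (b + 2) + 1 by omega, show 2 + 4 = 6 from rfl, tm_odd, tm_6, h3] at h4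
    exact absurd h4 (by decide)
  refine ⟨by omega, 7, fun s hs1 hs2 => ?_⟩
  have hs : s = 1 ∨ s = 2 ∨ s = 3 ∨ s = 4 := by omega
  rcases hs with rfl | rfl | rfl | rfl
  · refine ⟨1, by omega, by omega, fun l hl => ?_, tm_10, tm_4⟩
    have : l = 0 := by omega
    subst this
    exact tm_9.trans tm_3.symm
  · refine ⟨0, by omega, by omega, fun l hl => absurd hl (by omega), tm_9, tm_4⟩
  · refine ⟨3, by omega, by omega, fun l hl => ?_, tm_12, tm_8⟩
    have : l = 0 ∨ l = 1 ∨ l = 2 := by omega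
    rcases this with rfl | rfl | rfl
    · exact tm_9.trans tm_5.symm
    · exact tm_10.trans tm_6.symm
    · exact tm_11.trans tm_7.symm
  · refine ⟨1, by omega, by omega, fun l hl => ?_, tm_10, tm_7⟩
    have : l = 0 := by omega
    subst this
    exact tm_9.trans tm_6.symm

end MCaux

open MCaux in
/-- MC -/
theorem specMC (hSH : SpecSH) (hLA : SpecLA) (hLB : SpecLB) : SpecMC := by
  intro σ p r hσ hp hr h ht
  rcases hσ with rfl | rfl
  · exact one hSH hLA hLB p r hp hr h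
  · have ht' := ht rfl
    have h0 := h 0 (by omega)
    rw [show 2 + 0 = 2 from rfl, tm_2, add_zero] at h0
    rcases Nat.even_or_odd' p with ⟨a, ha | ha⟩
    · subst ha
      have ha1 : a ≠ 1 := by
        rintro rfl
        rw [show 2 + 2 * 1 - 1 = 3 from rfl, tm_3] at ht'
        exact absurd ht' (by decide)
      have ha2 : a ≠ 2 := by
        rintro rfl
        rw [show 2 + 2 * 2 = 6 from rfl, tm_6] at h0
        exact absurd h0 (by decide)
      exact even hSH hLA hLB a r (by omega) h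
    · have h3 : p ≠ 3 := by
        rintro rfl
        rw [show 2 + 3 = 5 from rfl, tm_5] at h0
        exact absurd h0 (by decide)
      have h5 : p ≠ 5 := by
        rintro rfl
        rw [show 2 + 5 - 1 = 6 from rfl, tm_6] at ht'
        exact absurd ht' (by decide)
      have h7 : p ≠ 7 := by
        rintro rfl
        rw [show 2 + 7 = 9 from rfl, tm_9] at h0
        exact absurd h0 (by decide)
      have h9 : p ≠ 9 := by
        rintro rfl
        rw [show 2 + 9 - 1 = 10 from rfl, tm_10] at ht'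
        exact absurd ht' (by decide)
      exact odd p r (by omega) (by omega) h

end Pool.Agent.Lib.MPc41b7c.PF
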