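import Pool.Agent.Lib.MP_c41b7c_co.PF.SpecW

/-!
# Module MCS: missing classes, short agreement
-/

set_option autoImplicit false

namespace Pool.Agent.Lib.MPc41b7c.PF

namespace MCSaux

lemma exk (c : ℕ) (hc : 4 ≤ c) : ∃ t : ℕ, 3 * 2 ^ t ≤ c ∧ c < 3 * 2 ^ (t + 1) := by
  refine ⟨Nat.log 2 (c / 3), ?_, ?_⟩
  · have h := Nat.pow_log_le_self 2 (x := c / 3) (by omega)
    omega
  · have h := Nat.lt_pow_succ_log_self (b := 2) (by norm_num) (c / 3)
    have h2 : Nat.succ (Nat.log 2 (c / 3)) = Nat.log 2 (c / 3) + 1 := rfl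
    rw [h2] at h
    omega

end MCSaux

open MCSaux in
theorem specMCS (hSH : SpecSH) (hLA : SpecLA) : SpecMCS := by
  intro σ c R s hσ hR hs1 hsR h4 hex
  obtain ⟨t, ht1, ht2⟩ := exk c (by omega)
  have hpow : 2 ^ (t + 1) = 2 * 2 ^ t := pow_succ' 2 t
  have hp0 : 1 ≤ 2 ^ t := Nat.one_le_two_pow
  have hRk : R < 2 ^ (t + 1) := by omega
  have key : ∀ u : ℕ, 1 ≤ u → u ≤ 2 ^ (t + 1) → ∃ j < 2 ^ t,
      (∀ l < j, tm (2 ^ (t + 1) + (1 + l)) = tm (u + l)) ∧
      tm (2 ^ (t + 1) + (1 + j)) = false ∧ tm (u + j) = true := by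
    intro u hu1 hu2
    obtain ⟨j, hj, h1, h2, h3⟩ := hLA (t + 1) u (by omega) hu1 hu2
    rw [Nat.add_sub_cancel] at hj
    refine ⟨j, hj, ?_, ?_, h2⟩
    · intro l hl
      rw [hSH (t + 1) (1 + l) (by omega), h1 l hl]
    · rw [hSH (t + 1) (1 + j) (by omega), h3]
      rfl
  rcases hσ with rfl | rfl
  · obtain ⟨j, hj, h1, h2, h3⟩ := key (s + 1) (by omega) (by omega)
    refine ⟨2 ^ (t + 1), j, by omega, by omega, ?_, ?_, ?_⟩
    · intro l hl
      have e1 : 1 + 2 ^ (t + 1) + l = 2 ^ (t + 1) + (1 + l) := by omega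
      have e2 : 1 + s + l = s + 1 + l := by omega
      rw [e1, e2]
      exact h1 l hl
    · have e1 : 1 + 2 ^ (t + 1) + j = 2 ^ (t + 1) + (1 + j) := by omega
      rw [e1]
      exact h2
    · have e2 : 1 + s + j = s + 1 + j := by omega
      rw [e2]
      exact h3
  · by_cases hR2 : R + 2 ≤ 2 ^ (t + 1)
    · obtain ⟨j, hj, h1, h2, h3⟩ := key (s + 2) (by omega) (by omega)
      refine ⟨2 ^ (t + 1) - 1, j, by omega, by omega, ?_, ?_, ?_⟩
      · intro l hl
        have e1 : 2 + (2 ^ (t + 1) - 1) + l = 2 ^ (t + 1) + (1 + l) := by omega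
        have e2 : 2 + s + l = s + 2 + l := by omega
        rw [e1, e2]
        exact h1 l hl
      · have e1 : 2 + (2 ^ (t + 1) - 1) + j = 2 ^ (t + 1) + (1 + j) := by omega
        rw [e1]
        exact h2
      · have e2 : 2 + s + j = s + 2 + j := by omega
        rw [e2]
        exact h3
    · have hR3 : R + 1 = 2 ^ (t + 1) := by omega
      by_cases ht : t = 0
      · subst ht
        have hc : c = 5 := by
          have : ¬ c = 4 := fun h => h4 ⟨rfl, h⟩
          simp only [zero_add, pow_one] at *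
          omega
        have hs : s = 1 := by
          simp only [zero_add, pow_one] at *
          omega
        subst hc hs
        refine ⟨3, 1, by norm_num, by norm_num, ?_, ?_, ?_⟩
        · intro l hl
          obtain rfl : l = 0 := by omega
          show tm 5 = tm 3
          rw [tm_5, tm_3]
        · exact tm_6
        · exact tm_4
      · exfalso
        exact hex ⟨rfl, t + 1, by omega, hR3, by omega⟩

end Pool.Agent.Lib.MPc41b7c.PF
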