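import Pool.Agent.Lib.MP_c41b7c_co.PF.Spec

/-!
# MP_c41b7c_co, PF: module MIN, the smallest rotation
-/

set_option autoImplicit false

namespace Pool.Agent.Lib.MPc41b7c.PF

namespace MINaux

theorem per_mul {g : ℕ → Bool} {p : ℕ} (hg : ∀ k, g (k + p) = g k) (n k : ℕ) :
    g (k + p * n) = g k := by
  induction n with
  | zero => simp
  | succ n ih =>
    rw [Nat.mul_succ, ← Nat.add_assoc, hg, ih]

/-- The tail of `g` from `b` in the lexicographic order. -/
def F (g : ℕ → Bool) (b : ℕ) : Lex (ℕ → Bool) := toLex fun k => g (b + k)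

theorem F_lt {g : ℕ → Bool} {a b k : ℕ} (h : ∀ l < k, g (b + l) = g (a + l))
    (h1 : g (b + k) = false) (h2 : g (a + k) = true) : F g b < F g a := by
  refine ⟨k, h, ?_⟩
  change g (b + k) < g (a + k)
  rw [h1, h2]
  decide

theorem F_mod {g : ℕ → Bool} {p : ℕ} (hp : 1 ≤ p) (hg : ∀ k, g (k + p) = g k) (s b : ℕ) :
    ∃ b', s ≤ b' ∧ b' < s + p ∧ F g b' = F g b := by
  have h1 : s ≤ b + p * s := by
    have : s ≤ p * s := Nat.le_mul_of_pos_left s hp
    omega
  have h2 : (b + p * s - s) % p < p := Nat.mod_lt _ hp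
  have h3 : (b + p * s - s) % p + p * ((b + p * s - s) / p) = b + p * s - s := Nat.mod_add_div _ _
  refine ⟨s + (b + p * s - s) % p, by omega, by omega, ?_⟩
  unfold F
  congr 1
  funext k
  rw [← per_mul hg ((b + p * s - s) / p) (s + (b + p * s - s) % p + k), ← per_mul hg s (b + k)]
  congr 1
  omega

end MINaux

open MINaux in
theorem specMIN : SpecMIN := by
  intro g p s hp hg hprim
  obtain ⟨a, ha, hmin⟩ := Finset.exists_min_image (Finset.Ico s (s + p)) (F g)
    ⟨s, Finset.mem_Ico.2 ⟨le_refl s, by omega⟩⟩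
  rw [Finset.mem_Ico] at ha
  have hall : ∀ b, F g a ≤ F g b := by
    intro b
    obtain ⟨b', h1, h2, h3⟩ := F_mod hp hg s b
    rw [← h3]
    exact hmin b' (Finset.mem_Ico.2 ⟨h1, h2⟩)
  have hlast : ∀ b k, (∀ l < k, g (b + l) = g (a + l)) →
      ¬ (g (b + k) = false ∧ g (a + k) = true) := by
    intro b k h hbk
    exact absurd (F_lt h hbk.1 hbk.2) (not_lt.2 (hall b))
  refine ⟨a, ha.1, ha.2, ?_, hlast⟩
  intro j hj hjp
  -- the first difference of the tails from `a` and `a + j`
  have hex : ∃ k, g (a + k) ≠ g (a + j + k) := by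
    obtain ⟨k, hk⟩ := hprim j hj hjp
    have h1 : a ≤ p * a := Nat.le_mul_of_pos_left a hp
    refine ⟨k + p * a - a, ?_⟩
    rw [show a + (k + p * a - a) = k + p * a by omega,
      show a + j + (k + p * a - a) = k + j + p * a by omega, per_mul hg, per_mul hg]
    exact fun h => hk h.symm
  classical
  obtain ⟨k₀, hk₀, hk₀min⟩ : ∃ k₀, g (a + k₀) ≠ g (a + j + k₀) ∧
      ∀ l < k₀, g (a + l) = g (a + j + l) := by
    refine ⟨Nat.find hex, Nat.find_spec hex, fun l hl => ?_⟩
    by_contra hne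
    exact Nat.find_min hex hl hne
  have h1 : g (a + k₀) = false ∧ g (a + j + k₀) = true := by
    have h2 := hlast (a + j) k₀ fun l hl => (hk₀min l hl).symm
    rcases Bool.eq_false_or_eq_true (g (a + k₀)) with h3 | h3 <;>
      rcases Bool.eq_false_or_eq_true (g (a + j + k₀)) with h4 | h4
    · exact absurd (h3.trans h4.symm) hk₀
    · exact absurd ⟨h4, h3⟩ h2
    · exact ⟨h3, h4⟩
    · exact absurd (h3.trans h4.symm) hk₀
  by_cases hlt : j + k₀ < p
  · exact ⟨k₀, hlt, hk₀min, h1.1, by simpa using h1.2⟩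
  · exfalso
    refine hlast (a + (p - j)) (k₀ - (p - j)) ?_ ⟨?_, ?_⟩
    · intro l hl
      have h2 := hk₀min (p - j + l) (by omega)
      rw [show a + (p - j) + l = a + (p - j + l) by omega, h2,
        show a + j + (p - j + l) = a + l + p by omega, hg]
    · rw [show a + (p - j) + (k₀ - (p - j)) = a + k₀ by omega]
      exact h1.1
    · rw [← hg, show a + (k₀ - (p - j)) + p = a + j + k₀ by omega]
      exact h1.2

end Pool.Agent.Lib.MPc41b7c.PF
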