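import Pool.Agent.Lib.MP_c41b7c_co.PF.Spec

/-!
MP_c41b7c_co, module NAP: power-free words have infinitely many blocks of length at least two.
-/

set_option autoImplicit false

namespace Pool.Agent.Lib.MPc41b7c.PF

theorem specNAP : SpecNAP := by
  intro α w hw M
  by_contra hcon
  push Not at hcon
  have h : ∀ m, M + 1 ≤ m → w (m - 1) = w m → w (m + 1) = w m :=
    fun m hm he => hcon m (by omega) (by omega) he
  by_cases hA : ∃ m, M + 1 ≤ m ∧ w (m - 1) = w m
  · obtain ⟨m, hm, he⟩ := hA
    have hc : ∀ j, w (m + j - 1) = w (m + j) := by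
      intro j
      induction j with
      | zero => exact he
      | succ j ih =>
        have h1 := h (m + j) (by omega) ih
        have e1 : m + (j + 1) - 1 = m + j := by omega
        have e2 : m + (j + 1) = m + j + 1 := by omega
        rw [e1, e2, h1]
    obtain ⟨L, hL⟩ := exists_nat_ge α
    have hp : Per w 1 (m - 1) (m - 1 + L) := by
      intro k hk _
      have h2 := hc (k - (m - 1))
      have e1 : m + (k - (m - 1)) - 1 = k := by omega
      have e2 : m + (k - (m - 1)) = k + 1 := by omega
      rw [e1, e2] at h2
      exact h2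
    have h3 := hw 1 (m - 1) L le_rfl hp
    rw [Nat.cast_one, mul_one] at h3
    linarith
  · push Not at hA
    obtain ⟨L, hL⟩ := exists_nat_ge (α * 2)
    have hp : Per w 2 M (M + L) := by
      intro k hk _
      have h1 := hA (k + 1) (by omega)
      have h2 := hA (k + 2) (by omega)
      have e1 : k + 1 - 1 = k := by omega
      have e2 : k + 2 - 1 = k + 1 := by omega
      rw [e1] at h1
      rw [e2] at h2
      cases h3 : w k <;> cases h4 : w (k + 1) <;> cases h5 : w (k + 2) <;> simp_all
    have h3 := hw 2 M L (by norm_num) hp
    push_cast at h3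
    linarith

end Pool.Agent.Lib.MPc41b7c.PF
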