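import Pool.Agent.Lib.MP_c41b7c_co.PF.SpecD

set_option autoImplicit false

namespace Pool.Agent.Lib.MPc41b7c.PF

theorem specNPW : SpecNPW := by
  intro α w hw M hM
  obtain ⟨A, hA⟩ : ∃ A, ⌈α⌉₊ = A := ⟨_, rfl⟩
  have hαA : α ≤ (A : ℝ) := by rw [← hA]; exact Nat.le_ceil α
  rw [hA]
  -- (i)
  have h1 : ∃ m₀, M ≤ m₀ ∧ m₀ < M + 2 * A ∧ w (m₀ - 1) = w m₀ := by
    by_contra hcon
    push Not at hcon
    have hper : Per w 2 (M - 1) (M - 1 + 2 * A) := by
      intro k hk1 hk2
      have e1 := hcon (k + 1) (by omega) (by omega)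
      have e2 := hcon (k + 2) (by omega) (by omega)
      rw [show k + 1 - 1 = k by omega] at e1
      rw [show k + 2 - 1 = k + 1 by omega] at e2
      cases h0 : w k <;> cases h1 : w (k + 1) <;> cases h2 : w (k + 2) <;> simp_all
    have := hw 2 (M - 1) (2 * A) (by norm_num) hper
    push_cast at this
    linarith
  obtain ⟨m₀, hm1, hm2, hm3⟩ := h1
  -- (ii)
  have h2 : ∃ j, j < A ∧ w (m₀ + j + 1) ≠ w (m₀ + j) := by
    by_contra hcon
    push Not at hcon
    have hper : Per w 1 (m₀ - 1) (m₀ - 1 + A) := by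
      intro k hk1 hk2
      rcases Nat.eq_or_lt_of_le hk1 with h | h
      · rw [← h, show m₀ - 1 + 1 = m₀ by omega]
        exact hm3
      · have e := hcon (k - m₀) (by omega)
        rw [show m₀ + (k - m₀) + 1 = k + 1 by omega, show m₀ + (k - m₀) = k by omega] at e
        exact e.symm
    have := hw 1 (m₀ - 1) A le_rfl hper
    push_cast at this
    linarith
  have h3 : ∃ j, w (m₀ + j + 1) ≠ w (m₀ + j) := by
    obtain ⟨j, _, hj⟩ := h2
    exact ⟨j, hj⟩
  classical
  obtain ⟨j0, hj0, hj0'⟩ := h2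
  have hle : Nat.find h3 ≤ j0 := Nat.find_min' h3 hj0'
  refine ⟨m₀ + Nat.find h3, by omega, by omega, ?_, Nat.find_spec h3⟩
  rcases Nat.eq_zero_or_pos (Nat.find h3) with h | h
  · rw [h]
    exact hm3
  · have e := Nat.find_min h3 (m := Nat.find h3 - 1) (by omega)
    rw [not_not] at e
    rw [show m₀ + (Nat.find h3 - 1) + 1 = m₀ + Nat.find h3 by omega] at e
    rw [show m₀ + Nat.find h3 - 1 = m₀ + (Nat.find h3 - 1) by omega]
    exact e.symm

end Pool.Agent.Lib.MPc41b7c.PF
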