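import Pool.Agent.Lib.MP_c41b7c_co.PF.Spec

/-!
# Module OVL: the Thue-Morse word has no overlaps
-/

set_option autoImplicit false

namespace Pool.Agent.Lib.MPc41b7c.PF

namespace OVLaux

/-- three consecutive letters are not equal -/
lemma not_three (a : ℕ) (h1 : tm a = tm (a + 1)) (h2 : tm (a + 1) = tm (a + 2)) : False := by
  rcases Nat.even_or_odd' a with ⟨b, rfl | rfl⟩
  · rw [tm_odd, tm_even] at h1
    cases h : tm b <;> simp [h] at h1
  · rw [show 2 * b + 1 + 1 = 2 * (b + 1) by ring, show 2 * b + 1 + 2 = 2 * (b + 1) + 1 by ring,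
      tm_even, tm_odd] at h2
    cases h : tm (b + 1) <;> simp [h] at h2

end OVLaux

theorem specOVL : SpecOVL := by
  intro p
  induction p using Nat.strong_induction_on with
  | _ p ih =>
    intro i hp hper
    have H : ∀ k, i ≤ k → k ≤ i + p → tm k = tm (k + p) := fun k h1 h2 => hper k h1 (by omega)
    rcases Nat.even_or_odd' p with ⟨q, hq | hq⟩
    · subst hq
      refine ih q (by omega) (i / 2) (by omega) ?_
      intro a ha1 ha2
      by_cases h : i ≤ 2 * a
      · have h3 := H (2 * a) h (by omega)
        rw [show 2 * a + 2 * q = 2 * (a + q) by ring, tm_even, tm_even] at h3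
        exact h3
      · have h3 := H (2 * a + 1) (by omega) (by omega)
        rw [show 2 * a + 1 + 2 * q = 2 * (a + q) + 1 by ring, tm_odd, tm_odd] at h3
        cases h4 : tm a <;> cases h5 : tm (a + q) <;> simp [h4, h5] at h3 ⊢
    · subst hq
      have E : ∀ a, i ≤ 2 * a → 2 * a ≤ i + (2 * q + 1) → tm a = !(tm (a + q)) := by
        intro a h1 h2
        have h3 := H (2 * a) h1 h2
        rw [show 2 * a + (2 * q + 1) = 2 * (a + q) + 1 by ring, tm_even, tm_odd] at h3
        exact h3
      have O : ∀ a, i ≤ 2 * a + 1 → 2 * a + 1 ≤ i + (2 * q + 1) → (!(tm a)) = tm (a + q + 1) := by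
        intro a h1 h2
        have h3 := H (2 * a + 1) h1 h2
        rw [show 2 * a + 1 + (2 * q + 1) = 2 * (a + q + 1) by ring, tm_even, tm_odd] at h3
        exact h3
      rcases Nat.eq_zero_or_pos q with h0 | h0
      · subst h0
        exact OVLaux.not_three i (H i (by omega) (by omega)) (H (i + 1) (by omega) (by omega))
      · -- `2 a + 1`, `2 a + 2` in the range
        have C1 : ∀ a, i ≤ 2 * a + 1 → 2 * a + 2 ≤ i + (2 * q + 1) → tm a = tm (a + 1) := by
          intro a h1 h2
          have h3 := O a h1 (by omega)
          have h4 := E (a + 1) (by omega) (by omega)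
          rw [show a + 1 + q = a + q + 1 by ring, ← h3, Bool.not_not] at h4
          exact h4.symm
        -- `2 a`, `2 a + 1` in the range
        have C2 : ∀ a, i ≤ 2 * a → 2 * a + 1 ≤ i + (2 * q + 1) →
            tm (a + q) = tm (a + q + 1) := by
          intro a h1 h2
          have h3 := O a (by omega) h2
          have h4 := E a h1 (by omega)
          rw [← h3, h4, Bool.not_not]
        rcases Nat.even_or_odd' i with ⟨a, ha | ha⟩
        · by_cases hq2 : 2 ≤ q
          · exact OVLaux.not_three a (C1 a (by omega) (by omega)) (C1 (a + 1) (by omega) (by omega))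
          · have hq1 : q = 1 := by omega
            subst hq1
            exact OVLaux.not_three a (C1 a (by omega) (by omega)) (C2 a (by omega) (by omega))
        · exact OVLaux.not_three a (C1 a (by omega) (by omega)) (C1 (a + 1) (by omega) (by omega))

end Pool.Agent.Lib.MPc41b7c.PF
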