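import Pool.Agent.Lib.MP_c41b7c_co.PF.SpecW

/-!
# Binary power-free words: module RB
-/

set_option autoImplicit false

namespace Pool.Agent.Lib.MPc41b7c.PF

namespace RBaux

lemma exists_k {p : ℕ} (hp : 3 ≤ p) : ∃ k, 3 * 2 ^ k ≤ p ∧ p < 3 * 2 ^ (k + 1) := by
  refine ⟨Nat.log 2 (p / 3), ?_, ?_⟩
  · have h1 : 2 ^ Nat.log 2 (p / 3) ≤ p / 3 := Nat.pow_log_le_self 2 (by omega)
    omega
  · have h1 : p / 3 < 2 ^ (Nat.log 2 (p / 3) + 1) := Nat.lt_pow_succ_log_self (by norm_num) _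
    omega

lemma one (hLB : SpecLB) (p r : ℕ) (hp : 2 ≤ p)
    (h : ∀ l < r, tm (1 + p + l) = tm (1 + l)) : 3 * (r + 1) ≤ 2 * p := by
  by_cases hp2 : p = 2
  · subst hp2
    by_contra hcon
    have h1 := h 0 (by omega)
    rw [show 1 + 2 + 0 = 3 from rfl, show 1 + 0 = 1 from rfl, tm_3, tm_1] at h1
    exact absurd h1 (by decide)
  obtain ⟨k, hk1, hk2⟩ := exists_k (show 3 ≤ p by omega)
  have hpow : 2 ^ (k + 1) = 2 * 2 ^ k := by rw [pow_succ]; ring
  obtain ⟨j₀, hj₀, hj₀'⟩ := hLB (k + 1) p (by omega) hp hk2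
  have hrj : r ≤ j₀ := by
    by_contra hcon
    exact hj₀' (h j₀ (by omega))
  omega

lemma even (hLB : SpecLB) (a r : ℕ) (ha : 2 ≤ a)
    (h : ∀ l < r, tm (2 + 2 * a + l) = tm (2 + l)) : 3 * (r + 1) ≤ 2 * (2 * a) := by
  by_cases ha2 : a = 2
  · subst ha2
    by_contra hcon
    have h1 := h 0 (by omega)
    rw [show 2 + 2 * 2 + 0 = 6 from rfl, show 2 + 0 = 2 from rfl, tm_6, tm_2] at h1
    exact absurd h1 (by decide)
  obtain ⟨k, hk1, hk2⟩ := exists_k (show 3 ≤ a by omega)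
  have hpow : 2 ^ (k + 1) = 2 * 2 ^ k := by rw [pow_succ]; ring
  obtain ⟨j₀, hj₀, hj₀'⟩ := hLB (k + 1) a (by omega) ha hk2
  have hrj : r ≤ 2 * j₀ := by
    by_contra hcon
    have h1 := h (2 * j₀) (by omega)
    rw [show 2 + 2 * a + 2 * j₀ = 2 * (1 + a + j₀) by ring,
      show 2 + 2 * j₀ = 2 * (1 + j₀) by ring, tm_even, tm_even] at h1
    exact hj₀' h1
  omega

lemma odd (p r : ℕ) (hodd : p % 2 = 1) (hp : 3 ≤ p)
    (h : ∀ l < r, tm (2 + p + l) = tm (2 + l)) : 3 * (r + 1) ≤ 2 * p := by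
  by_cases h3 : p = 3
  · subst h3
    by_contra hcon
    have h1 := h 0 (by omega)
    rw [show 2 + 3 + 0 = 5 from rfl, show 2 + 0 = 2 from rfl, tm_5, tm_2] at h1
    exact absurd h1 (by decide)
  by_cases h7 : p = 7
  · subst h7
    by_contra hcon
    have h1 := h 0 (by omega)
    rw [show 2 + 7 + 0 = 9 from rfl, show 2 + 0 = 2 from rfl, tm_9, tm_2] at h1
    exact absurd h1 (by decide)
  by_cases h5 : p = 5
  · subst h5
    by_contra hcon
    have h1 := h 1 (by omega)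
    rw [show 2 + 5 + 1 = 8 from rfl, show 2 + 1 = 3 from rfl, tm_8, tm_3] at h1
    exact absurd h1 (by decide)
  have hr4 : r ≤ 4 := by
    by_contra hcon
    obtain ⟨b, hb⟩ : ∃ b, p + 2 = 2 * b + 1 := ⟨(p + 1) / 2, by omega⟩
    have h3 := h 3 (by omega)
    have h4 := h 4 (by omega)
    rw [show 2 + p + 3 = 2 * (b + 2) by omega, show 2 + 3 = 5 from rfl, tm_even, tm_5] at h3
    rw [show 2 + p + 4 = 2 * (b + 2) + 1 by omega, show 2 + 4 = 6 from rfl, tm_odd, tm_6, h3] at h4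
    exact absurd h4 (by decide)
  omega

end RBaux

open RBaux in
/-- RB -/
theorem specRB (hLB : SpecLB) : SpecRB := by
  intro σ p r hσ hp hne h
  rcases hσ with rfl | rfl
  · exact one hLB p r hp h
  · rcases Nat.even_or_odd' p with ⟨a, ha | ha⟩
    · subst ha
      have ha1 : a ≠ 1 := by
        rintro rfl
        exact hne ⟨rfl, rfl⟩
      exact even hLB a r (by omega) h
    · exact odd p r (by omega) (by omega) h

end Pool.Agent.Lib.MPc41b7c.PF
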