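import Pool.Agent.Lib.MP_c41b7c_co.PF.Spec

/-!
# MP_c41b7c_co, module ROOT: a Lyndon root before `m`
-/

set_option autoImplicit false

namespace Pool.Agent.Lib.MPc41b7c.PF

namespace ROOTaux

/-- The periodic continuation. -/
def G (z : ℕ → Bool) (i p k : ℕ) : Bool := z (i + k % p)

lemma G_per (z : ℕ → Bool) (i p k : ℕ) : G z i p (k + p) = G z i p k := by
  unfold G; rw [Nat.add_mod_right]

lemma G_mul (z : ℕ → Bool) (i p k t : ℕ) : G z i p (k + t * p) = G z i p k := by
  unfold G; rw [Nat.add_mul_mod_self_right]

lemma per_mul {z : ℕ → Bool} {p i e : ℕ} (h : Per z p i e) :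
    ∀ t k, k + t * p < e → i ≤ k → z (k + t * p) = z k := by
  intro t
  induction t with
  | zero => intro k _ _; simp
  | succ t ih =>
    intro k h1 h2
    have e1 : k + (t + 1) * p = (k + t * p) + p := by ring
    rw [e1] at h1 ⊢
    rw [← h (k + t * p) (by omega) h1]
    exact ih k (by omega) h2

lemma G_eq {z : ℕ → Bool} {p i e : ℕ} (h : Per z p i e) (k : ℕ) (hk : i + k < e) :
    G z i p k = z (i + k) := by
  unfold G
  have h1 := Nat.mod_add_div k p
  have h2 := per_mul h (k / p) (i + k % p) (by rw [mul_comm] at h1; omega) (by omega)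
  rw [← h2]
  congr 1
  rw [mul_comm] at h1
  omega

end ROOTaux

open ROOTaux in
theorem specROOT (hMC : SpecMC) (hMIN : SpecMIN) : SpecROOT := by
  intro z σ m p i c hσ hz hm h2 hp hi hc hP h3 hq
  have hG : ∀ k, i + k < m + c → G z i p k = z (i + k) := fun k hk => G_eq hP k hk
  have hmin : ∀ q, 1 ≤ q → q < p → ∃ k, G z i p (k + q) ≠ G z i p k := by
    intro q hq1 hq2
    by_contra hcon
    push Not at hcon
    apply hq q hq1 hq2
    intro k hk1 hk2
    have e1 := hcon (k - i)
    rw [hG (k - i + q) (by omega), hG (k - i) (by omega)] at e1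
    rw [show i + (k - i + q) = k + q by omega, show i + (k - i) = k by omega] at e1
    exact e1.symm
  have lyn : ∀ a', i + a' + p ≤ m + c → Lyn (G z i p) false a' p → Lyn z false (i + a') p := by
    intro a' ha' hL j hj1 hj2
    obtain ⟨k, hk1, hk2, hk3, hk4⟩ := hL j hj1 hj2
    refine ⟨k, hk1, ?_, ?_, ?_⟩
    · intro l hl
      have := hk2 l hl
      rw [hG _ (by omega), hG _ (by omega)] at this
      rw [show i + a' + l = i + (a' + l) by omega, show i + a' + j + l = i + (a' + j + l) by omega]
      exact this
    · rw [hG _ (by omega)] at hk3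
      rw [show i + a' + k = i + (a' + k) by omega]
      exact hk3
    · rw [hG _ (by omega)] at hk4
      rw [show i + a' + j + k = i + (a' + j + k) by omega]
      exact hk4
  by_cases hcp : c ≤ p
  · obtain ⟨a', ha1, ha2, hL, -⟩ := hMIN (G z i p) p 1 (by omega) (G_per z i p) hmin
    exact ⟨i + a', by omega, by omega, lyn a' (by omega) hL⟩
  · push Not at hcp
    have hr1 : ∀ l < c - p, tm (σ + p + l) = tm (σ + l) := by
      intro l hl
      rw [← hz l, show σ + p + l = σ + (l + p) by omega, ← hz (l + p)]
      have := hP (m + l) (by omega) (by omega)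
      rw [this, add_assoc]
    have hr2 : σ = 2 → tm (σ + p - 1) = true := by
      intro h
      have e1 := hP (m - 1) (by omega) (by omega)
      rw [h2 h, show m - 1 + p = m + (p - 1) by omega, hz (p - 1)] at e1
      rw [show σ + p - 1 = σ + (p - 1) by omega]
      exact e1.symm
    obtain ⟨hrp, q, hq'⟩ := hMC σ p (c - p) hσ hp (by omega) hr1 hr2
    obtain ⟨a', ha1, ha2, hL, hM⟩ := hMIN (G z i p) p (m - i + (c - p) + 1 - 2 * p) (by omega)
      (G_per z i p) hmin
    by_cases hle : a' + p ≤ m - i
    · exact ⟨i + a', by omega, by omega, lyn a' (by omega) hL⟩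
    · exfalso
      push Not at hle
      -- a' = (m - i) - p + s'
      obtain ⟨s, hs⟩ : ∃ s, a' = (m - i) - p + s := ⟨a' - ((m - i) - p), by omega⟩
      have hs1 : 1 ≤ s := by omega
      have hs2 : s ≤ c - p := by omega
      have key : ∀ x < p, G z i p ((m - i) - p + x) = tm (σ + x) := by
        intro x hx
        rw [← G_per, hG _ (by omega), ← hz x]
        congr 1
        omega
      obtain ⟨j, hj1, hj2, hj3, hj4, hj5⟩ := hq' s hs1 hs2
      apply hM ((m - i) - p + q) j
      · intro l hl
        rw [hs, show (m - i) - p + q + l = (m - i) - p + (q + l) by omega,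
          show (m - i) - p + s + l = (m - i) - p + (s + l) by omega, key _ (by omega), key _ (by omega),
          ← add_assoc, ← add_assoc]
        exact hj3 l hl
      · rw [hs, show (m - i) - p + q + j = (m - i) - p + (q + j) by omega,
          show (m - i) - p + s + j = (m - i) - p + (s + j) by omega, key _ (by omega), key _ (by omega),
          ← add_assoc, ← add_assoc]
        exact ⟨hj4, hj5⟩

end Pool.Agent.Lib.MPc41b7c.PF
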