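import Pool.Agent.Lib.MP_c41b7c_co.PF.SpecW

/-!
# MP_c41b7c_co, module RTB: a repetition across `m`, long agreement
-/

set_option autoImplicit false

namespace Pool.Agent.Lib.MPc41b7c.PF

namespace RTBaux

/-- The periodic continuation. -/
def G (z : ℕ → Bool) (i p k : ℕ) : Bool := z (i + k % p)

lemma G_per (z : ℕ → Bool) (i p k : ℕ) : G z i p (k + p) = G z i p k := by
  unfold G; rw [Nat.add_mod_right]

lemma per_mul {z : ℕ → Bool} {p i e : ℕ} (h : Per z p i e) :
    ∀ t k, k + t * p < e → i ≤ k → z (k + t * p) = z k := by
  intro t
  induction t with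
  | zero => intro k _ _; simp
  | succ t ih =>
    intro k h1 h2
    have e1 : k + (t + 1) * p = (k + t * p) + p := by ring
    rw [e1] at h1 ⊢
    rw [← h (k + t * p) (by omega) h1]
    exact ih k (by omega) h2

lemma G_eq {z : ℕ → Bool} {p i e : ℕ} (h : Per z p i e) (k : ℕ) (hk : i + k < e) :
    G z i p k = z (i + k) := by
  unfold G
  have h1 := Nat.mod_add_div k p
  have h2 := per_mul h (k / p) (i + k % p) (by rw [mul_comm] at h1; omega) (by omega)
  rw [← h2]
  congr 1
  rw [mul_comm] at h1
  omega

lemma tm_13 : tm 13 = true := by have := tm_odd 6; rw [tm_6] at this; simpa using this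

/-- which periods are possible, `σ = 1` -/
lemma p1 (p : ℕ) (hp : 2 ≤ p) (hp' : p ≤ 11) (h0 : tm (1 + p) = true) (h1 : tm p = false)
    (h2 : tm (p - 1) = true) : p = 3 := by
  interval_cases p <;>
    simp [tm_1, tm_2, tm_3, tm_4, tm_5, tm_6, tm_7, tm_8, tm_9, tm_10, tm_11, tm_12] at h0 h1 h2 ⊢

/-- which periods are possible, `σ = 2` -/
lemma p2 (p : ℕ) (hp : 2 ≤ p) (hp' : p ≤ 11) (h0 : tm (2 + p) = true) (h1 : tm (p + 1) = true)
    (h2 : tm p = false) : p = 6 := by
  interval_cases p <;>
    simp [tm_2, tm_3, tm_4, tm_5, tm_6, tm_7, tm_8, tm_9, tm_10, tm_11, tm_12, tm_13] at h0 h1 h2 ⊢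

end RTBaux

open RTBaux in
theorem specRTB (hRB : SpecRB) (hMIN : SpecMIN) : SpecRTB := by
  intro z σ m p i c hσ hz hm h1 h2 h000 hp hi hc hP hmi h8 hq
  have hG : ∀ k, i + k < m + c → G z i p k = z (i + k) := fun k hk => G_eq hP k hk
  have hmin : ∀ q, 1 ≤ q → q < p → ∃ k, G z i p (k + q) ≠ G z i p k := by
    intro q hq1 hq2
    by_contra hcon
    push Not at hcon
    apply hq q hq1 hq2
    intro k hk1 hk2
    have e1 := hcon (k - i)
    rw [hG (k - i + q) (by omega), hG (k - i) (by omega)] at e1
    rw [show i + (k - i + q) = k + q by omega, show i + (k - i) = k by omega] at e1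
    exact e1.symm
  have lyn : ∀ a', i + a' + p ≤ m + c → Lyn (G z i p) false a' p → Lyn z false (i + a') p := by
    intro a' ha' hL j hj1 hj2
    obtain ⟨k, hk1, hk2, hk3, hk4⟩ := hL j hj1 hj2
    refine ⟨k, hk1, ?_, ?_, ?_⟩
    · intro l hl
      have := hk2 l hl
      rw [hG _ (by omega), hG _ (by omega)] at this
      rw [show i + a' + l = i + (a' + l) by omega, show i + a' + j + l = i + (a' + j + l) by omega]
      exact this
    · rw [hG _ (by omega)] at hk3
      rw [show i + a' + k = i + (a' + k) by omega]
      exact hk3
    · rw [hG _ (by omega)] at hk4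
      rw [show i + a' + j + k = i + (a' + j + k) by omega]
      exact hk4
  obtain ⟨r, hr⟩ : ∃ r, c = p + r := ⟨c - p, by omega⟩
  have hr0 : 1 ≤ r := by omega
  have hr1 : ∀ l < r, tm (σ + p + l) = tm (σ + l) := by
    intro l hl
    rw [← hz l, show σ + p + l = σ + (l + p) by omega, ← hz (l + p)]
    have := hP (m + l) (by omega) (by omega)
    rw [this, add_assoc]
  -- letters before `m`
  have hback : ∀ t, t ≤ p → z (m - p + t) = z (m + t) := by
    intro t ht
    have := hP (m - p + t) (by omega) (by omega)
    rw [this]
    congr 1
    omega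
  have hm1 : z (m - 1) = tm (σ + (p - 1)) := by
    have := hback (p - 1) (by omega)
    rw [← hz (p - 1), ← this]
    congr 1
    omega
  have hm2 : z (m - 2) = tm (σ + (p - 2)) := by
    have := hback (p - 2) (by omega)
    rw [← hz (p - 2), ← this]
    congr 1
    omega
  have hne : ¬ (σ = 2 ∧ p = 2) := by
    rintro ⟨rfl, rfl⟩
    rw [(h2 rfl).1] at hm1
    simp [tm_3] at hm1
  have hRB' := hRB σ p r hσ hp hne hr1
  have he : p + 2 ≤ m - i := by omega
  have key : ∀ x < c, G z i p ((m - i) - p + x) = tm (σ + x) := by
    intro x hx
    rw [← G_per, hG _ (by omega), ← hz x]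
    congr 1
    omega
  have ht0 : tm (σ + p) = tm σ := by
    have := hr1 0 (by omega)
    simpa using this
  by_cases hp12 : 12 ≤ p
  · right
    rcases hσ with rfl | rfl
    · refine ⟨m - p, by omega, ?_, ?_⟩
      · intro k hk
        rw [hback k (by omega), hz k]
      · rw [show 1 + (m - (m - p)) = 1 + p by omega, ht0, tm_1]
    · refine ⟨m - p - 1, by omega, ?_, ?_⟩
      · intro k hk
        rcases Nat.eq_zero_or_pos k with rfl | hk0
        · have h3 := hP (m - p - 1) (by omega) (by omega)
          rw [add_zero, add_zero, tm_1, h3, show m - p - 1 + p = m - 1 by omega]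
          exact (h2 rfl).1
        · obtain ⟨k', rfl⟩ := Nat.exists_eq_add_of_le' hk0
          rw [show m - p - 1 + (k' + 1) = m - p + k' by omega, hback k' (by omega), hz k']
          congr 1
          omega
      · rw [show 1 + (m - (m - p - 1)) = 2 + p by omega, ht0, tm_2]
  · left
    push Not at hp12
    rcases hσ with rfl | rfl
    · -- `σ = 1`
      have hp3 : p = 3 := by
        refine p1 p hp (by omega) (by rw [ht0, tm_1]) ?_ ?_
        · have := (h1 rfl).1
          rw [hm1, show 1 + (p - 1) = p by omega] at this
          exact this
        · have := (h1 rfl).2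
          rw [hm2, show 1 + (p - 2) = p - 1 by omega] at this
          exact this
      subst hp3
      have hr2 : r = 1 := by
        by_contra hcon
        have := hr1 1 (by omega)
        simp [tm_5, tm_2] at this
      obtain ⟨a', ha1, ha2, hL, hM⟩ := hMIN (G z i 3) 3 1 (by omega) (G_per z i 3) hmin
      by_cases hle : a' + 3 ≤ m - i
      · exact ⟨i + a', by omega, by omega, lyn a' (by omega) hL⟩
      · exfalso
        have e5 : m - i = 5 := by omega
        have e3 : a' = 3 := by omega
        have k1 := key 1 (by omega)
        have k2 := key 2 (by omega)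
        rw [e5] at k1 k2
        simp only [Nat.reduceAdd, Nat.reduceSub, tm_2, tm_3] at k1 k2
        apply hM 4 0
        · intro l hl
          omega
        · rw [e3]
          exact ⟨k2, k1⟩
    · -- `σ = 2`
      have hp6 : p = 6 := by
        refine p2 p hp (by omega) (by rw [ht0, tm_2]) ?_ ?_
        · have := (h2 rfl).1
          rw [hm1, show 2 + (p - 1) = p + 1 by omega] at this
          exact this
        · have := (h2 rfl).2
          rw [hm2, show 2 + (p - 2) = p by omega] at this
          exact this
      subst hp6
      have hr2 : r ≤ 2 := by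
        by_contra hcon
        have := hr1 2 (by omega)
        simp [tm_10, tm_4] at this
      by_cases he10 : 10 ≤ m - i
      · obtain ⟨a', ha1, ha2, hL, hM⟩ := hMIN (G z i 6) 6 1 (by omega) (G_per z i 6) hmin
        by_cases hle : a' + 6 ≤ m - i
        · exact ⟨i + a', by omega, by omega, lyn a' (by omega) hL⟩
        · exfalso
          have k1 := key 1 (by omega)
          have k2 := key 2 (by omega)
          have k3 := key 3 (by omega)
          have k4 := key 4 (by omega)
          simp only [Nat.reduceAdd, tm_3, tm_4, tm_5, tm_6] at k1 k2 k3 k4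
          have hs : a' = (m - i) - 6 + 1 ∨ a' = (m - i) - 6 + 2 := by omega
          rcases hs with hs | hs
          · apply hM ((m - i) - 6 + 3) 1
            · intro l hl
              have : l = 0 := by omega
              subst this
              rw [hs, add_zero, add_zero, k3, k1]
            · rw [hs]
              exact ⟨k4, k2⟩
          · apply hM ((m - i) - 6 + 3) 0
            · intro l hl
              omega
            · rw [hs, add_zero, add_zero]
              exact ⟨k3, k2⟩
      · exfalso
        have e9 : m - i = 9 := by omega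
        have hi1 : 1 ≤ i := by omega
        have f1 : z (m - 4) = true := by
          have := hback 2 (by omega)
          rw [hz 2] at this
          simp only [Nat.reduceAdd, tm_4] at this
          rw [← this]
          congr 1
          omega
        have f2 : z (m - 3) = false := by
          have := hback 3 (by omega)
          rw [hz 3] at this
          simp only [Nat.reduceAdd, tm_5] at this
          rw [← this]
          congr 1
          omega
        have g1 : z (i - 1) = false := by
          have := hmi hi1
          rw [show i - 1 + 6 = m - 4 by omega, f1] at this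
          simpa using this
        have g2 : z i = false := by
          have := hP i le_rfl (by omega)
          rw [this, show i + 6 = m - 3 by omega, f2]
        have g3 : z (i + 1) = false := by
          have := hP (i + 1) (by omega) (by omega)
          rw [this, show i + 1 + 6 = m - 2 by omega]
          exact (h2 rfl).2
        apply h000 (i - 1) (by omega)
        refine ⟨g1, ?_, ?_⟩
        · rw [show i - 1 + 1 = i by omega]
          exact g2
        · rw [show i - 1 + 2 = i + 1 by omega]
          exact g3

end Pool.Agent.Lib.MPc41b7c.PF
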