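import Pool.Agent.Lib.MP_c41b7c_co.PF.SpecW

/-!
# Module RTX: the special case of short agreement
-/

set_option autoImplicit false

namespace Pool.Agent.Lib.MPc41b7c.PF

namespace RTXaux

theorem sh (k : ℕ) : ∀ x < 2 ^ k, tm (2 ^ k + x) = !(tm x) := by
  induction k with
  | zero =>
    intro x hx
    have hx0 : x = 0 := by
      rw [pow_zero] at hx
      omega
    subst hx0
    rw [pow_zero, Nat.add_zero, tm_1, tm_zero]
    rfl
  | succ k ih =>
    intro x hx
    rw [pow_succ] at hx
    rcases Nat.even_or_odd' x with ⟨y, hy | hy⟩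
    · have hy' : y < 2 ^ k := by omega
      have h1 : 2 ^ (k + 1) + x = 2 * (2 ^ k + y) := by rw [pow_succ]; omega
      rw [h1, hy, tm_even, tm_even, ih y hy']
    · have hy' : y < 2 ^ k := by omega
      have h1 : 2 ^ (k + 1) + x = 2 * (2 ^ k + y) + 1 := by rw [pow_succ]; omega
      rw [h1, hy, tm_odd, tm_odd, ih y hy']

theorem tm_pow (k : ℕ) : tm (2 ^ k) = true := by
  have h := sh k 0 (by positivity)
  rw [Nat.add_zero, tm_zero] at h
  exact h

theorem tm_three_pow (k : ℕ) : tm (3 * 2 ^ k) = false := by
  induction k with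
  | zero => rw [pow_zero, Nat.mul_one, tm_3]
  | succ k ih =>
    have h : 3 * 2 ^ (k + 1) = 2 * (3 * 2 ^ k) := by rw [pow_succ]; omega
    rw [h, tm_even, ih]

end RTXaux

theorem specRTX : SpecRTX := by
  intro z m p i c k hz hm10 hzm hc hp2 hip hc1 hcp hper hleft hL hk hR hcc
  have hN4 : 4 ≤ 2 ^ k := by
    calc 4 = 2 ^ 2 := by norm_num
      _ ≤ 2 ^ k := Nat.pow_le_pow_right (by norm_num) hk
  have hsh := RTXaux.sh k
  have htp := RTXaux.tm_pow k
  have htp1 := RTXaux.tm_pow (k + 1)
  have ht3 := RTXaux.tm_three_pow k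
  rw [pow_succ] at htp1
  set N := 2 ^ k with hN
  -- the value of `z` from `m` on
  have hzt : ∀ y, m ≤ y → z y = tm (2 + (y - m)) := by
    intro y hy
    have h := hz (y - m)
    rwa [Nat.add_sub_cancel' hy] at h
  rcases hcc with hcc | hcc
  · have hpc : p = c := by omega
    have he : m - i = 5 * N - 3 := by omega
    have hp : p = 3 * N - 2 := by omega
    have hval : ∀ x, x < 2 * N - 1 → z (i + x) = tm (N + 1 + x) := by
      intro x hx
      have h1 : z (i + x) = z (i + x + p) := hper (i + x) (by omega) (by omega)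
      have h2 : z (i + x + p) = z (i + x + p + p) := hper (i + x + p) (by omega) (by omega)
      rw [h1, h2, hzt _ (by omega)]
      congr 1
      omega
    have h0 : z i = false := by
      have h := hval 0 (by omega)
      rw [Nat.add_zero, Nat.add_zero] at h
      rw [h, hsh 1 (by omega), tm_1]
      rfl
    have h1 : z (i + 1) = false := by
      have h := hval 1 (by omega)
      rw [h, Nat.add_assoc, hsh (1 + 1) (by omega), tm_2]
      rfl
    have hi0 : i = 0 := by
      by_contra hi
      have hne := hleft (by omega)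
      have h2 : z (i - 1 + p) = z (i - 1 + p + p) := hper (i - 1 + p) (by omega) (by omega)
      have h3 : z (i - 1 + p) = true := by
        rw [h2, hzt _ (by omega)]
        have h4 : 2 + (i - 1 + p + p - m) = N := by omega
        rw [h4, htp]
      have h5 : z (i - 1) = false := by
        rw [h3] at hne
        simpa using hne
      refine hc (i - 1) (by omega) ⟨h5, ?_, ?_⟩
      · have h6 : i - 1 + 1 = i := by omega
        rw [h6, h0]
      · have h6 : i - 1 + 2 = i + 1 := by omega
        rw [h6, h1]
    subst hi0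
    refine ⟨rfl, by omega, fun j hj => ?_, ?_⟩
    · have h := hval j (by omega)
      rw [Nat.zero_add] at h
      rw [h, Nat.add_assoc, hsh (1 + j) (by omega)]
    · have h := hval (N - 1) (by omega)
      rw [Nat.zero_add] at h
      rw [h]
      have h2 : N + 1 + (N - 1) = N * 2 := by omega
      rw [h2, htp1]
  · exfalso
    have hpc : p = c := by omega
    have h1 : z (m - 1) = z (m - 1 + p) := hper (m - 1) (by omega) (by omega)
    rw [hzm, hzt _ (by omega)] at h1
    have h2 : 2 + (m - 1 + p - m) = 3 * N := by omega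
    rw [h2, ht3] at h1
    exact absurd h1 (by simp)

end Pool.Agent.Lib.MPc41b7c.PF
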