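import Pool.Agent.Lib.MP_c41b7c_co.PF.Spec

/-!
# Module SH: the second half of the Thue-Morse word is the complement of the first
-/

set_option autoImplicit false

namespace Pool.Agent.Lib.MPc41b7c.PF

theorem specSH : SpecSH := by
  intro k
  induction k with
  | zero =>
    intro x hx
    have hx0 : x = 0 := by
      rw [pow_zero] at hx
      omega
    subst hx0
    rw [pow_zero, Nat.add_zero, tm_1, tm_zero]
    rfl
  | succ k ih =>
    intro x hx
    rw [pow_succ] at hx
    rcases Nat.even_or_odd' x with ⟨y, hy | hy⟩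
    · have hy' : y < 2 ^ k := by omega
      have h1 : 2 ^ (k + 1) + x = 2 * (2 ^ k + y) := by rw [pow_succ]; omega
      rw [h1, hy, tm_even, tm_even, ih y hy']
    · have hy' : y < 2 ^ k := by omega
      have h1 : 2 ^ (k + 1) + x = 2 * (2 ^ k + y) + 1 := by rw [pow_succ]; omega
      rw [h1, hy, tm_odd, tm_odd, ih y hy']

end Pool.Agent.Lib.MPc41b7c.PF
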