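import Mathlib

/-!
# Binary power-free words (MP_c41b7c_co): specification (captain helper93)

THEOREM. For every real `α ≥ 3` the set of the infinite binary words without factors of exponent at
least `α` (no factor of length `L` with a period `p`, `L ≥ α p`) is nonempty and perfect. (`α = 3`: the cube
free words.)

IDEA. Suppose `w` is isolated: it is determined by its first `n` letters. For `m ≥ n` replace the letters
from `m` on by a tail of the Thue-Morse word which starts with the other letter (`ext w m`). The new word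
has a factor of exponent `≥ α`; take one with the smallest period `p`. Inside this long repetition, before
`m`, there is a Lyndon rotation `w[a..a+p)` of the root (with `w m` as the smaller letter): `Hit w m a p`. The
start `a` is a block start, and it determines `m` (UNI). So the number of the good positions `m < N` is at
most the number of the blocks of `w[0..N)`. Counting gives a contradiction.

Every module `XXX` is a file `Pool/Agent/Lib/MP_c41b7c_co/PF/XXX.lean` which imports this file and proves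
`theorem specXXX (hypotheses = deps, in the order given) : SpecXXX` in the namespace
`Pool.Agent.Lib.MPc41b7c.PF`, with its auxiliary declarations in the namespace `XXXaux`.
-/

set_option autoImplicit false

namespace Pool.Agent.Lib.MPc41b7c.PF

/-- `w[i..j)` has the period `p`. -/
def Per (w : ℕ → Bool) (p i j : ℕ) : Prop := ∀ k, i ≤ k → k + p < j → w k = w (k + p)

/-- No factor of `w` has exponent at least `α`: a factor of length `L` with a period `p ≥ 1` has
`L < α p`. -/
def PowFree (α : ℝ) (w : ℕ → Bool) : Prop :=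
  ∀ p i L : ℕ, 1 ≤ p → Per w p i (i + L) → (L : ℝ) < α * p

/-- The Thue-Morse word `0110100110010110...`. -/
def tm (n : ℕ) : Bool :=
  if h : n = 0 then false else if n % 2 = 0 then tm (n / 2) else !(tm (n / 2))
termination_by n
decreasing_by all_goals omega

lemma tm_zero : tm 0 = false := by rw [tm]; simp

lemma tm_even (n : ℕ) : tm (2 * n) = tm n := by
  by_cases h : n = 0
  · subst h; rfl
  · rw [tm]
    have h1 : ¬ 2 * n = 0 := by omega
    have h2 : 2 * n % 2 = 0 := by omega
    have h3 : 2 * n / 2 = n := by omega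
    simp only [h1, h2, h3, dite_false, if_true]

lemma tm_odd (n : ℕ) : tm (2 * n + 1) = !(tm n) := by
  rw [tm]
  have h1 : ¬ 2 * n + 1 = 0 := by omega
  have h2 : ¬ (2 * n + 1) % 2 = 0 := by omega
  have h3 : (2 * n + 1) / 2 = n := by omega
  simp only [h1, h2, h3, dite_false, if_false]

lemma tm_1 : tm 1 = true := by have := tm_odd 0; rw [tm_zero] at this; simpa using this
lemma tm_2 : tm 2 = true := by have := tm_even 1; rw [tm_1] at this; simpa using this
lemma tm_3 : tm 3 = false := by have := tm_odd 1; rw [tm_1] at this; simpa using this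
lemma tm_4 : tm 4 = true := by have := tm_even 2; rw [tm_2] at this; simpa using this
lemma tm_5 : tm 5 = false := by have := tm_odd 2; rw [tm_2] at this; simpa using this
lemma tm_6 : tm 6 = false := by have := tm_even 3; rw [tm_3] at this; simpa using this
lemma tm_7 : tm 7 = true := by have := tm_odd 3; rw [tm_3] at this; simpa using this
lemma tm_8 : tm 8 = true := by have := tm_even 4; rw [tm_4] at this; simpa using this
lemma tm_9 : tm 9 = false := by have := tm_odd 4; rw [tm_4] at this; simpa using this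
lemma tm_10 : tm 10 = false := by have := tm_even 5; rw [tm_5] at this; simpa using this
lemma tm_11 : tm 11 = true := by have := tm_odd 5; rw [tm_5] at this; simpa using this
lemma tm_12 : tm 12 = false := by have := tm_even 6; rw [tm_6] at this; simpa using this

/-- `w[a..a+p)` is a Lyndon word if `b` is the smaller letter: it is smaller than all its proper
suffixes, and the difference is inside the suffix. -/
def Lyn (w : ℕ → Bool) (b : Bool) (a p : ℕ) : Prop :=
  ∀ j, 0 < j → j < p → ∃ k, j + k < p ∧ (∀ l < k, w (a + l) = w (a + j + l)) ∧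
    w (a + k) = b ∧ w (a + j + k) = !b

/-- `1` if `m` is inside a block of `w`, `2` if a block ends at `m`. -/
def sg (w : ℕ → Bool) (m : ℕ) : ℕ := if w (m - 1) = w m then 1 else 2

/-- The word which agrees with `w` before `m` and goes on with the tail `T(σ), T(σ+1), ..` of the
Thue-Morse word (`σ = sg w m`), normalized such that the letter at `m` is not `w m`. -/
def ext (w : ℕ → Bool) (m : ℕ) : ℕ → Bool :=
  fun k => if k < m then w k else xor (w m) (tm (sg w m + (k - m)))

/-- The position `m` is good: it is inside a block, or the block which ends at `m` has length less than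
`α - 1`. -/
def Ok (α : ℝ) (w : ℕ → Bool) (m : ℕ) : Prop :=
  w (m - 1) = w m ∨ ∀ L ≤ m, Per w 1 (m - L) m → (L : ℝ) + 1 < α

/-- The Lyndon root of a repetition across `m` in `ext w m` starts at `a`. -/
def Hit (w : ℕ → Bool) (m a p : ℕ) : Prop :=
  2 ≤ p ∧ a + p ≤ m ∧ Lyn w (w m) a p ∧
    ∃ i c, i < a ∧ 1 ≤ c ∧ Per (ext w m) p i (m + c) ∧ 3 * p ≤ (m - i) + c

/-! ### the Thue-Morse word -/

/-- **OVL** (size 80, no deps): the Thue-Morse word has no overlaps.

PROOF. Strong induction on `p`. Let `tm k = tm (k + p)` for `i ≤ k ≤ i + p`. (0) `tm a = tm (a + 1) =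
tm (a + 2)` is impossible: `a` or `a + 1` is `2 b` and `tm (2 b) ≠ tm (2 b + 1)`. (1) `p = 2 q`: with `b = i / 2`
the values `a = b, .., b + q` are `k / 2` for some `k` in the range, so `tm a = tm (a + q)`: an overlap with
period `q < p`. (2) `p = 1` is (0). (3) `p = 2 q + 1 ≥ 3`: `k = 2 a` in the range gives `tm a = ! tm (a + q)`,
`k = 2 a + 1` in the range gives `! tm a = tm (a + q + 1)`. So if `2 a + 1, 2 a + 2` are in the range then
`tm a = tm (a + 1)`; if `2 a, 2 a + 1` are in the range then `tm (a + q) = tm (a + q + 1)`. If `p ≥ 5`, or `i` is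
odd, then `2 a + 1, .., 2 a + 4` are in the range for some `a`, so `tm a = tm (a + 1) = tm (a + 2)`. If `p = 3`
(`q = 1`) and `i = 2 a`: `tm (a + 1) = tm (a + 2)` and `tm a = tm (a + 1)`. -/
def SpecOVL : Prop := ∀ p i : ℕ, 1 ≤ p → ¬ Per tm p i (i + (2 * p + 1))

/-- **SH** (size 30, no deps): the second half is the complement.

PROOF. Induction on `k` (`k = 0`: `x = 0`); `x = 2 y` or `x = 2 y + 1`, `2 ^ (k + 1) + x = 2 (2 ^ k + y) (+ 1)`. -/
def SpecSH : Prop := ∀ k x : ℕ, x < 2 ^ k → tm (2 ^ k + x) = !(tm x)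

/-- **LA** (size 80, no deps): the tail from `s ≤ 2 ^ k` is larger than the complement of the tail from `1`,
and the first difference is early.

PROOF. Induction on `k`. `k = 1`: `s = 1, 2`, `j = 0`. Step to `k + 1`: `s` even: if `tm s = true`, `j = 0`;
otherwise `tm (s + 1) = true` and `j = 1` (`tm 2 = true`, `! tm 1 = false = tm s`). `s = 2 a + 1` odd: if
`tm s = true`, `j = 0`. Otherwise (`a ≥ 0`, `a + 1 ≤ 2 ^ k`) let `j'` be given by the induction hypothesis for
`a + 1`; `j = 1 + 2 j'`: the pairs `(tm (s + 1 + 2 l), tm (s + 2 + 2 l)) = (tm (a + 1 + l), ! tm (a + 1 + l))`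
are compared with `(! tm (2 + 2 l), ! tm (3 + 2 l)) = (! tm (1 + l), tm (1 + l))`. -/
def SpecLA : Prop :=
  ∀ k s : ℕ, 1 ≤ k → 1 ≤ s → s ≤ 2 ^ k → ∃ j < 2 ^ (k - 1),
    (∀ l < j, tm (s + l) = !(tm (1 + l))) ∧ tm (s + j) = true ∧ tm (1 + j) = true

/-- **LB** (size 60, no deps): the tails from `1 + p` and from `1` differ early.

PROOF. Induction on `k`. `p` odd: `tm (1 + p), tm (2 + p)` differ and `tm 1 = tm 2`, so `j ≤ 1`. `p = 2 a` even:
if `tm (1 + p) = false`, `j = 0`; this is the case for `p = 2` and `p = 4` (`tm 3 = tm 5 = false`). Otherwise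
`a ≥ 2`; if `k = 1` then `a = 2`, so `k ≥ 2` and `a < 3 * 2 ^ (k - 1)`; take `j'` for `a` and `k - 1`, `j = 1 + 2 j'`:
`tm (1 + 2 a + 1 + 2 j') = tm (1 + a + j')`, `tm (1 + 1 + 2 j') = tm (1 + j')`. -/
def SpecLB : Prop :=
  ∀ k p : ℕ, 1 ≤ k → 2 ≤ p → p < 3 * 2 ^ k → ∃ j < 2 ^ k, tm (1 + p + j) ≠ tm (1 + j)

/-- **MC** (size 150, deps SH, LA, LB): the missing classes do not contain the smallest rotation.

PROOF. For `p ≥ 3` there is `k ≥ 1` with `3 * 2 ^ (k - 1) ≤ p < 3 * 2 ^ k`.
`σ = 1`: `p = 2` is impossible (`tm 3 ≠ tm 1`). By LB `r < 2 ^ k`. Take `q = 2 ^ k`; for `1 ≤ s ≤ r` let `j` be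
given by LA for `s + 1 ≤ 2 ^ k`; SH: `tm (1 + q + l) = ! tm (1 + l)` for `l ≤ j < 2 ^ (k - 1)`.
`σ = 2`, `p` even: `p = 2` is impossible (`tm 3 = false`), `p = 4` is impossible (`tm 6 ≠ tm 2`), so `p = 2 a ≥ 6`
and `k ≥ 2`. By LB for `a` and `k - 1` there is `j < 2 ^ (k - 1)` with `tm (2 + p + 2 j) = tm (1 + a + j) ≠
tm (1 + j) = tm (2 + 2 j)`, so `r ≤ 2 j ≤ 2 ^ k - 2`. Take `q = 2 ^ k - 1`, and LA for `s + 2 ≤ 2 ^ k`.
`σ = 2`, `p` odd: `p = 3`: `tm 5 ≠ tm 2`; `p = 5`: `tm 6 = false`; `p = 7`: `tm 9 ≠ tm 2`; `p = 9`: `tm 10 = false`. So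
`p ≥ 11`. `r ≤ 4`: otherwise with `p + 2 = 2 b + 1`: `tm (2 b + 4) = tm (b + 2) = tm 5 = false` and
`tm (2 b + 5) = ! tm (b + 2) = tm 6 = false`. Take `q = 7` (`tm 9, .., tm 12 = 0010`), and `j = 1, 0, 3, 1` for
`s = 1, 2, 3, 4` (`tm 3, .. = 01`, `tm 4 = 1`, `tm 5, .. = 0011`, `tm 6, .. = 01`). -/
def SpecMC : Prop :=
  ∀ σ p r : ℕ, (σ = 1 ∨ σ = 2) → 2 ≤ p → 1 ≤ r → (∀ l < r, tm (σ + p + l) = tm (σ + l)) →
    (σ = 2 → tm (σ + p - 1) = true) →
    r < p ∧ ∃ q, ∀ s, 1 ≤ s → s ≤ r → ∃ j, q + j < p ∧ s + j < p ∧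
      (∀ l < j, tm (σ + q + l) = tm (σ + s + l)) ∧ tm (σ + q + j) = false ∧
      tm (σ + s + j) = true

/-! ### Lyndon roots -/

/-- **MIN** (size 120, no deps): the smallest rotation.

PROOF. Let `a ∈ [s, s + p)` be such that `toLex (fun k => g (a + k))` (`Lex (ℕ → Bool)`, a linear order) is
minimal (`Finset.exists_min_image`); by periodicity it is minimal for all starts `b : ℕ`. This is the last
claim (`Pi.Lex`: the order is given by the first difference). `Lyn`: let `0 < j < p`. The tails from `a` and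
`a + j` are not equal (otherwise `g (k + j) = g k` for `k ≥ a`, so for all `k` by periodicity), so there is a
first difference `k₀`, with `g (a + k₀) = false`, `g (a + j + k₀) = true`. If `j + k₀ < p`, done. Otherwise put
`b = a + (p - j)`, `k = k₀ - (p - j)`: for `l < k`, `g (b + l) = g (a + (p - j + l)) = g (a + p + l) = g (a + l)`,
and `g (b + k) = g (a + k₀) = false`, `g (a + k) = g (a + p + k) = g (a + j + k₀) = true`: against the
minimality. -/
def SpecMIN : Prop :=
  ∀ (g : ℕ → Bool) (p s : ℕ), 1 ≤ p → (∀ k, g (k + p) = g k) →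
    (∀ q, 1 ≤ q → q < p → ∃ k, g (k + q) ≠ g k) →
    ∃ a, s ≤ a ∧ a < s + p ∧ Lyn g false a p ∧
      ∀ b k, (∀ l < k, g (b + l) = g (a + l)) → ¬ (g (b + k) = false ∧ g (a + k) = true)

/-- **ROOT** (size 120, deps MC, MIN): a Lyndon root before `m`.

PROOF. `e = m - i`, `G k = z (i + k % p)`; then `G (k + p) = G k`, and `G k = z (i + k)` for `k < e + c` (by `Per`).
If `1 ≤ q < p` and `G (k + q) = G k` for all `k`, then `Per z q i (m + c)`, against the hypothesis.
Case `c ≤ p`: `2 p ≤ e`. MIN with `s = 1` gives `a' ∈ [1, p]`; `a = i + a'`.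
Case `c > p`: `r = c - p`; `tm (σ + l) = z (m + l) = z (m + l + p) = tm (σ + p + l)` for `l < r`, and if `σ = 2`,
`true = z (m - 1) = z (m - 1 + p) = tm (σ + p - 1)`. MC applies: `r < p`, `q`. `2 p ≤ e + r`. MIN with
`s = e + r + 1 - 2 p ≥ 1` gives `a' ∈ [s, e + r - p]`. If `a' ≤ e - p`, put `a = i + a'`. Otherwise
`a' = e - p + s'` with `1 ≤ s' ≤ r`; for `x < p`, `G (e - p + x) = z (m - p + x) = z (m + x) = tm (σ + x)`; the `j` of
MC for `s'` contradicts the minimality (`b = e - p + q`). -/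
def SpecROOT : Prop :=
  ∀ (z : ℕ → Bool) (σ m p i c : ℕ), (σ = 1 ∨ σ = 2) → (∀ k, z (m + k) = tm (σ + k)) → 1 ≤ m →
    (σ = 2 → z (m - 1) = true) → 2 ≤ p → i + p ≤ m → 1 ≤ c → Per z p i (m + c) →
    3 * p ≤ (m - i) + c → (∀ q, 1 ≤ q → q < p → ¬ Per z q i (m + c)) →
    ∃ a, i < a ∧ a + p ≤ m ∧ Lyn z false a p

/-- **UNI** (size 40, no deps): the start determines the root and its end.

PROOF. If `p < p'`: `Lyn w b a p'` for `j = p` gives `k` with `w (a + l) = w (a + p + l)` for `l < k`, `w (a + k) = b`,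
`w (a + p + k) = !b`. Let `K = m - p - a`. For `l < K`, `w (a + l) = w (a + p + l)`, and `w (a + K) = !b`,
`w (a + p + K) = b`. Each of `k < K`, `k = K`, `k > K` is impossible. `p' < p` is symmetric. If `p = p'` and
`m < m'` then `w (m - p) = w m` by `Per w p' a m'`, impossible; `m' < m` is symmetric. -/
def SpecUNI : Prop :=
  ∀ (w : ℕ → Bool) (b : Bool) (a p m p' m' : ℕ), a + p ≤ m → a + p' ≤ m' → 1 ≤ p → 1 ≤ p' →
    Per w p a m → Per w p' a m' → Lyn w b a p → Lyn w b a p' → w m = b → w m' = b →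
    w (m - p) = !b → w (m' - p') = !b → p = p' ∧ m = m'

/-- **HF** (size 60, no deps): facts on hits.

PROOF. `Per (ext w m) p i (m + c)` gives `Per w p i m` (`ext w m k = w k` for `k < m`), and for `k = m - p`:
`w (m - p) = ext w m m = xor (w m) (tm (sg w m)) = !(w m)` (`sg` is `1` or `2`, `tm 1 = tm 2 = true`). `Lyn` for
`j = p - 1`: `k = 0`, so `w (a + (p - 1)) = !(w m)`, and `w a = w m`. `w (a - 1) = w (a - 1 + p) = !(w m)`. -/
def SpecHF : Prop :=
  ∀ (w : ℕ → Bool) (m a p : ℕ), Hit w m a p →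
    1 ≤ a ∧ a < m ∧ w a = w m ∧ w (a - 1) ≠ w a ∧ Per w p a m ∧ w (m - p) = !(w m)

/-- **BLK** (size 150, deps OVL, ROOT): a good position with a bad extension is hit.

PROOF. `x = ext w m`. There are `p, i, L` with `1 ≤ p`, `Per x p i (i + L)`, `α p ≤ L`; take `p` minimal
(`Nat.find`). `i + L > m`, otherwise `Per w p i (i + L)`. `i < m`, otherwise `tm` has an overlap (`L ≥ 3 p`;
`x k = xor (w m) (tm (σ + (k - m)))`). Put `c = i + L - m ≥ 1`. `c ≤ 2 p`, otherwise `x[m..m+2p+1)` gives an
overlap in `tm`. So `m - i = L - c ≥ α p - 2 p ≥ p`. `p ≠ 1`: if `sg w m = 1`, `w m = w (m - 1) = x (m - 1) = x m =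
!(w m)`. If `sg w m = 2`, `c ≥ 2` would give `x m = x (m + 1)`, i.e. `tm 2 = tm 3`; so `c = 1` and
`Per w 1 i m` with `m - i = L - 1`, and by `Ok` (its first alternative is `sg w m = 1`) `L < α`. Now `q < p` with
`Per x q i (m + c)` contradicts the minimality of `p`. ROOT with `z k = xor (w m) (x k)`, `σ = sg w m` gives `a`
(`z (m + k) = tm (σ + k)`; if `σ = 2`, `w (m - 1) = !(w m)`, so `z (m - 1) = true`; `Per z q = Per x q`);
`Lyn z false a p` is `Lyn w (w m) a p`. -/
def SpecBLK : Prop :=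
  ∀ (α : ℝ) (w : ℕ → Bool) (m : ℕ), 3 ≤ α → PowFree α w → 1 ≤ m → Ok α w m →
    ¬ PowFree α (ext w m) → ∃ a p, Hit w m a p

/-! ### counting -/

/-- The positions where a block starts. -/
def St (w : ℕ → Bool) (m : ℕ) : Prop := 1 ≤ m ∧ w (m - 1) ≠ w m

/-- **INJ** (size 40, deps UNI, HF): the hits are injective; counted. For every finite set `S` of hit
positions `m ∈ S` (with starts in `T`) `S.card ≤ T.card`.

PROOF. `S → T`, `m ↦ f m` with `Hit w m (f m) (p m)`, is injective: if `f m = f m' = a` then `w m = w a = w m'`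
(HF), and UNI applies with `b = w a`. `Finset.card_le_card_of_injOn`. -/
def SpecINJ : Prop :=
  ∀ (w : ℕ → Bool) (S T : Finset ℕ), (∀ m ∈ S, ∀ a p, Hit w m a p → a ∈ T) →
    (∀ m ∈ S, ∃ a p, Hit w m a p) → S.card ≤ T.card

/-- **NAP** (size 60, no deps): power-free words have infinitely many blocks of length at least two.

PROOF. Suppose no `m ≥ M + 1` satisfies the claim. If some `m ≥ M + 1` has `w (m - 1) = w m` then `w (m + 1) = w m`,
and by induction `w` is constant from `m - 1` on: `Per w 1 (m - 1) (m - 1 + L)` for all `L`, a contradiction for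
`L ≥ α`. Otherwise `w` alternates from `M` on, so `Per w 2 M (M + L)` for all `L`. -/
def SpecNAP : Prop :=
  ∀ (α : ℝ) (w : ℕ → Bool), PowFree α w → ∀ M : ℕ, ∃ m, M ≤ m ∧ 1 ≤ m ∧
    w (m - 1) = w m ∧ w (m + 1) ≠ w m

/-- **CNT** (size 120, deps HF, INJ, NAP): the contradiction for `α > 3`.

PROOF. Let `A' m` be `w (m - 1) = w m ∧ w (m + 1) ≠ w m`. For `N` let `S` be the set of the good `m ∈ [n, N)` and `T` the
set of the `a ∈ [1, N)` with `St w a`. INJ (with HF): `S.card ≤ T.card`. On the other hand the map `φ` from the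
disjoint union of `D = {m ∈ [n + 2, N) | St w m}` and `A = {m ∈ [n, N) | A' m}` into `S`: for `m ∈ A`, `φ m = m`; for
`m ∈ D`, `φ m = m - 2` if `w (m - 3) = w (m - 2) = w (m - 1)`, and `φ m = m` otherwise (then `m` is good:
`Per w 1 (m - L) m` implies `L ≤ 2`, and `L + 1 ≤ 3 < α`), is injective (in the first case `m - 2` is inside a
block, and `w (m - 1) = w (m - 2)`, so it is not in `A`, and it is not a start). So `D.card + A.card ≤ T.card ≤
D.card + (n + 1)`, and `A.card ≤ n + 1` for all `N`, against NAP. -/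
def SpecCNT : Prop :=
  ∀ (α : ℝ) (w : ℕ → Bool), 3 < α → PowFree α w → ∀ n, 1 ≤ n →
    (∀ m, n ≤ m → Ok α w m → ∃ a p, Hit w m a p) → False

/-- **DFS** (captain): infinitely many block starts are not hit. -/
def SpecDFS : Prop :=
  ∀ w : ℕ → Bool, PowFree 3 w → ∀ M : ℕ, ∃ a, M ≤ a ∧ St w a ∧ ∀ m p, ¬ Hit w m a p

/-- **CN3** (size 100, deps HF, INJ, DFS): the contradiction for `α = 3`.

PROOF. Let `U a` be `St w a ∧ ∀ m p, ¬ Hit w m a p`. For `N` let `S` be the set of the good `m ∈ [n, N)` and `T` the set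
of the `a ∈ [1, N)` with `St w a ∧ ¬ U a`. INJ (with HF): `S.card ≤ T.card`. The map from
`D = {m ∈ [n + 1, N) | St w m}` to `S`, `m ↦ m` if `w (m - 2) ≠ w (m - 1)` (then `m` is good: `Per w 1 (m - L) m`
implies `L ≤ 1`), `m ↦ m - 1` otherwise (then `m - 1` is inside a block), is injective. So
`D.card ≤ T.card = {a ∈ [1, N) | St w a}.card - {a ∈ [1, N) | U a}.card ≤ D.card + n - {a ∈ [1, N) | U a}.card`, and the
last set has at most `n` elements for all `N`, against DFS. -/
def SpecCN3 : Prop :=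
  ∀ w : ℕ → Bool, PowFree 3 w → ∀ n, 1 ≤ n →
    (∀ m, n ≤ m → Ok 3 w m → ∃ a p, Hit w m a p) → False

/-! ### topology -/

/-- **ISO** (size 60, no deps): isolated points.

PROOF. `Perfect`: closed and `Preperfect`: every point is an accumulation point of the set. Closed: the
complement is open: if `Per x p i (i + L)`, `L ≥ α p`, the same holds for all `w` which agree with `x` on
`[0, i + L)` (a cylinder, a finite intersection of the open sets `{w | w k = x k}`). Preperfect: let `w` be in the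
set and `U` a neighbourhood; `U` contains a cylinder `{w' | ∀ k < n, w' k = w k}`, `1 ≤ n`; the hypothesis gives
another point of the set in it. -/
def SpecISO : Prop :=
  ∀ α : ℝ, (∀ w, PowFree α w → ∀ n, 1 ≤ n → ∃ w', PowFree α w' ∧ w' ≠ w ∧ ∀ k < n, w' k = w k) →
    Perfect {w : ℕ → Bool | PowFree α w}

/-- **FIN** (size 60, deps OVL, BLK, CNT, CN3, ISO): the theorem.

PROOF. Nonempty: `tm` (OVL: `Per tm p i (i + L)` with `L ≥ 3 p ≥ 2 p + 1` is impossible). Perfect: by ISO; if `w`, `n`
have no `w'`, then for every `m ≥ n` the word `ext w m` agrees with `w` before `m` and differs at `m`, so it is not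
power-free; BLK gives hits for all good `m ≥ n`; CNT or CN3. -/
def SpecFIN : Prop :=
  ∀ α : ℝ, 3 ≤ α → {w : ℕ → Bool | PowFree α w}.Nonempty ∧ Perfect {w : ℕ → Bool | PowFree α w}

end Pool.Agent.Lib.MPc41b7c.PF
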