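import Pool.Agent.Lib.MP_c41b7c_co.PF.SpecW

/-!
# Binary power-free words (MP_c41b7c_co): quantitative perfectness (captain helper93)

THEOREM. Let `α > 8/3` be real, `K = 3 ⌈α⌉ + 33`, and let the infinite binary word `w` have no factor of exponent
`≥ α`. For all `n`, `N`:
(1) at least `N / K - 2 n - 23` of the `m ∈ [n, N)` are such that another word without such factors agrees with `w`
before `m` and differs from `w` at `m`;
(2) at least `2 ^ (N / K - 2 n - 23)` words of length `N` are prefixes of words without such factors which agree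
with `w` before `n`.
(Positive lower density of the branching positions on EVERY branch, and exponential growth in EVERY cylinder.)

IDEA. The counting of `PF/CNT.lean`, `PF/CN3.lean`, `PF/CN2.lean` with the free positions kept: a position `m` is
free if `ext w m` is power-free. The other good positions are charged to different block starts, and there are
starts (or good positions) to spare in every window of bounded length. (2) follows from (1) by counting in a tree.

Modules: file `PF/XXX.lean`, `theorem specXXX (deps) : SpecXXX`, namespace `Pool.Agent.Lib.MPc41b7c.PF`, auxiliary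
declarations in `XXXaux`; import only this file (or also the old module which is adapted). The specs of the old
modules (`SpecHF`, `SpecINJ`, `SpecBLK`, ..) are hypotheses.
-/

set_option autoImplicit false

namespace Pool.Agent.Lib.MPc41b7c.PF

open Classical in
/-- The free positions in `[n, N)`. -/
noncomputable def Fc (α : ℝ) (w : ℕ → Bool) (n N : ℕ) : Finset ℕ :=
  (Finset.Ico n N).filter fun m => PowFree α (ext w m)

/-- A block start which is not hit (exponent `8/3`) and not two steps after a long Thue-Morse prefix. -/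
def Va (w : ℕ → Bool) (a : ℕ) : Prop :=
  (St w a ∧ ∀ m p, ¬ Hit2 w m a p) ∧ ¬ ∃ m, 2 ≤ a ∧ BadAt w (a - 2) m

/-- **UHW** (captain): block starts without a hit in every window of length `39`. -/
def SpecUHW : Prop :=
  ∀ w : ℕ → Bool, PowFree 3 w → ∀ M : ℕ,
    (∃ a, M ≤ a ∧ a < M + 39 ∧ St w a ∧ ∀ m p, ¬ Hit w m a p) ∧
      ∃ a, M ≤ a ∧ a < M + 39 ∧ St w a ∧ ∀ m p, ¬ Hit2 w m a p

open Classical in
/-- **CDA** (size 120, deps HF, INJ, BLK; adapt `PF/CNT.lean`): `α > 3`.

PROOF. `A' m`: `w (m - 1) = w m ∧ w (m + 1) ≠ w m`. `S` = the good `m ∈ [n, N)`, `S = Fc ∪ S'` where for `m ∈ S'` `ext w m` is not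
power-free, so `m` is hit by BLK; `S'.card ≤ T.card`, `T = {a ∈ [1, N) | St w a}` (INJ; `1 ≤ a < m` and `St` by HF). As in
CNT, with `D = {m ∈ [n + 2, N) | St w m}`, `A = {m ∈ [n, N) | A' m}`: `D.card + A.card ≤ S.card`, and `T.card ≤ D.card + (n + 1)`.
So `A.card ≤ Fc.card + n + 1`, and `[1, N)` has at most `n` more elements with `A'`. -/
def SpecCDA : Prop :=
  ∀ (α : ℝ) (w : ℕ → Bool), 3 < α → PowFree α w → ∀ n N : ℕ, 1 ≤ n →
    ((Finset.Ico 1 N).filter fun m => w (m - 1) = w m ∧ w (m + 1) ≠ w m).card ≤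
      (Fc α w n N).card + 2 * n + 2

open Classical in
/-- **CDB** (size 100, deps HF, INJ, BLK; adapt `PF/CN3.lean`): `α = 3`.

PROOF. `U a`: `St w a ∧ ∀ m p, ¬ Hit w m a p`. `S = Fc ∪ S'` as in CDA, `S'.card ≤ T.card`, `T = {a ∈ [1, N) | St w a ∧ ¬ U a}`,
`D = {m ∈ [n + 1, N) | St w m}`, `D.card ≤ S.card` as in CN3, `{a ∈ [1, N) | St w a}.card ≤ D.card + n`. So
`{a ∈ [1, N) | U a}.card ≤ D.card + n - T.card ≤ Fc.card + n`. -/
def SpecCDB : Prop :=
  ∀ w : ℕ → Bool, PowFree 3 w → ∀ n N : ℕ, 1 ≤ n →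
    ((Finset.Ico 1 N).filter fun a => St w a ∧ ∀ m p, ¬ Hit w m a p).card ≤
      (Fc 3 w n N).card + 2 * n + 2

/-- **EX1** (size 30, no deps; adapt `PF/EXC.lean`): there is at most one exceptional position.

PROOF. Let `k`, `k'` belong to `m`, `m'`. `w 0 = xor b true = xor b' true`, so `b = b'`. If `k < k'` then at
`2 ^ k - 1 < 2 ^ k' - 1`: `w = xor b (tm (2 ^ k))` by `k'`, against `k`. -/
def SpecEX1 : Prop := ∀ (w : ℕ → Bool) (m m' : ℕ), Exc w m → Exc w m' → m = m'

open Classical in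
/-- **CDC** (size 180, deps UNI, HF2, D2, B2, EX1; adapt `PF/CN2.lean`): `8/3 < α ≤ 3`.

PROOF. `S` = the good `m ∈ [n, N)`: `m ∈ Fc`, or by B2 hit, or bad, or exceptional (at most one, EX1). The hit and the
bad ones are at most `T.card`, `T = {a ∈ [1, N) | St w a ∧ ¬ Va w a}`, by the injection of CN2. `D.card ≤ S.card ≤
Fc.card + T.card + 1`, `{a ∈ [1, N) | St w a}.card ≤ D.card + n`. So `{a ∈ [1, N) | Va w a}.card ≤ Fc.card + n + 1`. -/
def SpecCDC : Prop :=
  ∀ (α : ℝ) (w : ℕ → Bool), 8 / 3 < α → α ≤ 3 → PowFree α w → ∀ n N : ℕ, 10 ≤ n →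
    ((Finset.Ico 1 N).filter fun a => Va w a).card ≤ (Fc α w n N).card + 2 * n + 2

/-- **VWN** (size 40, deps D2, UHW): `Va` in every window of length `41`. PROOF. As (2) of CN2 (`exists_VV` in
`PF/CN2.lean`): take `a` from UHW; if not `Va w a`, `BadAt w (a - 2) m`, and `a + 2` satisfies `Va` by D2. -/
def SpecVWN : Prop :=
  ∀ w : ℕ → Bool, PowFree 3 w → ∀ M : ℕ, ∃ a, M ≤ a ∧ a < M + 41 ∧ Va w a

/-- **NPW** (size 80, no deps): ends of blocks of length at least two in every window.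

PROOF. `A = ⌈α⌉₊`, `α ≤ A`. (i) Some `m₀ ∈ [M, M + 2 A)` has `w (m₀ - 1) = w m₀`: otherwise `w` alternates and
`Per w 2 (M - 1) (M - 1 + 2 A)`, so `2 A < 2 α`. (ii) Some `j < A` has `w (m₀ + j + 1) ≠ w (m₀ + j)`: otherwise
`Per w 1 (m₀ - 1) (m₀ - 1 + A)`, so `A < α`. Take the least `j` (`Nat.find`), `m = m₀ + j`. -/
def SpecNPW : Prop :=
  ∀ (α : ℝ) (w : ℕ → Bool), PowFree α w → ∀ M : ℕ, 1 ≤ M →
    ∃ m, M ≤ m ∧ m < M + (3 * ⌈α⌉₊ + 3) ∧ w (m - 1) = w m ∧ w (m + 1) ≠ w m

open Classical in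
/-- **WIN** (size 60, no deps): counting windows.

PROOF. Choose `f j ∈ [1 + j K, 1 + (j + 1) K)` with `P (f j)`. For `j < J = (N - 1) / K`, `f j ∈ [1, N)`, and `f` is injective
(`(f j - 1) / K = j`). So the cardinality is at least `J`, and `N - 1 < K (J + 1)`. -/
def SpecWIN : Prop :=
  ∀ (P : ℕ → Prop) (K : ℕ), 1 ≤ K → (∀ M, 1 ≤ M → ∃ a, M ≤ a ∧ a < M + K ∧ P a) →
    ∀ N, N ≤ K * (((Finset.Ico 1 N).filter P).card + 1)

/-- **DEN** (size 80, deps UHW, CDA, CDB, CDC, VWN, NPW, WIN): the free positions have positive lower density.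

PROOF. `K = 3 ⌈α⌉₊ + 33`; `⌈α⌉₊ = 3` if `8/3 < α ≤ 3`. For `n ≥ 10`: WIN with `K` (the windows of length `39`, `41`,
`3 ⌈α⌉₊ + 3` are contained in windows of length `K`) and CDC for `α < 3`, CDB for `α = 3`, CDA for `α > 3` give
`N ≤ K * (Fc.card + 2 n + 3)` (`PowFree α w` and `α ≤ 3` give `PowFree 3 w`). For `n < 10` use `n = 10` (`Fc α w 10 N ⊆ Fc α w n N`). -/
def SpecDEN : Prop :=
  ∀ (α : ℝ) (w : ℕ → Bool), 8 / 3 < α → PowFree α w → ∀ n N : ℕ,
    N ≤ (3 * ⌈α⌉₊ + 33) * ((Fc α w n N).card + 2 * n + 23)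

/-- `w` can be left at `m` inside `S`. -/
def Br (S : Set (ℕ → Bool)) (w : ℕ → Bool) (m : ℕ) : Prop :=
  ∃ v ∈ S, (∀ k < m, v k = w k) ∧ v m ≠ w m

/-- The words of length `N` which are prefixes of elements of `S` which agree with `w` before `n`. -/
def Pre (S : Set (ℕ → Bool)) (w : ℕ → Bool) (n N : ℕ) : Set (Fin N → Bool) :=
  {u | ∃ v ∈ S, (∀ k < n, v k = w k) ∧ ∀ k : Fin N, u k = v k}

open Classical in
/-- **TREE** (size 150, no deps): many branchings on every branch give many words.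

PROOF. For `v ∈ S` which agrees with `w` before `n` let `b v k = {m ∈ [n, k) | Br S v m}.card`. Claim for
`n ≤ k ≤ N`, downward induction on `k` (`Nat.decreasingInduction` or induction on `N - k`): `2 ^ B ≤ (Pre S v k N).ncard *
2 ^ (b v k)`. `k = N`: `Pre` is nonempty (`v`), `B ≤ b v N`. Step from `k + 1` to `k`, `k < N`: if `Br S v k`, take `v'` (in `S`, agrees
with `v` before `k`, `v' k ≠ v k`). `Pre S v (k + 1) N` and `Pre S v' (k + 1) N` are disjoint (their elements differ at `k`)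
and contained in `Pre S v k N` (all sets are finite: `Fin N → Bool` is finite); `b v (k + 1) = b v k + 1` and
`b v' (k + 1) = b v k + 1` (`Br S v' m ↔ Br S v m` for `m < k`, and `Br S v' k` by `v`). Otherwise `Pre S v (k + 1) N ⊆
Pre S v k N` and `b v (k + 1) = b v k`. At `k = n`, `b w n = 0`. -/
def SpecTREE : Prop :=
  ∀ (S : Set (ℕ → Bool)) (w : ℕ → Bool) (n N B : ℕ), w ∈ S → n ≤ N →
    (∀ v ∈ S, (∀ k < n, v k = w k) → B ≤ ((Finset.Ico n N).filter fun m => Br S v m).card) →
    2 ^ B ≤ (Pre S w n N).ncard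

end Pool.Agent.Lib.MPc41b7c.PF
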