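import Pool.Agent.Lib.MP_c41b7c_co.PF.Spec

/-!
# Binary power-free words (MP_c41b7c_co): the transition property (captain helper93)

THEOREM. Let `α ≥ 3` be real, `u`, `v` finite binary words, `u` a prefix of an infinite `α`-power-free word,
`v` a suffix of a left infinite one. Then `u x v` is `α`-power-free for some word `x`.

Modules as in `PF/Spec.lean`: `theorem specXXX (deps) : SpecXXX` in the file `PF/XXX.lean`, which imports this
file.
-/

set_option autoImplicit false

namespace Pool.Agent.Lib.MPc41b7c.PF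

/-- (Proved from the landed modules.) Infinitely many of the words `ext w m` are power-free. -/
def SpecDENSE : Prop :=
  ∀ α : ℝ, 3 ≤ α → ∀ w, PowFree α w → ∀ n, ∃ m ≥ n, PowFree α (ext w m)

/-- The word which agrees with `U` before `m` and goes on with `tm s, tm (s + 1), ..` or with the complement of
this tail. -/
def app (U : ℕ → Bool) (m s : ℕ) (b : Bool) : ℕ → Bool :=
  fun k => if k < m then U k else xor b (tm (s + (k - m)))

/-- The first `n` letters of `z` are a power-free word. -/
def FreeTo (α : ℝ) (n : ℕ) (z : ℕ → Bool) : Prop :=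
  ∀ p i L : ℕ, 1 ≤ p → i + L ≤ n → Per z p i (i + L) → (L : ℝ) < α * p

/-- **TREV** (size 40, no deps): the prefix of length `4 ^ j` of the Thue-Morse word is a palindrome.

PROOF. Induction on `j`. `4 ^ (j + 1) - 1 - y`, `y = 4 x + r`, `r < 4`: it is `4 (4 ^ j - 1 - x) + (3 - r)`, and
`tm (4 x + r) = xor (tm x) (tm r)` with `tm 0, .., tm 3 = 0110`. -/
def SpecTREV : Prop := ∀ j y : ℕ, y < 4 ^ j → tm (4 ^ j - 1 - y) = tm y

/-- **GL** (size 200, deps OVL, SH, TREV): gluing.

PROOF. Let `B = 0` if `b = b'`, `B = 1` otherwise, `j` large, `N = B * 4 ^ j + 4 ^ j - s - s'`, `M = min N (4 ^ j - s')`,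
`M > 2 (m + m')`. Put `Z k = app U m s b k` for `k < m + N`, and `Z (m + N + m' - 1 - k) = V k` for `k < m'`. For
`x < M`, with `y = s' + x < 4 ^ j`: `Z (m + N - 1 - x) = xor b (tm (s + N - 1 - x)) = xor b (tm (B 4 ^ j + (4 ^ j - 1 - y)))
= xor b' (tm y)` by SH (for `2 ^ (2 j)`) and TREV; so the reversed word `k ↦ Z (m + N + m' - 1 - k)` agrees with
`app V m' s' b'` for `k < m' + M`. Let `Per Z p i (i + L)`, `i + L ≤ m + N + m'`, and suppose `3 p ≤ α p ≤ L`.
If `i + L ≤ m + N`, this is a repetition in `app U m s b`. If `i ≥ m + N - M`, its reversal is a repetition in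
`app V m' s' b'`. Otherwise `Z` has the period `p` on `[max i m, m + N)`, which is a factor of `tm` or of its
complement, so by OVL `M ≤ m + N - max i m ≤ 2 p`; and `L ≤ m + 2 p + m'`, so `p ≤ m + m'` and
`M ≤ 2 (m + m')`, a contradiction. -/
def SpecGL : Prop :=
  ∀ (α : ℝ) (U V : ℕ → Bool) (m m' s s' : ℕ) (b b' : Bool), 3 ≤ α → (s = 1 ∨ s = 2) →
    (s' = 1 ∨ s' = 2) → PowFree α (app U m s b) → PowFree α (app V m' s' b') →
    ∃ (N : ℕ) (Z : ℕ → Bool), (∀ k < m, Z k = U k) ∧ (∀ k < m', Z (m + N + m' - 1 - k) = V k) ∧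
      FreeTo α (m + N + m') Z

/-- A finite word is power-free. -/
def FreeList (α : ℝ) (l : List Bool) : Prop :=
  ∀ i p L : ℕ, 0 < p → i + L ≤ l.length → (∀ j, j + p < L → l[i + j]? = l[i + j + p]?) →
    (L : ℝ) < α * p

/-- **TRL** (size 100, deps DENSE, GL): the transition property.

PROOF. DENSE for `U` and `n = u.length` gives `m ≥ u.length` such that `ext U m = app U m (sg U m) (U m)` is
power-free, and `m' ≥ v.length` for `V`. GL gives `N`, `Z`. The word `l = (List.range (m + N + m')).map Z` is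
power-free; it is `u ++ x ++ v` with `x = (l.drop u.length).take (m + N + m' - u.length - v.length)`
(`List.ext_getElem?` or `List.ext_getElem`). -/
def SpecTRL : Prop :=
  ∀ α : ℝ, 3 ≤ α → ∀ (u v : List Bool) (U V : ℕ → Bool), PowFree α U → PowFree α V →
    (∀ k < u.length, u[k]? = some (U k)) → (∀ k < v.length, v.reverse[k]? = some (V k)) →
    ∃ x : List Bool, FreeList α (u ++ x ++ v)

end Pool.Agent.Lib.MPc41b7c.PF
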