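import Pool.Agent.Lib.MP_c41b7c_co.PF.SpecT

/-!
# Binary power-free words (MP_c41b7c_co): all exponents `α > 8/3` (captain helper93)

THEOREM. For every real `α > 8/3` the set of the infinite binary words without factors of exponent `≥ α` is
perfect, and the transition property holds. (`PF/Spec.lean`: `α ≥ 3`.)

New for `8/3 < α < 3`: a repetition across a good position `m` may have no Lyndon rotation which starts
before `m - p`. Then the root is a prefix of the Thue-Morse tail (`BadAt`); the start `x` of this prefix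
determines `m`, and `x + 2`, `x + 4` are block starts which are not hit. So the bad positions are counted by
`x + 2`, and `x + 4` is a surplus.

Modules as in `PF/Spec.lean`: `theorem specXXX (deps) : SpecXXX` in the file `PF/XXX.lean`, which imports only
this file (the specs of the old modules are hypotheses); namespace `Pool.Agent.Lib.MPc41b7c.PF`, auxiliary
declarations in `XXXaux`. The old proofs (`PF/ROOT.lean`, `PF/BLK.lean`, `PF/HF.lean`, `PF/CN3.lean`, `PF/GL.lean`,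
`PF/TRL.lean`, `PF/FIN.lean`) can be copied and adapted.
-/

set_option autoImplicit false

namespace Pool.Agent.Lib.MPc41b7c.PF

/-- As `Hit`, with exponent more than `8/3`. -/
def Hit2 (w : ℕ → Bool) (m a p : ℕ) : Prop :=
  2 ≤ p ∧ a + p ≤ m ∧ Lyn w (w m) a p ∧
    ∃ i c, i < a ∧ 1 ≤ c ∧ Per (ext w m) p i (m + c) ∧ 8 * p < 3 * ((m - i) + c)

/-- `w[x..m)` is a prefix of the Thue-Morse tail `T(1), T(2), ..` (with `0` replaced by `w m`), at least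
`12` letters, and `w m` is not the next letter of this tail. -/
def BadAt (w : ℕ → Bool) (x m : ℕ) : Prop :=
  x + 12 ≤ m ∧ (∀ k < m - x, w (x + k) = xor (w m) (tm (1 + k))) ∧ tm (1 + (m - x)) = true

/-- The exceptional positions (at most one). -/
def Exc (w : ℕ → Bool) (m : ℕ) : Prop :=
  ∃ k, 2 ≤ k ∧ m + 3 = 5 * 2 ^ k ∧ ∃ b : Bool, (∀ j < 2 ^ k - 1, w j = xor b (tm (1 + j))) ∧
    w (2 ^ k - 1) ≠ xor b (tm (2 ^ k))

/-- **RB** (size 80, deps LB): the returns of the tails are short.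

PROOF. `σ = 1`, `p = 2`: `tm 3 ≠ tm 1`, `r = 0`. `σ = 1`, `p ≥ 3`: take `k ≥ 1` with `3 * 2 ^ (k - 1) ≤ p < 3 * 2 ^ k`; by LB
`r < 2 ^ k`, so `3 (r + 1) ≤ 3 * 2 ^ k ≤ 2 p`. `σ = 2`, `p = 2 a` even, `a ≥ 2`: `a = 2`: `tm 6 ≠ tm 2`, `r = 0`. `a ≥ 3`: `k ≥ 1` with
`3 * 2 ^ (k - 1) ≤ a < 3 * 2 ^ k`; LB for `a` gives `j < 2 ^ k` with `tm (2 + p + 2 j) = tm (1 + a + j) ≠ tm (1 + j) = tm (2 + 2 j)`,
so `r ≤ 2 j` and `3 (r + 1) ≤ 6 (2 ^ k - 1) + 3 ≤ 4 a = 2 p`. `σ = 2`, `p` odd: `p = 3, 7`: `tm 5, tm 9 ≠ tm 2`, `r = 0`; `p = 5`: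
`tm 8 ≠ tm 3`, `r ≤ 1`; `p ≥ 9`: `r ≤ 4` (with `p + 2 = 2 b + 1`: `tm (2 b + 4) = tm (b + 2)`, `tm (2 b + 5) = ! tm (b + 2)`, but
`tm 5 = tm 6`), `15 ≤ 18`. -/
def SpecRB : Prop :=
  ∀ σ p r : ℕ, (σ = 1 ∨ σ = 2) → 2 ≤ p → ¬ (σ = 2 ∧ p = 2) →
    (∀ l < r, tm (σ + p + l) = tm (σ + l)) → 3 * (r + 1) ≤ 2 * p

/-- **MCS** (size 120, deps SH, LA): missing classes, short agreement.

PROOF. `c ≥ 4` (`3 R < c`, `R ≥ 1`). Take `k ≥ 1` with `3 * 2 ^ (k - 1) ≤ c < 3 * 2 ^ k`. Then `3 R < 3 * 2 ^ k`, `R ≤ 2 ^ k - 1`.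
`σ = 1`: `q = 2 ^ k`, and `j < 2 ^ (k - 1)` of LA for `s + 1 ≤ 2 ^ k`; SH gives `tm (1 + q + l) = ! tm (1 + l)` for `l ≤ j`; `q + j < 3 * 2 ^ (k - 1)
≤ c`, and `s + j < c`. `σ = 2`, `R ≤ 2 ^ k - 2`: `q = 2 ^ k - 1`, LA for `s + 2 ≤ 2 ^ k`. `σ = 2`, `R = 2 ^ k - 1`: `3 * 2 ^ k - 3 < c`, so
`c + 2 = 3 * 2 ^ k` or `c + 1 = 3 * 2 ^ k`; by hypothesis `k = 1`, `R = s = 1`, `c = 5` (`c = 4` is excluded): `q = 3`, `j = 1`
(`tm 5 = tm 3`, `tm 6 = false`, `tm 4 = true`). -/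
def SpecMCS : Prop :=
  ∀ σ c R s : ℕ, (σ = 1 ∨ σ = 2) → 3 * R < c → 1 ≤ s → s ≤ R → ¬ (σ = 2 ∧ c = 4) →
    ¬ (σ = 2 ∧ ∃ k, 2 ≤ k ∧ R + 1 = 2 ^ k ∧ (c + 2 = 3 * 2 ^ k ∨ c + 1 = 3 * 2 ^ k)) →
    ∃ q j, q + j < c ∧ s + j < c ∧ (∀ l < j, tm (σ + q + l) = tm (σ + s + l)) ∧
      tm (σ + q + j) = false ∧ tm (σ + s + j) = true

/-- **RTA** (size 120, deps MCS, MIN): a Lyndon root, short agreement.

PROOF. `e = m - i`, `G k = z (i + k % p)` as in ROOT: `G (k + p) = G k`, `G k = z (i + k)` for `k < e + c`. MIN with `s = 1` gives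
`a' ∈ [1, p]`. If `a' ≤ e - p`, put `a = i + a'`. Otherwise `a' = e - p + s`, `1 ≤ s ≤ R` with `R = 2 p - e ≥ 1` (`a' ≤ p`).
`3 (e + c) > 8 p` gives `3 R < 3 c - 2 p ≤ c`. For `x < c`: `G (e - p + x) = z (m - p + x) = z (m + x) = tm (σ + x)`. `σ = 2`, `c = 4`:
`3 R < 12 - 2 p` gives `p ≤ 4`, `p = 4 = c`, `true = z (m - 1) = z (m + 3) = tm 5`, impossible. The hypothesis `hx` is the
last hypothesis of MCS. The `j`, `q` of MCS contradict the minimality of `a'` (`b = e - p + q`). -/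
def SpecRTA : Prop :=
  ∀ (z : ℕ → Bool) (σ m p i c : ℕ), (σ = 1 ∨ σ = 2) → (∀ k, z (m + k) = tm (σ + k)) → 1 ≤ m →
    (σ = 2 → z (m - 1) = true) → 2 ≤ p → i + p ≤ m → 1 ≤ c → c ≤ p → Per z p i (m + c) →
    8 * p < 3 * ((m - i) + c) → (∀ q, 1 ≤ q → q < p → ¬ Per z q i (m + c)) →
    ¬ (σ = 2 ∧ ∃ k, 2 ≤ k ∧ 2 * p - (m - i) + 1 = 2 ^ k ∧
      (c + 2 = 3 * 2 ^ k ∨ c + 1 = 3 * 2 ^ k)) →
    ∃ a, i < a ∧ a + p ≤ m ∧ Lyn z false a p

/-- **RTX** (size 120, no deps): the special case of short agreement.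

PROOF. `R = 2 p - e = 2 ^ k - 1` (`e = m - i`), and `3 (e + c) > 8 p` gives `3 R < 3 c - 2 p`. If `c + 2 = 3 * 2 ^ k`:
`2 p < 3 c - 3 R = 6 * 2 ^ k - 3`, so `p ≤ 3 * 2 ^ k - 2 = c` and `p = c`. If `c + 1 = 3 * 2 ^ k`: `2 p < 6 * 2 ^ k`, `p = c`; then
`true = z (m - 1) = z (m + p - 1) = tm (p + 1) = tm (3 * 2 ^ k) = tm 3 = false`, impossible. So `p = c = 3 * 2 ^ k - 2`,
`e = 5 * 2 ^ k - 3`, and for `x < p`, `z (m - p + x) = z (m + x) = tm (2 + x)`; `z y = z (y + p)` for `i ≤ y`, `y + p < m + c`; so for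
`x < e - p = 2 ^ (k + 1) - 1`: `z (i + x) = z (i + x + p) = tm (2 + (2 ^ k - 1 + x))` (as `i + p = m - p + (2 ^ k - 1)`).
`x = 0`: `tm (2 ^ k + 1) = false`; `x = 1`: `tm (2 ^ k + 2) = false` (`k ≥ 2`; `tm (2 ^ k + y) = ! tm y` for `y < 2 ^ k`, prove it by
induction or write `2 ^ k + 2 = 2 (2 (2 ^ (k - 2)) + 1)`). If `i ≥ 1`: `z (i - 1) ≠ z (i - 1 + p) = tm (2 + (2 ^ k - 2)) = tm (2 ^ k) = true`,
so `z (i - 1) = z i = z (i + 1) = false`, against `hc` (`i + 1 < m`). So `i = 0`, `m = e`, and `z j = tm (2 ^ k + (1 + j)) =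
! tm (1 + j)` for `j < 2 ^ k - 1`, `z (2 ^ k - 1) = tm (2 ^ (k + 1)) = true`. -/
def SpecRTX : Prop :=
  ∀ (z : ℕ → Bool) (m p i c k : ℕ), (∀ k, z (m + k) = tm (2 + k)) → 10 ≤ m → z (m - 1) = true →
    (∀ k, k + 2 < m → ¬ (z k = false ∧ z (k + 1) = false ∧ z (k + 2) = false)) →
    2 ≤ p → i + p ≤ m → 1 ≤ c → c ≤ p → Per z p i (m + c) →
    (1 ≤ i → z (i - 1) ≠ z (i - 1 + p)) → 8 * p < 3 * ((m - i) + c) → 2 ≤ k →
    2 * p - (m - i) + 1 = 2 ^ k → (c + 2 = 3 * 2 ^ k ∨ c + 1 = 3 * 2 ^ k) →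
    i = 0 ∧ m + 3 = 5 * 2 ^ k ∧ (∀ j < 2 ^ k - 1, z j = !(tm (1 + j))) ∧ z (2 ^ k - 1) = true

/-- **RTB** (size 200, deps RB, MIN): long agreement.

PROOF. `r = c - p ≥ 1`, `e = m - i`. By `Per`, `tm (σ + l) = z (m + l) = z (m + l + p) = tm (σ + p + l)` for `l < r`, and `z (m - 1) = z (m - 1 + p) =
tm (σ + p - 1)`, `z (m - 2) = z (m - 2 + p) = tm (σ + p - 2)` (`e ≥ p ≥ 2`). `¬ (σ = 2 ∧ p = 2)` (`tm 3 = false`). RB: `3 (r + 1) ≤ 2 p`,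
so `3 e > 8 p - 3 c = 5 p - 3 r ≥ 3 p + 3`, `e ≥ p + 2`.
`p ≥ 12`: second alternative. `σ = 1`: `x = m - p`; `z (x + k) = z (m + k) = tm (1 + k)` for `k < p`, and `tm (1 + p) = tm 1 = true`
(`r ≥ 1`). `σ = 2`: `x = m - p - 1`; `z x = z (m - 1) = true = tm 1`, `z (x + 1 + k) = z (m + k) = tm (2 + k)` for `k < p`, and `tm (1 + (p + 1)) =
tm (2 + p) = tm 2 = true`.
`p ≤ 11`, `σ = 1`: `tm (1 + p) = true`, `tm p = false`, `tm (p - 1) = true` leave only `p = 3`; `r ≤ 1` (`tm 5 ≠ tm 2`), `c = 4`,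
`e ≥ 5`. MIN (`G k = z (i + k % 3)`) with `s = 1` gives `a' ∈ [1, 3]`; if `a' ≤ e - 3`, `a = i + a'`; otherwise `e = 5`, `a' = 3 = e - p + 1`, but
`G (e - p + 1) = tm 2 = true > G (e - p + 2) = tm 3 = false` contradicts the minimality.
`p ≤ 11`, `σ = 2`: `tm (2 + p) = true`, `tm (p + 1) = true` leave only `p = 6`; `r ≤ 2` (`tm 10 ≠ tm 4`), so `c ≤ 8`, `e ≥ 9`. If `e ≥ 10`: MIN with
`s = 1`, `a' ∈ [1, 6]`; if `a' > e - 6` then `a' = e - 6 + s'` with `s' ∈ {1, 2}` and the rotation from `q = 3` (`tm 5, tm 6, tm 7 = 001`) is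
smaller than those from `1` (`tm 3, tm 4 = 01`) and `2` (`tm 4 = 1`). If `e = 9`: `i = m - 9 ≥ 1`, `z (i - 1) ≠ z (i + 5) = z (m - 4) = z (m + 2) =
tm 4 = true`, `z i = z (m - 3) = z (m + 3) = tm 5 = false`, `z (i + 1) = z (m - 2) = false`: against `hc`. -/
def SpecRTB : Prop :=
  ∀ (z : ℕ → Bool) (σ m p i c : ℕ), (σ = 1 ∨ σ = 2) → (∀ k, z (m + k) = tm (σ + k)) → 10 ≤ m →
    (σ = 1 → z (m - 1) = false ∧ z (m - 2) = true) →
    (σ = 2 → z (m - 1) = true ∧ z (m - 2) = false) →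
    (∀ k, k + 2 < m → ¬ (z k = false ∧ z (k + 1) = false ∧ z (k + 2) = false)) →
    2 ≤ p → i + p ≤ m → p < c → Per z p i (m + c) →
    (1 ≤ i → z (i - 1) ≠ z (i - 1 + p)) → 8 * p < 3 * ((m - i) + c) →
    (∀ q, 1 ≤ q → q < p → ¬ Per z q i (m + c)) →
    (∃ a, i < a ∧ a + p ≤ m ∧ Lyn z false a p) ∨
      ∃ x, x + 12 ≤ m ∧ (∀ k < m - x, z (x + k) = tm (1 + k)) ∧ tm (1 + (m - x)) = true

/-- **HF2** (size 60, no deps): facts on hits. PROOF as HF. -/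
def SpecHF2 : Prop :=
  ∀ (w : ℕ → Bool) (m a p : ℕ), Hit2 w m a p →
    1 ≤ a ∧ a < m ∧ w a = w m ∧ w (a - 1) ≠ w a ∧ Per w p a m ∧ w (m - p) = !(w m)

/-- **B2** (size 200, deps OVL, RB, RTA, RTX, RTB): a good position with a bad extension.

PROOF. As BLK. `x = ext w m`, `p` minimal such that `Per x p i (i + L)`, `α p ≤ L` for some `i, L`; `i + L > m`; `i < m` (otherwise
`tm` has an overlap: `3 L > 8 p` gives `L ≥ 2 p + 1`). `c = i + L - m ≥ 1`. For these `p`, `c` take `i` minimal with `Per x p i (m + c)` (and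
`i < m`, `α p ≤ (m - i) + c`), so `i = 0` or `x (i - 1) ≠ x (i - 1 + p)`. `3 ((m - i) + c) > 8 p`. `p ≠ 1` as in BLK. `i + p ≤ m`: if `c ≤ p`,
`3 (m - i) > 8 p - 3 c ≥ 5 p`. If `c > p`: `(σ, p) ≠ (2, 2)` (`true = z (m - 1) = z (m + 1) = tm 3`), RB for `r = c - p` gives `3 c ≤ 5 p - 3`.
`z k = xor (w m) (x k)`, `σ = sg w m`. `w` is cube free (`α ≤ 3`), so `z` has no `000` before `m`, and if `σ = 1`, `z (m - 1) = false`,
`z (m - 2) = true` (`w (m - 2) ≠ w (m - 1) = w m`); if `σ = 2`, `z (m - 1) = true`, and `Ok` gives `w (m - 2) ≠ w (m - 1)` (otherwise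
`L = 2`, `3 < α`), `z (m - 2) = false`. `q < p` with `Per z q i (m + c)` contradicts the minimality of `p`. If `c > p`: RTB. If `c ≤ p`:
RTX in the case of the last hypothesis of RTA (`Exc` with `b = !(w m)`: `w j = xor (w m) (z j)` for `j < m`, `tm (2 ^ k) = true`),
otherwise RTA. -/
def SpecB2 : Prop :=
  ∀ (α : ℝ) (w : ℕ → Bool) (m : ℕ), 8 / 3 < α → α ≤ 3 → PowFree α w → 10 ≤ m → Ok α w m →
    ¬ PowFree α (ext w m) → (∃ a p, Hit2 w m a p) ∨ (∃ x, BadAt w x m) ∨ Exc w m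

/-- **EXC** (size 40, no deps): there is at most one exceptional position.

PROOF. Let `k < k'` belong to `m`, `m'`. `w 0 = xor b true = xor b' true`, so `b = b'`. At `2 ^ k - 1 < 2 ^ k' - 1`:
`w = xor b (tm (2 ^ k))` by `k'`, against `k`. -/
def SpecEXC : Prop := ∀ w : ℕ → Bool, ∃ n, ∀ m ≥ n, ¬ Exc w m

/-- **D2** (captain): block starts which are not hit. -/
def SpecD2 : Prop :=
  (∀ w : ℕ → Bool, PowFree 3 w → ∀ M : ℕ, ∃ a, M ≤ a ∧ St w a ∧ ∀ m p, ¬ Hit2 w m a p) ∧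
    ∀ (w : ℕ → Bool) (x m : ℕ), BadAt w x m →
      (St w (x + 2) ∧ ∀ m' p', ¬ Hit2 w m' (x + 2) p') ∧
      (St w (x + 4) ∧ ∀ m' p', ¬ Hit2 w m' (x + 4) p') ∧ w x = w (x + 1) ∧ w (x + 2) ≠ w (x + 3)

/-- **CN2** (size 200, deps UNI, HF2, D2): the contradiction for `8/3 < α ≤ 3`.

PROOF. `PowFree 3 w`. (1) `BadAt w x m`, `BadAt w x m'` imply `m = m'`: `w x = !(w m) = !(w m')`; if `m < m'` then `w m =
xor (w m') (tm (1 + (m - x))) = !(w m)`. (2) `U a`: `St w a` and not hit. `V a`: `U a` and there is no `m` with `2 ≤ a`,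
`BadAt w (a - 2) m`. For every `M` there is `a ≥ M` with `V a`: by D2 there is `a ≥ M` with `U a`; if not `V a` then with
`x = a - 2`, `U (x + 4)`, and `V (x + 4)` as `BadAt w (x + 2) m'` would give `w (x + 2) = w (x + 3)` (D2). (3) For `N` let
`D = {m ∈ [n + 1, N) | St w m}`, `S` the good `m ∈ [n, N)`, `T` the `a ∈ [1, N)` with `St w a`, not `V a`. `D.card ≤ S.card` as in CN3.
`S.card ≤ T.card`: map `m` to `a` if `Hit2 w m a p`, and to `x + 2` if not hit and `BadAt w x m`. It is injective: two hits by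
UNI (as INJ), two bad ones by (1), and `x + 2` is not hit. `a`, `x + 2` are `< m < N`; `a` is a hit, so not `U`; `x + 2` is not `V`. So
`{a ∈ [1, N) | V a}.card ≤ n` for all `N`, against (2). -/
def SpecCN2 : Prop :=
  ∀ (α : ℝ) (w : ℕ → Bool), 8 / 3 < α → α ≤ 3 → PowFree α w → ∀ n, 10 ≤ n →
    (∀ m, n ≤ m → Ok α w m → (∃ a p, Hit2 w m a p) ∨ ∃ x, BadAt w x m) → False

/-- All exponents: infinitely many of the words `ext w m` are power-free. -/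
def SpecDENSE2 : Prop :=
  ∀ α : ℝ, 8 / 3 < α → ∀ w, PowFree α w → ∀ n, ∃ m ≥ n, PowFree α (ext w m)

/-- **DN2** (size 40, deps DENSE, B2, EXC, CN2).

PROOF. `3 ≤ α`: DENSE. Otherwise, if no `m ≥ n` works, take `n' = max n (max 10 n₀)`, `n₀` of EXC; for `m ≥ n'` B2 gives a hit
or a bad position, against CN2. -/
def SpecDN2 : Prop := SpecDENSE2

/-- **FI2** (size 60, deps OVL, ISO, DENSE2): nonempty and perfect. PROOF as FIN (`ext w m` differs from `w` at `m`; for `tm`: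
`8 p < 3 L` gives `L ≥ 2 p + 1`). -/
def SpecFI2 : Prop :=
  ∀ α : ℝ, 8 / 3 < α → {w : ℕ → Bool | PowFree α w}.Nonempty ∧ Perfect {w : ℕ → Bool | PowFree α w}

/-- **GL2** (size 200, deps OVL, SH, TREV): gluing for `α > 8/3`. PROOF as GL with `M > 6 (m + m')`: `8 p < 3 L ≤
3 (m + 2 p + m')` gives `2 p < 3 (m + m')`, and `M ≤ 2 p`. -/
def SpecGL2 : Prop :=
  ∀ (α : ℝ) (U V : ℕ → Bool) (m m' s s' : ℕ) (b b' : Bool), 8 / 3 < α → (s = 1 ∨ s = 2) →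
    (s' = 1 ∨ s' = 2) → PowFree α (app U m s b) → PowFree α (app V m' s' b') →
    ∃ (N : ℕ) (Z : ℕ → Bool), (∀ k < m, Z k = U k) ∧ (∀ k < m', Z (m + N + m' - 1 - k) = V k) ∧
      FreeTo α (m + N + m') Z

/-- **TR2** (size 100, deps DENSE2, GL2): the transition property for `α > 8/3`. PROOF as TRL. -/
def SpecTR2 : Prop :=
  ∀ α : ℝ, 8 / 3 < α → ∀ (u v : List Bool) (U V : ℕ → Bool), PowFree α U → PowFree α V →
    (∀ k < u.length, u[k]? = some (U k)) → (∀ k < v.length, v.reverse[k]? = some (V k)) →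
    ∃ x : List Bool, FreeList α (u ++ x ++ v)

end Pool.Agent.Lib.MPc41b7c.PF
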