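import Pool.Agent.Lib.MP_c41b7c_co.PF.SpecD

/-!
# Binary power-free words (MP_c41b7c_co), module TREE: many branchings on every branch give many words
-/

set_option autoImplicit false

namespace Pool.Agent.Lib.MPc41b7c.PF

namespace TREEaux

open Classical in
/-- The number of branchings of `v` in `[n, k)`. -/
noncomputable def bf (S : Set (ℕ → Bool)) (v : ℕ → Bool) (n k : ℕ) : ℕ :=
  ((Finset.Ico n k).filter fun m => Br S v m).card

theorem bf_self (S : Set (ℕ → Bool)) (v : ℕ → Bool) (n : ℕ) : bf S v n n = 0 := by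
  unfold bf
  simp

theorem bf_succ_pos {S : Set (ℕ → Bool)} {v : ℕ → Bool} {n k : ℕ} (hnk : n ≤ k) (h : Br S v k) :
    bf S v n (k + 1) = bf S v n k + 1 := by
  classical
  unfold bf
  have h1 : ((Finset.Ico n (k + 1)).filter fun m => Br S v m) =
      insert k ((Finset.Ico n k).filter fun m => Br S v m) := by
    ext m
    simp only [Finset.mem_filter, Finset.mem_Ico, Finset.mem_insert]
    constructor
    · rintro ⟨⟨h2, h3⟩, h4⟩
      by_cases h5 : m = k
      · exact Or.inl h5
      · exact Or.inr ⟨⟨h2, by omega⟩, h4⟩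
    · rintro (h2 | ⟨⟨h2, h3⟩, h4⟩)
      · subst h2
        exact ⟨⟨hnk, by omega⟩, h⟩
      · exact ⟨⟨h2, by omega⟩, h4⟩
  rw [h1, Finset.card_insert_of_notMem]
  simp

theorem bf_succ_neg {S : Set (ℕ → Bool)} {v : ℕ → Bool} {n k : ℕ} (h : ¬ Br S v k) :
    bf S v n (k + 1) = bf S v n k := by
  classical
  unfold bf
  have h1 : ((Finset.Ico n (k + 1)).filter fun m => Br S v m) =
      ((Finset.Ico n k).filter fun m => Br S v m) := by
    ext m
    simp only [Finset.mem_filter, Finset.mem_Ico]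
    constructor
    · rintro ⟨⟨h2, h3⟩, h4⟩
      have h5 : m ≠ k := by
        intro h5
        rw [h5] at h4
        exact h h4
      exact ⟨⟨h2, by omega⟩, h4⟩
    · rintro ⟨⟨h2, h3⟩, h4⟩
      exact ⟨⟨h2, by omega⟩, h4⟩
  rw [h1]

theorem br_congr {S : Set (ℕ → Bool)} {v u : ℕ → Bool} {k : ℕ} (h : ∀ j < k, u j = v j) {m : ℕ}
    (hm : m < k) (hb : Br S v m) : Br S u m := by
  obtain ⟨x, hx, h1, h2⟩ := hb
  refine ⟨x, hx, fun j hj => ?_, ?_⟩
  · rw [h1 j hj, h j (by omega)]
  · rw [h m hm]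
    exact h2

theorem bf_congr {S : Set (ℕ → Bool)} {v u : ℕ → Bool} {k : ℕ} (h : ∀ j < k, u j = v j) (n : ℕ) :
    bf S u n k = bf S v n k := by
  classical
  unfold bf
  have h1 : ((Finset.Ico n k).filter fun m => Br S u m) =
      ((Finset.Ico n k).filter fun m => Br S v m) := by
    ext m
    simp only [Finset.mem_filter, Finset.mem_Ico]
    constructor
    · rintro ⟨⟨h2, h3⟩, h4⟩
      exact ⟨⟨h2, h3⟩, br_congr (fun j hj => (h j hj).symm) h3 h4⟩
    · rintro ⟨⟨h2, h3⟩, h4⟩
      exact ⟨⟨h2, h3⟩, br_congr h h3 h4⟩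
  rw [h1]

theorem pre_mono {S : Set (ℕ → Bool)} {v u : ℕ → Bool} {k N : ℕ} (h : ∀ j < k, u j = v j) :
    Pre S u (k + 1) N ⊆ Pre S v k N := by
  rintro x ⟨y, hy, h1, h2⟩
  exact ⟨y, hy, fun j hj => by rw [h1 j (by omega), h j hj], h2⟩

theorem main (S : Set (ℕ → Bool)) (w : ℕ → Bool) (n N B : ℕ)
    (hB : ∀ v ∈ S, (∀ k < n, v k = w k) → B ≤ bf S v n N) (d : ℕ) :
    ∀ k : ℕ, n ≤ k → k + d = N → ∀ v ∈ S, (∀ j < n, v j = w j) →
      2 ^ B ≤ (Pre S v k N).ncard * 2 ^ (bf S v n k) := by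
  induction d with
  | zero =>
    intro k _ hkN v hv hvw
    have hk : k = N := by omega
    subst hk
    have h1 : 0 < (Pre S v k k).ncard := by
      rw [Set.ncard_pos (Set.toFinite _)]
      exact ⟨fun i => v i, v, hv, fun _ _ => rfl, fun _ => rfl⟩
    have h2 : B ≤ bf S v n k := hB v hv hvw
    calc 2 ^ B ≤ 2 ^ (bf S v n k) := Nat.pow_le_pow_right (by norm_num) h2
      _ = 1 * 2 ^ (bf S v n k) := (Nat.one_mul _).symm
      _ ≤ (Pre S v k k).ncard * 2 ^ (bf S v n k) := Nat.mul_le_mul_right _ h1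
  | succ d ih =>
    intro k hnk hkN v hv hvw
    have hkN' : (k + 1) + d = N := by omega
    have h1 := ih (k + 1) (by omega) hkN' v hv hvw
    by_cases hb : Br S v k
    · obtain ⟨u, hu, huv, hne⟩ := hb
      have hbv : Br S v k := ⟨u, hu, huv, hne⟩
      have hbu : Br S u k := ⟨v, hv, fun j hj => (huv j hj).symm, fun h => hne h.symm⟩
      have huw : ∀ j < n, u j = w j := fun j hj => by rw [huv j (by omega), hvw j hj]
      have h2 := ih (k + 1) (by omega) hkN' u hu huw
      rw [bf_succ_pos hnk hbv] at h1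
      rw [bf_succ_pos hnk hbu, bf_congr huv n] at h2
      have hdisj : Disjoint (Pre S v (k + 1) N) (Pre S u (k + 1) N) := by
        rw [Set.disjoint_left]
        rintro x ⟨y, _, hy1, hy2⟩ ⟨z, _, hz1, hz2⟩
        have hkN2 : k < N := by omega
        have e1 := hy2 ⟨k, hkN2⟩
        have e2 := hz2 ⟨k, hkN2⟩
        have e3 := hy1 k (by omega)
        have e4 := hz1 k (by omega)
        apply hne
        rw [← e4, ← e3]
        have e5 : y k = z k := by
          have e6 : y ((⟨k, hkN2⟩ : Fin N) : ℕ) = z ((⟨k, hkN2⟩ : Fin N) : ℕ) := by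
            rw [← e1, ← e2]
          exact e6
        exact e5.symm
      have hsub : Pre S v (k + 1) N ∪ Pre S u (k + 1) N ⊆ Pre S v k N :=
        Set.union_subset (pre_mono (fun _ _ => rfl)) (pre_mono huv)
      have hcard : (Pre S v (k + 1) N).ncard + (Pre S u (k + 1) N).ncard ≤ (Pre S v k N).ncard := by
        rw [← Set.ncard_union_eq hdisj (Set.toFinite _) (Set.toFinite _)]
        exact Set.ncard_le_ncard hsub (Set.toFinite _)
      have h3 : 2 * 2 ^ B ≤
          2 * (((Pre S v (k + 1) N).ncard + (Pre S u (k + 1) N).ncard) * 2 ^ (bf S v n k)) := by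
        rw [pow_succ] at h1 h2
        nlinarith [h1, h2]
      have h4 : 2 ^ B ≤
          ((Pre S v (k + 1) N).ncard + (Pre S u (k + 1) N).ncard) * 2 ^ (bf S v n k) := by
        omega
      exact h4.trans (Nat.mul_le_mul_right _ hcard)
    · rw [bf_succ_neg hb] at h1
      have hcard : (Pre S v (k + 1) N).ncard ≤ (Pre S v k N).ncard :=
        Set.ncard_le_ncard (pre_mono (fun _ _ => rfl)) (Set.toFinite _)
      exact h1.trans (Nat.mul_le_mul_right _ hcard)

end TREEaux

theorem specTREE : SpecTREE := by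
  intro S w n N B hw hnN hB
  have h := TREEaux.main S w n N B hB (N - n) n (le_refl n) (by omega) w hw (fun _ _ => rfl)
  rw [TREEaux.bf_self, pow_zero, mul_one] at h
  exact h

end Pool.Agent.Lib.MPc41b7c.PF
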