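import Pool.Agent.Lib.MP_c41b7c_co.PF.SpecT

/-!
MP_c41b7c_co, module TREV: the prefix of length `4 ^ j` of the Thue-Morse word is a palindrome.
-/

set_option autoImplicit false

namespace Pool.Agent.Lib.MPc41b7c.PF

namespace TREVaux

lemma tm0 (x : ℕ) : tm (4 * x) = tm x := by
  have h : 4 * x = 2 * (2 * x) := by ring
  rw [h, tm_even, tm_even]

lemma tm1 (x : ℕ) : tm (4 * x + 1) = !(tm x) := by
  have h : 4 * x + 1 = 2 * (2 * x) + 1 := by ring
  rw [h, tm_odd, tm_even]

lemma tm2 (x : ℕ) : tm (4 * x + 2) = !(tm x) := by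
  have h : 4 * x + 2 = 2 * (2 * x + 1) := by ring
  rw [h, tm_even, tm_odd]

lemma tm3 (x : ℕ) : tm (4 * x + 3) = tm x := by
  have h : 4 * x + 3 = 2 * (2 * x + 1) + 1 := by ring
  rw [h, tm_odd, tm_odd, Bool.not_not]

end TREVaux

theorem specTREV : SpecTREV := by
  intro j
  induction j with
  | zero =>
    intro y hy
    have h : y = 0 := by simpa using hy
    subst h
    rfl
  | succ j ih =>
    intro y hy
    have hp : 4 ^ (j + 1) = 4 * 4 ^ j := by rw [pow_succ]; ring
    have hx : y / 4 < 4 ^ j := by omega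
    have h := ih (y / 4) hx
    have hr : y % 4 < 4 := Nat.mod_lt _ (by norm_num)
    have hy4 : y = 4 * (y / 4) + y % 4 := by omega
    generalize hX : y / 4 = x at *
    generalize hR : y % 4 = r at *
    rw [hp]
    interval_cases r
    · have e : 4 * 4 ^ j - 1 - y = 4 * (4 ^ j - 1 - x) + 3 := by omega
      rw [e, TREVaux.tm3, h, hy4, add_zero, TREVaux.tm0]
    · have e : 4 * 4 ^ j - 1 - y = 4 * (4 ^ j - 1 - x) + 2 := by omega
      rw [e, TREVaux.tm2, h, hy4, TREVaux.tm1]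
    · have e : 4 * 4 ^ j - 1 - y = 4 * (4 ^ j - 1 - x) + 1 := by omega
      rw [e, TREVaux.tm1, h, hy4, TREVaux.tm2]
    · have e : 4 * 4 ^ j - 1 - y = 4 * (4 ^ j - 1 - x) := by omega
      rw [e, TREVaux.tm0, h, hy4, TREVaux.tm3]

end Pool.Agent.Lib.MPc41b7c.PF
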