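import Pool.Agent.Lib.MP_c41b7c_co.PF.SpecT

/-!
# TRL: the transition property
-/

set_option autoImplicit false

namespace Pool.Agent.Lib.MPc41b7c.PF

namespace TRLaux

lemma sg_or (w : ℕ → Bool) (m : ℕ) : sg w m = 1 ∨ sg w m = 2 := by
  unfold sg
  split_ifs
  · exact Or.inl rfl
  · exact Or.inr rfl

lemma ext_eq (w : ℕ → Bool) (m : ℕ) : ext w m = app w m (sg w m) (w m) := rfl

/-- The finite word given by the first `T` letters of `Z`. -/
lemma freeList_of (α : ℝ) (T : ℕ) (Z : ℕ → Bool) (h : FreeTo α T Z) :
    FreeList α ((List.range T).map Z) := by
  intro i p L hp hL hper
  rw [List.length_map, List.length_range] at hL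
  refine h p i L hp hL ?_
  intro k hk1 hk2
  have h1 := hper (k - i) (by omega)
  have e1 : i + (k - i) = k := by omega
  rw [e1] at h1
  rw [List.getElem?_map, List.getElem?_map, List.getElem?_range (by omega),
    List.getElem?_range (by omega)] at h1
  simpa using h1

end TRLaux

open TRLaux in
theorem specTRL (hDENSE : SpecDENSE) (hGL : SpecGL) : SpecTRL := by
  intro α hα u v U V hU hV hu hv
  obtain ⟨m, hm, hmU⟩ := hDENSE α hα U hU u.length
  obtain ⟨m', hm', hmV⟩ := hDENSE α hα V hV v.length
  rw [ext_eq] at hmU hmV
  obtain ⟨N, Z, hZ1, hZ2, hfree⟩ := hGL α U V m m' (sg U m) (sg V m') (U m) (V m') hα (sg_or U m)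
    (sg_or V m') hmU hmV
  refine ⟨(List.range (m + N + m' - u.length - v.length)).map fun k => Z (u.length + k), ?_⟩
  have hlen : ((List.range (m + N + m' - u.length - v.length)).map
      (fun k => Z (u.length + k))).length = m + N + m' - u.length - v.length := by
    rw [List.length_map, List.length_range]
  have hlen2 : (u ++ (List.range (m + N + m' - u.length - v.length)).map
      (fun k => Z (u.length + k))).length = m + N + m' - v.length := by
    rw [List.length_append, hlen]
    omega
  have hl : u ++ (List.range (m + N + m' - u.length - v.length)).map (fun k => Z (u.length + k)) ++ v =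
      (List.range (m + N + m')).map Z := by
    apply List.ext_getElem?
    intro k
    rcases lt_or_ge k u.length with h1 | h1
    · have hk : k < (u ++ (List.range (m + N + m' - u.length - v.length)).map
          (fun k => Z (u.length + k))).length := by rw [hlen2]; omega
      have hk2 : k < m + N + m' := by omega
      rw [List.getElem?_append_left hk, List.getElem?_append_left h1, hu k h1, List.getElem?_map,
        List.getElem?_range hk2, ← hZ1 k (by omega)]
      rfl
    · rcases lt_or_ge k (m + N + m' - v.length) with h2 | h2
      · have hk : k < (u ++ (List.range (m + N + m' - u.length - v.length)).map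
            (fun k => Z (u.length + k))).length := by rw [hlen2]; omega
        have hk2 : k < m + N + m' := by omega
        have hk3 : k - u.length < m + N + m' - u.length - v.length := by omega
        rw [List.getElem?_append_left hk, List.getElem?_append_right h1, List.getElem?_map,
          List.getElem?_map, List.getElem?_range hk2, List.getElem?_range hk3]
        have e1 : u.length + (k - u.length) = k := by omega
        simp only [Option.map_some, e1]
      · have hk : (u ++ (List.range (m + N + m' - u.length - v.length)).map
            (fun k => Z (u.length + k))).length ≤ k := by rw [hlen2]; omega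
        rw [List.getElem?_append_right hk, hlen2]
        rcases lt_or_ge k (m + N + m') with h3 | h3
        · rw [List.getElem?_map, List.getElem?_range h3]
          have h4 := hv (m + N + m' - 1 - k) (by omega)
          have h5 : m + N + m' - 1 - k < v.length := by omega
          rw [List.getElem?_reverse h5] at h4
          have e3 : v.length - 1 - (m + N + m' - 1 - k) = k - (m + N + m' - v.length) := by omega
          rw [e3] at h4
          rw [h4, ← hZ2 (m + N + m' - 1 - k) (by omega)]
          have e4 : m + N + m' - 1 - (m + N + m' - 1 - k) = k := by omega
          rw [e4]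
          rfl
        · have h5 : v.length ≤ k - (m + N + m' - v.length) := by omega
          have h6 : ((List.range (m + N + m')).map Z).length ≤ k := by
            rw [List.length_map, List.length_range]
            exact h3
          rw [List.getElem?_eq_none h5, List.getElem?_eq_none h6]
  rw [hl]
  exact freeList_of α _ Z hfree

end Pool.Agent.Lib.MPc41b7c.PF
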