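import Pool.Agent.Lib.MP_c41b7c_co.PF.SpecD
import Pool.Agent.Lib.MP_c41b7c_co.PF.DFS
import Pool.Agent.Lib.MP_c41b7c_co.PF.D2

/-!
# UHW (MP_c41b7c_co): block starts which are not hit, in every window of length `39`
-/

set_option autoImplicit false

namespace Pool.Agent.Lib.MPc41b7c.PF

namespace UHWaux

open DFSaux D2aux

lemma dfs_sound' (w : ℕ → Bool) (s : ℕ) : ∀ f L : ℕ, dfs f (win w s L) = true →
    ∃ L' ≤ L + f, bad (win w s L') = true := by
  intro f
  induction f with
  | zero => intro L h; exact ⟨L, le_rfl, h⟩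
  | succ f ih =>
    intro L h
    have h : (bad (win w s L) || (dfs f (false :: win w s L) && dfs f (true :: win w s L))) = true :=
      h
    rw [Bool.or_eq_true, Bool.and_eq_true] at h
    rcases h with h | ⟨h1, h2⟩
    · exact ⟨L, by omega, h⟩
    · have key : ∃ L' ≤ L + 1 + f, bad (win w s L') = true := by
        apply ih (L + 1)
        rw [win]
        cases w (s + L)
        · exact h1
        · exact h2
      obtain ⟨L', hL, hb⟩ := key
      exact ⟨L', by omega, hb⟩

/-- A bad window of a cube free word contains a pattern. -/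
lemma bad_pat (w : ℕ → Bool) (s L : ℕ) (hw : PowFree 3 w) (h : bad (win w s L) = true) :
    ∃ x ∈ pats, x.1.length ≤ L ∧
      ∀ k < x.1.length, w (s + (L - x.1.length) + k) = pf x.1 k := by
  rw [bad, Bool.or_eq_true, Bool.or_eq_true, Bool.or_eq_true, Bool.or_eq_true,
    Bool.or_eq_true] at h
  rcases h with (((((h | h) | h) | h) | h) | h)
  · obtain ⟨l, hl, h1⟩ := Tr.walk_sound _ _ h
    have hx := trie_ok l hl
    rw [List.mem_map] at hx
    obtain ⟨x, hx, rfl⟩ := hx
    have hlen := h1.length_le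
    rw [List.length_reverse, win_length] at hlen
    have hC := pats_ok x hx
    have hpos : 1 ≤ x.1.length := hC.2.2.2.2.2.2.2.1
    refine ⟨x, hx, hlen, ?_⟩
    intro t ht
    have hk : x.1.length - 1 - t < x.1.reverse.length := by
      rw [List.length_reverse]; omega
    have e := prefix_getD h1 hk
    rw [win_get w s L _ (by omega)] at e
    have e1 : s + (L - x.1.length) + t = s + (L - 1 - (x.1.length - 1 - t)) := by omega
    rw [e1, e, pf]
    have hk' : x.1.length - 1 - t < x.1.length := by omega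
    rw [List.getD_eq_getElem _ _ hk, List.getD_eq_getElem _ _ ht, List.getElem_reverse]
    congr 1
    omega
  · exact (cube_false w s L 1 hw (by norm_num) h).elim
  · exact (cube_false w s L 2 hw (by norm_num) h).elim
  · exact (cube_false w s L 3 hw (by norm_num) h).elim
  · exact (cube_false w s L 4 hw (by norm_num) h).elim
  · exact (cube_false w s L 5 hw (by norm_num) h).elim

end UHWaux

open UHWaux DFSaux D2aux in
theorem specUHW (hUNI : SpecUNI) (hHF : SpecHF) (hHF2 : SpecHF2) : SpecUHW := by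
  intro w hw M
  obtain ⟨L, hL39, hL⟩ := dfs_sound' w M 39 0 dfs_ok
  obtain ⟨x, hx, hlen, hpat⟩ := bad_pat w M L hw hL
  have hC := pats_ok x hx
  have h1 : x.2.1 + x.2.2.1 ≤ x.1.length - 1 := hC.2.2.2.1
  have h2 : 2 ≤ x.2.2.1 := hC.2.2.1
  obtain ⟨u1, u2⟩ := unhit hUNI hHF x.1 x.2.1 x.2.2.1 x.2.2.2 hC w (M + (L - x.1.length)) hpat
  obtain ⟨v1, v2⟩ := unhit2 hUNI hHF2 x.1 x.2.1 x.2.2.1 x.2.2.2 hC (pats_ok2 x hx) w
    (M + (L - x.1.length)) hpat
  exact ⟨⟨_, by omega, by omega, u1, u2⟩, ⟨_, by omega, by omega, v1, v2⟩⟩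

end Pool.Agent.Lib.MPc41b7c.PF
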