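import Pool.Agent.Lib.MP_c41b7c_co.PF.Spec

/-!
# UNI: the start determines the root and its end
-/

set_option autoImplicit false

namespace Pool.Agent.Lib.MPc41b7c.PF

namespace UNIaux

lemma nn (b : Bool) (h : b = !b) : False := by
  cases b <;> simp at h

/-- The shorter root is excluded. -/
lemma not_lt (w : ℕ → Bool) (b : Bool) (a p m p' : ℕ) (h1 : a + p ≤ m) (hp : 1 ≤ p)
    (hper : Per w p a m) (hlyn : Lyn w b a p') (hm : w m = b) (hmp : w (m - p) = !b) :
    ¬ p < p' := by
  intro hlt
  obtain ⟨k, _, hk1, hk2, hk3⟩ := hlyn p (by omega) hlt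
  have hK : a + (m - p - a) = m - p := by omega
  have hK' : a + p + (m - p - a) = m := by omega
  rcases lt_trichotomy k (m - p - a) with h | h | h
  · have h2 := hper (a + k) (by omega) (by omega)
    have e : a + k + p = a + p + k := by omega
    rw [e, hk2, hk3] at h2
    exact nn b h2
  · rw [h, hK, hmp] at hk2
    exact nn b hk2.symm
  · have h2 := hk1 (m - p - a) h
    rw [hK, hK', hmp, hm] at h2
    exact nn b h2.symm

/-- For the same period the ends agree. -/
lemma not_lt' (w : ℕ → Bool) (b : Bool) (a p m m' : ℕ) (h1 : a + p ≤ m)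
    (hper : Per w p a m') (hm : w m = b) (hmp : w (m - p) = !b) : ¬ m < m' := by
  intro hlt
  have h2 := hper (m - p) (by omega) (by omega)
  have e : m - p + p = m := by omega
  rw [e, hmp, hm] at h2
  exact nn b h2.symm

end UNIaux

theorem specUNI : SpecUNI := by
  intro w b a p m p' m' h1 h1' hp hp' hper hper' hlyn hlyn' hm hm' hmp hmp'
  have e1 := UNIaux.not_lt w b a p m p' h1 hp hper hlyn' hm hmp
  have e2 := UNIaux.not_lt w b a p' m' p h1' hp' hper' hlyn hm' hmp'
  have e : p = p' := by omega
  subst e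
  have e3 := UNIaux.not_lt' w b a p m m' h1 hper' hm hmp
  have e4 := UNIaux.not_lt' w b a p m' m h1' hper hm' hmp'
  exact ⟨rfl, by omega⟩

end Pool.Agent.Lib.MPc41b7c.PF
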