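import Pool.Agent.Lib.MP_c41b7c_co.PF.SpecD

/-!
# MP_c41b7c_co: module VWN (good block starts in every window)
-/

set_option autoImplicit false

namespace Pool.Agent.Lib.MPc41b7c.PF

theorem specVWN (hD2 : SpecD2) (hUHW : SpecUHW) : SpecVWN := by
  intro w hw M
  obtain ⟨-, a, ha, ha', h1, h2⟩ := hUHW w hw M
  by_cases hV : ∃ m, 2 ≤ a ∧ BadAt w (a - 2) m
  · obtain ⟨m, h3, h4⟩ := hV
    obtain ⟨_, h6, _, h8⟩ := hD2.2 w (a - 2) m h4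
    refine ⟨a - 2 + 4, by omega, by omega, h6, ?_⟩
    rintro ⟨m', _, h9⟩
    rw [show a - 2 + 4 - 2 = a - 2 + 2 by omega] at h9
    obtain ⟨_, _, h10, _⟩ := hD2.2 w (a - 2 + 2) m' h9
    exact h8 h10
  · exact ⟨a, ha, by omega, ⟨h1, h2⟩, hV⟩

end Pool.Agent.Lib.MPc41b7c.PF
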