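import Pool.Agent.Lib.MP_c41b7c_co.PF.SpecD

/-!
# Binary power-free words (MP_c41b7c_co), module WIN: counting windows
-/

set_option autoImplicit false

namespace Pool.Agent.Lib.MPc41b7c.PF

open Classical in
theorem specWIN : SpecWIN := by
  intro P K hK hP N
  rcases Nat.eq_zero_or_pos N with rfl | hN
  · exact Nat.zero_le _
  have hch : ∀ j : ℕ, ∃ a, 1 + j * K ≤ a ∧ a < 1 + j * K + K ∧ P a := fun j => hP (1 + j * K) (by omega)
  choose f hf1 hf2 hf3 using hch
  set J : ℕ := (N - 1) / K with hJ
  have hJK : J * K ≤ N - 1 := Nat.div_mul_le_self _ _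
  have hlt : N - 1 < K * (J + 1) := by
    have h := Nat.lt_div_mul_add (a := N - 1) hK
    rw [← hJ] at h
    nlinarith
  have hcard : J ≤ ((Finset.Ico 1 N).filter P).card := by
    have hinj : Set.InjOn f (Finset.range J : Set ℕ) := by
      intro i _ j _ hij
      have h1 := hf1 i
      have h2 := hf2 i
      have h3 := hf1 j
      have h4 := hf2 j
      rw [hij] at h1 h2
      by_contra hne
      rcases Nat.lt_or_gt_of_ne hne with h | h
      · have h5 : (i + 1) * K ≤ j * K := Nat.mul_le_mul_right K h
        have h6 : (i + 1) * K = i * K + K := by ring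
        omega
      · have h5 : (j + 1) * K ≤ i * K := Nat.mul_le_mul_right K h
        have h6 : (j + 1) * K = j * K + K := by ring
        omega
    have hmaps : ∀ j ∈ Finset.range J, f j ∈ (Finset.Ico 1 N).filter P := by
      intro j hj
      rw [Finset.mem_range] at hj
      rw [Finset.mem_filter, Finset.mem_Ico]
      have h5 : (j + 1) * K ≤ J * K := Nat.mul_le_mul_right K hj
      have h6 : (j + 1) * K = j * K + K := by ring
      have h1 := hf1 j
      have h2 := hf2 j
      exact ⟨⟨by omega, by omega⟩, hf3 j⟩
    have h := Finset.card_le_card_of_injOn f hmaps hinj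
    rwa [Finset.card_range] at h
  calc N ≤ K * (J + 1) := by omega
    _ ≤ K * (((Finset.Ico 1 N).filter P).card + 1) := Nat.mul_le_mul_left K (by omega)

end Pool.Agent.Lib.MPc41b7c.PF
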